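import Pool.Agent.K7.H53.CE.Prod
import Pool.Agent.K7.H53.MA.Alt
import Pool.Agent.TH59.WX.PB
import Pool.Agent.H391R2.FnD
import Pool.Agent.K7.H53.DB.Step
import Pool.Agent.TH444.TW.Pow

/-!
# Automorphisms of powers of alternating groups
-/

set_option autoImplicit false
set_option linter.unusedSectionVars false

open Equiv

namespace Pool.Agent.K7.H53.CE

open Pool.Agent.H391R2 (Wr wrMap wr_mul_left wr_mul_right)
open Pool.Agent.TH59.WX (Indec)

section alt

variable {n : ℕ}

theorem simple_alt (h5 : 5 ≤ n) : IsSimpleGroup (alternatingGroup (Fin n)) :=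
  alternatingGroup.isSimpleGroup (by rwa [Nat.card_eq_fintype_card, Fintype.card_fin])

theorem center_alt (h5 : 5 ≤ n) : Subgroup.center (alternatingGroup (Fin n)) = ⊥ :=
  alternatingGroup.center_eq_bot (by
    rw [Nat.card_eq_fintype_card, Fintype.card_fin]
    omega)

theorem indec_alt (h5 : 5 ≤ n) : Indec (alternatingGroup (Fin n)) := by
  have hs := simple_alt h5
  intro A B hcomm hgen
  have hAn : A.Normal := ⟨fun a ha t => by
    obtain ⟨a', ha', b', hb', rfl⟩ := hgen t
    have h1 : a' * b' * a * (a' * b')⁻¹ = a' * a * a'⁻¹ := by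
      rw [mul_assoc a' b' a, ← hcomm a ha b' hb']
      group
    rw [h1]
    exact mul_mem (mul_mem ha' ha) (inv_mem ha')⟩
  rcases hs.eq_bot_or_eq_top_of_normal A hAn with h | h
  · exact Or.inl h
  · right
    rw [eq_bot_iff]
    intro b hb
    have h1 : b ∈ Subgroup.center (alternatingGroup (Fin n)) := by
      rw [Subgroup.mem_center_iff]
      intro a
      exact hcomm a (by rw [h]; trivial) b hb
    rwa [center_alt h5] at h1

theorem nontrivial_alt (h5 : 5 ≤ n) : Nontrivial (alternatingGroup (Fin n)) :=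
  (simple_alt h5).toNontrivial

end alt

section aut

variable {n m : ℕ}

/-- The automorphism `φ` of `A_n^m` is induced by the element `w` of `S_n ≀ S_m`. -/
def Rel (φ : MulAut (Fin m → alternatingGroup (Fin n))) (w : Wr (Perm (Fin n)) m) : Prop :=
  ∀ (x : Fin m → alternatingGroup (Fin n)) (i : Fin m),
    ((φ x i : alternatingGroup (Fin n)) : Perm (Fin n)) =
      w.left i * x (w.right⁻¹ i) * (w.left i)⁻¹

theorem Rel.mul {φ φ' : MulAut (Fin m → alternatingGroup (Fin n))} {w w' : Wr (Perm (Fin n)) m}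
    (h : Rel φ w) (h' : Rel φ' w') : Rel (φ * φ') (w * w') := by
  intro x i
  rw [MulAut.mul_apply, h, h', wr_mul_left, wr_mul_right, mul_inv_rev, mul_inv_rev]
  simp only [mul_assoc]
  rfl

theorem exists_ind (h5 : 5 ≤ n) (h6 : n ≠ 6) (φ : MulAut (Fin m → alternatingGroup (Fin n))) :
    ∃ w, Rel φ w := by
  classical
  have hI : ∀ _ : Fin m, Indec (alternatingGroup (Fin n)) := fun _ => indec_alt h5
  have hN : ∀ _ : Fin m, Nontrivial (alternatingGroup (Fin n)) := fun _ => nontrivial_alt h5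
  let π := Pool.Agent.TH59.WX.perm hI hN φ
  have hπ : ∀ (i : Fin m) (x : Fin m → alternatingGroup (Fin n)), φ x (π i) = 1 ↔ x i = 1 :=
    Pool.Agent.TH59.WX.perm_iff hI hN φ
  have h1 : ∀ i : Fin m, ∃ σ : Perm (Fin n), ∀ t : alternatingGroup (Fin n),
      ((φ (Pi.mulSingle (π⁻¹ i) t) i : alternatingGroup (Fin n)) : Perm (Fin n)) =
        σ * t * σ⁻¹ := by
    intro i
    let β : alternatingGroup (Fin n) →* alternatingGroup (Fin n) :=
      ((Pi.evalMonoidHom _ i).comp φ.toMonoidHom).comp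
        (MonoidHom.mulSingle (fun _ : Fin m => alternatingGroup (Fin n)) (π⁻¹ i))
    have hβ : Function.Injective β := by
      rw [injective_iff_map_eq_one]
      intro t ht
      change φ (Pi.mulSingle (π⁻¹ i) t) i = 1 at ht
      have h2 := (hπ (π⁻¹ i) (Pi.mulSingle (π⁻¹ i) t)).1 (by
        rw [Pool.Agent.TH444.TW.perm_self_inv]
        exact ht)
      rwa [Pi.mulSingle_eq_same] at h2
    have hfin : Finite (alternatingGroup (Fin n)) := inferInstance
    exact Pool.Agent.K7.H53.MA.aut_perm n h5 h6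
      (MulEquiv.ofBijective β (Finite.injective_iff_bijective.1 hβ))
  choose σ hσ using h1
  refine ⟨⟨σ, π⟩, fun x i => ?_⟩
  change _ = σ i * x (π⁻¹ i) * (σ i)⁻¹
  obtain ⟨y, hy, hxy⟩ := Pool.Agent.TH59.WX.single_split (T := fun _ : Fin m =>
    alternatingGroup (Fin n)) (π⁻¹ i) x
  have h2 : φ y i = 1 := by
    have h3 := (hπ (π⁻¹ i) y).2 hy
    rwa [Pool.Agent.TH444.TW.perm_self_inv] at h3
  have h3 : φ x i = φ (Pi.mulSingle (π⁻¹ i) (x (π⁻¹ i))) i := by
    conv_lhs => rw [hxy]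
    rw [map_mul, Pi.mul_apply, h2, mul_one]
  rw [h3, hσ]

theorem rel_unique (h5 : 5 ≤ n) (φ : MulAut (Fin m → alternatingGroup (Fin n)))
    (w w' : Wr (Perm (Fin n)) m) (h : Rel φ w) (h' : Rel φ w') : w = w' := by
  classical
  have hN := nontrivial_alt h5
  obtain ⟨t, ht⟩ := exists_ne (1 : alternatingGroup (Fin n))
  have h1 : ∀ i, w.right⁻¹ i = w'.right⁻¹ i := by
    intro i
    by_contra hne
    have h2 := h (Pi.mulSingle (w.right⁻¹ i) t) i
    have h3 := h' (Pi.mulSingle (w.right⁻¹ i) t) i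
    rw [Pi.mulSingle_eq_of_ne (Ne.symm hne), h2, Pi.mulSingle_eq_same] at h3
    apply ht
    apply Subtype.ext
    rw [Subgroup.coe_one, mul_one, mul_inv_cancel, mul_inv_eq_one] at h3
    exact mul_eq_left.1 h3
  have h2 : w.right = w'.right := by
    rw [← inv_inj]
    exact Equiv.ext h1
  refine SemidirectProduct.ext ?_ h2
  funext i
  rw [← inv_mul_eq_one]
  apply Pool.Agent.K7.H53.MA.cent_one n (by omega)
  intro k hk
  have h3 := h (fun _ => ⟨k, hk⟩) i
  rw [h' (fun _ => ⟨k, hk⟩) i] at h3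
  change w'.left i * k * (w'.left i)⁻¹ = w.left i * k * (w.left i)⁻¹ at h3
  have h4 : (w.left i)⁻¹ * (w'.left i * k * (w'.left i)⁻¹) * w'.left i =
      (w.left i)⁻¹ * (w.left i * k * (w.left i)⁻¹) * w'.left i := by rw [h3]
  simp only [mul_assoc, inv_mul_cancel, mul_one, inv_mul_cancel_left] at h4
  simp only [mul_assoc]
  exact h4

/-- The homomorphism `Aut(A_n^m) → S_n ≀ S_m`. -/
noncomputable def aw (h5 : 5 ≤ n) (h6 : n ≠ 6) :
    MulAut (Fin m → alternatingGroup (Fin n)) →* Wr (Perm (Fin n)) m :=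
  MonoidHom.mk' (fun φ => (exists_ind h5 h6 φ).choose) fun a b =>
    rel_unique h5 (a * b) _ _ (exists_ind h5 h6 (a * b)).choose_spec
      ((exists_ind h5 h6 a).choose_spec.mul (exists_ind h5 h6 b).choose_spec)

theorem aw_rel (h5 : 5 ≤ n) (h6 : n ≠ 6) (φ : MulAut (Fin m → alternatingGroup (Fin n))) :
    Rel φ (aw h5 h6 φ) := (exists_ind h5 h6 φ).choose_spec

/-- The retraction of `S_n` to a subgroup of order two. -/
noncomputable def eps (h5 : 5 ≤ n) : Perm (Fin n) →* Perm (Fin n) :=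
  MonoidHom.mk' (fun σ => if Perm.sign σ = 1 then 1 else swap ⟨0, by omega⟩ ⟨1, by omega⟩) (by
    intro a b
    rw [Perm.sign_mul]
    rcases Int.units_eq_one_or (Perm.sign a) with ha | ha <;>
    rcases Int.units_eq_one_or (Perm.sign b) with hb | hb <;>
    simp [ha, hb])

theorem sign_eps (h5 : 5 ≤ n) (σ : Perm (Fin n)) : Perm.sign (eps h5 σ) = Perm.sign σ := by
  change Perm.sign (if Perm.sign σ = 1 then 1 else
    swap (⟨0, by omega⟩ : Fin n) (⟨1, by omega⟩ : Fin n)) = _
  rcases Int.units_eq_one_or (Perm.sign σ) with h | h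
  · rw [if_pos h, h, Perm.sign_one]
  · rw [if_neg (by rw [h]; decide), h, Perm.sign_swap (by
      intro h'
      have h3 := congrArg Fin.val h'
      simp at h3)]

theorem eps_congr (h5 : 5 ≤ n) {σ τ : Perm (Fin n)} (h : Perm.sign σ = Perm.sign τ) :
    eps h5 σ = eps h5 τ := by
  change (if Perm.sign σ = 1 then 1 else swap (⟨0, by omega⟩ : Fin n) (⟨1, by omega⟩ : Fin n)) =
    (if Perm.sign τ = 1 then 1 else swap (⟨0, by omega⟩ : Fin n) (⟨1, by omega⟩ : Fin n))
  rw [h]

theorem eps_alt (h5 : 5 ≤ n) {σ : Perm (Fin n)} (h : σ ∈ alternatingGroup (Fin n)) :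
    eps h5 σ = 1 := by
  change (if Perm.sign σ = 1 then 1 else
    swap (⟨0, by omega⟩ : Fin n) (⟨1, by omega⟩ : Fin n)) = 1
  rw [if_pos (Perm.mem_alternatingGroup.1 h)]

end aut

end Pool.Agent.K7.H53.CE
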