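import Mathlib

/-!
# Carmichael's presentation of the alternating group
-/

set_option autoImplicit false

open Equiv

namespace Pool.Agent.K7.H53.CE

section bound

variable {H ι : Type} [Group H]

theorem rel_a {x y : H} (h : (y * x) ^ 2 = 1) : y * x = x⁻¹ * y⁻¹ := by
  rw [pow_two] at h
  rw [← mul_inv_rev]
  exact eq_inv_of_mul_eq_one_left h

/-- **The bound.** -/
theorem carm (y : ι → H) (s : Finset ι) (h3 : ∀ i ∈ s, y i ^ 3 = 1)
    (h2 : ∀ i ∈ s, ∀ j ∈ s, i ≠ j → (y i * y j) ^ 2 = 1) :
    (Subgroup.closure (y '' s) : Set H).Finite ∧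
      2 * (Subgroup.closure (y '' s) : Set H).ncard ≤ (s.card + 2).factorial := by
  classical
  induction s using Finset.induction_on with
  | empty =>
    rw [Finset.coe_empty, Set.image_empty, Subgroup.closure_empty]
    have h1 : ((⊥ : Subgroup H) : Set H) = {1} := rfl
    rw [h1]
    exact ⟨Set.finite_singleton _, by simp [Nat.factorial]⟩
  | insert a s ha ih =>
    obtain ⟨f1, f2⟩ := ih (fun i hi => h3 i (Finset.mem_insert_of_mem hi))
      (fun i hi j hj => h2 i (Finset.mem_insert_of_mem hi) j (Finset.mem_insert_of_mem hj))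
    set K := Subgroup.closure (y '' s) with hK
    have hyK : ∀ i ∈ s, y i ∈ K := fun i hi => Subgroup.subset_closure ⟨i, hi, rfl⟩
    let x := y a
    have hx3 : x * x * x = 1 := by
      have h1 := h3 a (Finset.mem_insert_self a s)
      rw [pow_succ, pow_two] at h1
      exact h1
    have hxi : x⁻¹ = x * x := inv_eq_of_mul_eq_one_left hx3
    have hxx : x * x = x⁻¹ := hxi.symm
    have hxixi : x⁻¹ * x⁻¹ = x := by
      rw [← mul_inv_rev, hxx, inv_inv]
    have hyi : ∀ i ∈ s, (y i)⁻¹ = y i * y i := by
      intro i hi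
      have h1 := h3 i (Finset.mem_insert_of_mem hi)
      rw [pow_succ, pow_two] at h1
      exact inv_eq_of_mul_eq_one_left h1
    have hne : ∀ i ∈ s, i ≠ a := fun i hi h => ha (h ▸ hi)
    have hyx : ∀ i ∈ s, y i * x = x⁻¹ * (y i)⁻¹ := fun i hi =>
      rel_a (h2 i (Finset.mem_insert_of_mem hi) a (Finset.mem_insert_self a s) (hne i hi))
    have hxy : ∀ i ∈ s, x * y i = (y i)⁻¹ * x⁻¹ := fun i hi =>
      rel_a (h2 a (Finset.mem_insert_self a s) i (Finset.mem_insert_of_mem hi) (hne i hi).symm)
    have hyy : ∀ i ∈ s, ∀ j ∈ s, i ≠ j → y i * y j = (y j)⁻¹ * (y i)⁻¹ := fun i hi j hj h =>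
      rel_a (h2 i (Finset.mem_insert_of_mem hi) j (Finset.mem_insert_of_mem hj) h)
    have hxyi : ∀ i ∈ s, x * (y i)⁻¹ = (y i)⁻¹ * (x⁻¹ * y i) := by
      intro i hi
      calc x * (y i)⁻¹ = x * (y i * y i) := by rw [hyi i hi]
        _ = (x * y i) * y i := (mul_assoc _ _ _).symm
        _ = ((y i)⁻¹ * x⁻¹) * y i := by rw [hxy i hi]
        _ = _ := mul_assoc _ _ _
    let R : Option (Option (Option ι)) → H := fun o => match o with
      | none => 1
      | some none => x
      | some (some none) => x⁻¹
      | some (some (some i)) => x⁻¹ * y i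
    let P : H → Prop := fun h => ∃ k ∈ K, ∃ o : Option (Option (Option s)),
      h = k * R (o.map (Option.map (Option.map Subtype.val)))
    have key : ∀ h, P h → ∀ g ∈ y '' (insert a s : Finset ι), P (h * g) := by
      rintro h ⟨k, hk, o, rfl⟩ g ⟨j, hj, rfl⟩
      rcases Finset.mem_insert.1 hj with rfl | hj
      · -- multiplication by `x`
        rcases o with _ | _ | _ | ⟨i, hi⟩
        · refine ⟨k, hk, some none, ?_⟩
          change k * 1 * x = k * x
          rw [mul_one]
        · refine ⟨k, hk, some (some none), ?_⟩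
          change k * x * x = k * x⁻¹
          rw [mul_assoc, hxx]
        · refine ⟨k, hk, none, ?_⟩
          change k * x⁻¹ * x = k * 1
          rw [mul_assoc, inv_mul_cancel]
        · refine ⟨k * (y i)⁻¹, mul_mem hk (inv_mem (hyK i hi)), some (some (some ⟨i, hi⟩)), ?_⟩
          change k * (x⁻¹ * y i) * x = k * (y i)⁻¹ * (x⁻¹ * y i)
          have h4 : x⁻¹ * y i * x = (y i)⁻¹ * (x⁻¹ * y i) := by
            rw [mul_assoc, hyx i hi, ← mul_assoc x⁻¹ x⁻¹, hxixi, hxyi i hi]
          rw [mul_assoc, h4, mul_assoc]
      · rcases o with _ | _ | _ | ⟨i, hi⟩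
        · refine ⟨k * y j, mul_mem hk (hyK j hj), none, ?_⟩
          change k * 1 * y j = k * y j * 1
          rw [mul_one, mul_one]
        · refine ⟨k * (y j)⁻¹, mul_mem hk (inv_mem (hyK j hj)), some (some none), ?_⟩
          change k * x * y j = k * (y j)⁻¹ * x⁻¹
          rw [mul_assoc, hxy j hj, mul_assoc]
        · refine ⟨k, hk, some (some (some ⟨j, hj⟩)), ?_⟩
          change k * x⁻¹ * y j = k * (x⁻¹ * y j)
          rw [mul_assoc]
        · by_cases hij : i = j
          · subst hij
            refine ⟨k * y i, mul_mem hk (hyK i hi), some none, ?_⟩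
            change k * (x⁻¹ * y i) * y i = k * y i * x
            rw [mul_assoc, mul_assoc x⁻¹, ← hyi i hi, ← hyx i hi, mul_assoc]
          · refine ⟨k * (y j * (y i)⁻¹), mul_mem hk (mul_mem (hyK j hj) (inv_mem (hyK i hi))),
              some (some (some ⟨i, hi⟩)), ?_⟩
            change k * (x⁻¹ * y i) * y j = k * (y j * (y i)⁻¹) * (x⁻¹ * y i)
            have h4 : x⁻¹ * y i * y j = y j * (y i)⁻¹ * (x⁻¹ * y i) := by
              rw [mul_assoc, hyy i hi j hj hij, ← mul_assoc, ← hyx j hj, mul_assoc, hxyi i hi,
                mul_assoc]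
            rw [mul_assoc k, h4]
            exact (mul_assoc _ _ _).symm
    have hP : ∀ h ∈ Subgroup.closure (y '' (insert a s : Finset ι)), P h := by
      intro h hh
      refine Subgroup.closure_induction_right (p := fun h _ => P h) ?_ ?_ ?_ hh
      · exact ⟨1, one_mem _, none, by simp [R]⟩
      · intro h _ g hg hPh
        exact key h hPh g hg
      · intro h _ g hg hPh
        have h4 : g⁻¹ = g * g := by
          obtain ⟨j, hj, rfl⟩ := hg
          have h1 := h3 j hj
          rw [pow_succ, pow_two] at h1
          exact inv_eq_of_mul_eq_one_left h1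
        rw [h4, ← mul_assoc]
        exact key _ (key h hPh g hg) g hg
    have hfK : Finite K := f1
    let F : K × Option (Option (Option s)) → H := fun q =>
      q.1 * R (q.2.map (Option.map (Option.map Subtype.val)))
    have hsub : (Subgroup.closure (y '' (insert a s : Finset ι)) : Set H) ⊆ F '' Set.univ := by
      intro h hh
      obtain ⟨k, hk, o, rfl⟩ := hP h hh
      exact ⟨(⟨k, hk⟩, o), Set.mem_univ _, rfl⟩
    have hfin : (F '' Set.univ).Finite := Set.toFinite _
    refine ⟨hfin.subset hsub, ?_⟩
    have hcard : (Subgroup.closure (y '' (insert a s : Finset ι)) : Set H).ncard ≤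
        Nat.card K * (s.card + 3) := by
      refine (Set.ncard_le_ncard hsub hfin).trans ((Set.ncard_image_le Set.finite_univ).trans ?_)
      rw [Set.ncard_univ, Nat.card_prod]
      apply le_of_eq
      congr 1
      rw [Nat.card_eq_fintype_card, Fintype.card_option, Fintype.card_option, Fintype.card_option,
        Fintype.card_coe]
    have h4 : Nat.card K = (K : Set H).ncard := rfl
    rw [Finset.card_insert_of_notMem ha]
    have h5 : (s.card + 1 + 2).factorial = (s.card + 3) * (s.card + 2).factorial := rfl
    rw [h5]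
    calc 2 * (Subgroup.closure (y '' (insert a s : Finset ι)) : Set H).ncard
        ≤ 2 * (Nat.card K * (s.card + 3)) := Nat.mul_le_mul_left 2 hcard
      _ = (s.card + 3) * (2 * (K : Set H).ncard) := by rw [h4]; ring
      _ ≤ _ := Nat.mul_le_mul_left _ f2

end bound

section perm

variable {α : Type} [DecidableEq α]

/-- the three-cycles -/
def xs (a b i : α) : Perm α := swap a b * swap a i

theorem xs_cube {a b i : α} (hab : a ≠ b) (ha : i ≠ a) (hb : i ≠ b) [Fintype α] :
    xs a b i ^ 3 = 1 := by
  have h1 : (xs a b i).IsThreeCycle := Perm.isThreeCycle_swap_mul_swap_same hab ha.symm hb.symm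
  rw [← h1.orderOf]
  exact pow_orderOf_eq_one _

theorem swap_conj (σ : Perm α) (i j : α) : σ * swap i j * σ⁻¹ = swap (σ i) (σ j) := by
  rw [mul_inv_eq_iff_eq_mul]
  exact Equiv.mul_swap_eq_swap_mul σ i j

theorem xs_conj (σ : Perm α) (a b i : α) : σ * xs a b i * σ⁻¹ = xs (σ a) (σ b) (σ i) := by
  unfold xs
  rw [← swap_conj σ a b, ← swap_conj σ a i]
  group

theorem xs_inv {a b i : α} (ha : i ≠ a) (hb : i ≠ b) : (xs a b i)⁻¹ = xs b a i := by
  unfold xs
  rw [mul_inv_rev, swap_inv, swap_inv]
  have h1 := swap_conj (swap a b) a i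
  rw [swap_apply_left, swap_inv, swap_apply_of_ne_of_ne ha hb] at h1
  rw [swap_comm b a, ← h1, ← mul_assoc, ← mul_assoc, swap_mul_self, one_mul]

theorem xs_mul {a b i j : α} (hab : a ≠ b) (ha : i ≠ a) (hb : i ≠ b) :
    xs a b i * xs a b j = swap b i * swap a j := by
  have h1 := swap_conj (swap a b) a i
  rw [swap_apply_left, swap_inv, swap_apply_of_ne_of_ne ha hb] at h1
  unfold xs
  rw [← h1]
  group

theorem xs_sq {a b i j : α} (hab : a ≠ b) (ha : i ≠ a) (hb : i ≠ b) (ha' : j ≠ a) (hb' : j ≠ b)
    (hij : i ≠ j) : (xs a b i * xs a b j) ^ 2 = 1 := by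
  rw [xs_mul hab ha hb, pow_two]
  have h1 : swap a j * swap b i * (swap a j)⁻¹ = swap b i := by
    rw [swap_conj, swap_apply_of_ne_of_ne hab.symm hb'.symm, swap_apply_of_ne_of_ne ha hij]
  rw [mul_inv_eq_iff_eq_mul] at h1
  calc swap b i * swap a j * (swap b i * swap a j) =
      swap b i * (swap a j * swap b i) * swap a j := by simp only [mul_assoc]
    _ = swap b i * (swap b i * swap a j) * swap a j := by rw [h1]
    _ = 1 := by
      rw [← mul_assoc, swap_mul_self, one_mul, swap_mul_self]

/-- The three-cycles generate the alternating group. -/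
theorem alt_le [Fintype α] {a b : α} (hab : a ≠ b) (X : Subgroup (Perm α))
    (h : ∀ i, i ≠ a → i ≠ b → xs a b i ∈ X) : alternatingGroup α ≤ X := by
  have h1 : ∀ i, i ≠ a → swap a b * swap a i ∈ X := by
    intro i hi
    by_cases hb : i = b
    · rw [hb, swap_mul_self]
      exact one_mem _
    · exact h i hi hb
  have h2 : ∀ x y, x ≠ y → swap a b * swap x y ∈ X := by
    intro x y hxy
    by_cases hx : x = a
    · rw [hx]
      exact h1 y (fun e => hxy (hx.trans e.symm))
    · by_cases hy : y = a
      · rw [hy, swap_comm x a]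
        exact h1 x hx
      · have h3 : swap x y = swap a x * swap a y * swap a x := by
          have h4 := swap_conj (swap a x) a y
          rw [swap_apply_left, swap_inv, swap_apply_of_ne_of_ne hy (Ne.symm hxy)] at h4
          exact h4.symm
        have h5 : swap a b * swap x y = (swap a b * swap a x) * (swap a b * swap a y)⁻¹ *
            (swap a b * swap a x) := by
          rw [h3, mul_inv_rev, swap_inv, swap_inv]
          calc swap a b * (swap a x * swap a y * swap a x) =
              swap a b * swap a x * swap a y * 1 * swap a x := by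
                simp only [mul_assoc, mul_one]
            _ = swap a b * swap a x * swap a y * (swap a b * swap a b) * swap a x := by
                rw [swap_mul_self]
            _ = _ := by simp only [mul_assoc]
        rw [h5]
        exact mul_mem (mul_mem (h1 x hx) (inv_mem (h1 y hy))) (h1 x hx)
  have key : ∀ g : Perm α, (Perm.sign g = 1 → g ∈ X) ∧
      (Perm.sign g = -1 → swap a b * g ∈ X) := by
    intro g
    refine Perm.swap_induction_on g ?_ ?_
    · exact ⟨fun _ => one_mem _, fun h => by
        rw [Perm.sign_one] at h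
        exact absurd h (by decide)⟩
    · rintro f x y hxy ⟨h3, h4⟩
      rw [Perm.sign_mul, Perm.sign_swap hxy, neg_one_mul]
      refine ⟨fun h5 => ?_, fun h5 => ?_⟩
      · have h6 := h4 (by rw [← neg_neg (Perm.sign f), h5])
        have h7 : swap x y * f = (swap a b * swap x y)⁻¹ * (swap a b * f) := by
          rw [mul_inv_rev, swap_inv, swap_inv]
          calc swap x y * f = swap x y * 1 * f := by rw [mul_one]
            _ = swap x y * (swap a b * swap a b) * f := by rw [swap_mul_self]
            _ = _ := by simp only [mul_assoc]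
        rw [h7]
        exact mul_mem (inv_mem (h2 x y hxy)) h6
      · have h6 := h3 (neg_injective h5)
        rw [← mul_assoc]
        exact mul_mem (h2 x y hxy) h6
  intro g hg
  exact (key g).1 (Perm.mem_alternatingGroup.1 hg)

end perm

end Pool.Agent.K7.H53.CE
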