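import Pool.Agent.K7.H53.CE.Prod
import Pool.Agent.TH59.WX.PB
import Pool.Agent.H391R2.FnD
import Pool.Agent.TH444.TW.Pow
import Pool.Agent.Y60.DC.ClsU2

/-!
# Covers of simple groups and supplements: general theory
-/

set_option autoImplicit false
set_option linter.unusedSectionVars false

namespace Pool.Agent.K7.H53.CE

open Pool.Agent.H391R2 (Wr wrMap wr_mul_left wr_mul_right)
open Pool.Agent.TH59.WX (Indec)
open Pool.Agent.TH444.TW (powAct)
open Pool.Agent.Y60.DC (IsAutPower)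

/-- `ρ : T' → T` is a perfect central extension which maps to all central extensions of `T` with
kernel of order `c`, `C c`. -/
structure IsCov (C : ℕ → Prop) {T T' : Type} [Group T] [Group T'] (ρ : T' →* T) : Prop where
  surj : Function.Surjective ρ
  perf : commutator T' = ⊤
  cen : ρ.ker ≤ Subgroup.center T'
  ker : C (Nat.card ρ.ker)
  lift : ∀ (M : Type) [Group M] [Finite M] (f : M →* T), Function.Surjective f →
    f.ker ≤ Subgroup.center M → C (Nat.card f.ker) → ∃ φ : T' →* M, ∀ t, f (φ t) = ρ t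

namespace IsCov

variable {C : ℕ → Prop} {T T' : Type} [Group T] [Group T'] {ρ : T' →* T} (h : IsCov C ρ)

include h

theorem unique {φ ψ : T' →* T'} (hφ : ∀ t, ρ (φ t) = ρ (ψ t)) : φ = ψ := by
  refine hom_eq h.perf φ ψ fun t => h.cen ?_
  rw [MonoidHom.mem_ker, map_mul, map_inv, hφ, inv_mul_cancel]

theorem exists_act [Finite T'] (a : MulAut T) : ∃ φ : T' →* T', ∀ t, ρ (φ t) = a (ρ t) := by
  let f : T' →* T := (a⁻¹ : MulAut T).toMonoidHom.comp ρ
  have hf : ∀ t, f t = a⁻¹ (ρ t) := fun t => rfl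
  have hk : f.ker = ρ.ker := by
    ext x
    rw [MonoidHom.mem_ker, MonoidHom.mem_ker, hf, map_eq_one_iff _ (a⁻¹ : MulAut T).injective]
  obtain ⟨φ, hφ⟩ := h.lift T' f ((a⁻¹ : MulAut T).surjective.comp h.surj) (by
    rw [hk]
    exact h.cen) (by
    rw [hk]
    exact h.ker)
  refine ⟨φ, fun t => ?_⟩
  rw [← hφ t, hf, MulAut.apply_inv_self]

theorem exists_aut [Finite T'] :
    ∃ L : MulAut T →* MulAut T', ∀ a t, ρ (L a t) = a (ρ t) := by
  choose φ hφ using fun a => h.exists_act a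
  have hmul : ∀ a b, φ (a * b) = (φ a).comp (φ b) := by
    intro a b
    refine h.unique fun t => ?_
    rw [hφ, MonoidHom.comp_apply, hφ, hφ]
    rfl
  have hone : φ 1 = MonoidHom.id T' := by
    refine h.unique fun t => ?_
    rw [hφ]
    rfl
  have hinv : ∀ a t, φ a⁻¹ (φ a t) = t := by
    intro a t
    have h1 := DFunLike.congr_fun (hmul a⁻¹ a) t
    rw [inv_mul_cancel, hone] at h1
    exact h1.symm
  have hinv' : ∀ a t, φ a (φ a⁻¹ t) = t := by
    intro a t
    have h1 := DFunLike.congr_fun (hmul a a⁻¹) t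
    rw [mul_inv_cancel, hone] at h1
    exact h1.symm
  refine ⟨{ toFun := fun a =>
              { toFun := φ a
                invFun := φ a⁻¹
                left_inv := hinv a
                right_inv := hinv' a
                map_mul' := map_mul (φ a) }
            map_one' := ?_
            map_mul' := ?_ }, fun a t => hφ a t⟩
  · apply MulEquiv.ext
    intro t
    exact DFunLike.congr_fun hone t
  · intro a b
    apply MulEquiv.ext
    intro t
    exact DFunLike.congr_fun (hmul a b) t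

/-- **Homomorphisms from powers of the cover.** -/
theorem exists_pow (hC : ∀ a b, a ∣ b → C b → C a) {k : ℕ} {N : Type} [Group N] [Finite N]
    (f : N →* (Fin k → T)) (hs : Function.Surjective f) (hc : f.ker ≤ Subgroup.center N)
    (hk : C (Nat.card f.ker)) : ∃ Φ : (Fin k → T') →* N, ∀ x i, f (Φ x) i = ρ (x i) := by
  classical
  have h1 : ∀ i : Fin k, ∃ φ : T' →* N, ∀ t, f (φ t) = Pi.mulSingle i (ρ t) := by
    intro i
    let Ni : Subgroup N := (MonoidHom.mulSingle (fun _ : Fin k => T) i).range.comap f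
    let g : Ni →* T := ((Pi.evalMonoidHom _ i).comp f).comp Ni.subtype
    have hval : ∀ y : Ni, f y = Pi.mulSingle i (g y) := by
      rintro ⟨y, t, ht⟩
      have h3 : f y = Pi.mulSingle i t := ht.symm
      change f y = Pi.mulSingle i (f y i)
      rw [h3, Pi.mulSingle_eq_same]
    have hg : Function.Surjective g := by
      intro t
      obtain ⟨y, hy⟩ := hs (Pi.mulSingle i t)
      refine ⟨⟨y, ⟨t, hy.symm⟩⟩, ?_⟩
      change f y i = t
      rw [hy, Pi.mulSingle_eq_same]
    have hk' : ∀ y : Ni, y ∈ g.ker → (y : N) ∈ f.ker := by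
      intro y hy
      rw [MonoidHom.mem_ker, hval y, hy, Pi.mulSingle_one]
    have hgc : g.ker ≤ Subgroup.center Ni := by
      intro x hx
      rw [Subgroup.mem_center_iff]
      intro y
      exact Subtype.ext (Subgroup.mem_center_iff.1 (hc (hk' x hx)) y)
    let τ : g.ker →* f.ker := (Ni.subtype.comp g.ker.subtype).codRestrict f.ker fun x => hk' x x.2
    have hτ : Function.Injective τ := by
      intro x y hxy
      exact Subtype.ext (Subtype.ext (congrArg (fun t : f.ker => (t : N)) hxy))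
    obtain ⟨φ, hφ⟩ := h.lift Ni g hg hgc (hC _ _ (Subgroup.card_dvd_of_injective τ hτ) hk)
    refine ⟨Ni.subtype.comp φ, fun t => ?_⟩
    change f (φ t) = _
    rw [hval, hφ]
  choose φ hφ using h1
  have hcomm : Pairwise fun i j => ∀ x y, Commute (φ i x) (φ j y) := by
    intro i j hij x y
    have h3 : φ j = (MulAut.conj (φ i x)).toMonoidHom.comp (φ j) := by
      refine hom_eq h.perf _ _ fun t => hc ?_
      rw [MonoidHom.mem_ker]
      change f ((φ j t)⁻¹ * (φ i x * φ j t * (φ i x)⁻¹)) = 1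
      rw [map_mul, map_mul, map_mul, map_inv, map_inv, hφ, hφ]
      have h4 := Pi.mulSingle_commute (f := fun _ : Fin k => T) hij (ρ x) (ρ t)
      rw [h4.eq, mul_inv_cancel_right, inv_mul_cancel]
    have h4 := DFunLike.congr_fun h3 y
    change φ j y = φ i x * φ j y * (φ i x)⁻¹ at h4
    rw [eq_mul_inv_iff_mul_eq] at h4
    exact h4.symm
  let Φ := MonoidHom.noncommPiCoprod φ hcomm
  have hΦ : f.comp Φ = ρ.compLeft (Fin k) := by
    refine pi_ext _ _ fun i t => ?_
    change f (Φ (Pi.mulSingle i t)) = _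
    rw [MonoidHom.noncommPiCoprod_mulSingle, hφ]
    funext j
    change _ = ρ ((Pi.mulSingle i t : Fin k → T') j)
    by_cases hj : j = i
    · subst hj
      rw [Pi.mulSingle_eq_same, Pi.mulSingle_eq_same]
    · rw [Pi.mulSingle_eq_of_ne hj, Pi.mulSingle_eq_of_ne hj, map_one]
  refine ⟨Φ, fun x i => ?_⟩
  have h3 := DFunLike.congr_fun hΦ x
  exact congrFun h3 i

end IsCov

section aut

variable {T : Type} [Group T] {m : ℕ}

/-- The automorphism `φ` of `T^m` is induced by the element `w` of `Aut(T) ≀ S_m`. -/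
def RelA (φ : MulAut (Fin m → T)) (w : Wr (MulAut T) m) : Prop :=
  ∀ (x : Fin m → T) (i : Fin m), φ x i = w.left i (x (w.right⁻¹ i))

theorem RelA.mul {φ φ' : MulAut (Fin m → T)} {w w' : Wr (MulAut T) m}
    (h : RelA φ w) (h' : RelA φ' w') : RelA (φ * φ') (w * w') := by
  intro x i
  rw [MulAut.mul_apply, h, h', wr_mul_left, wr_mul_right, mul_inv_rev]
  rfl

theorem exists_relA [Finite T] (hI : Indec T) (hN : Nontrivial T) (φ : MulAut (Fin m → T)) :
    ∃ w, RelA φ w := by
  classical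
  have hI' : ∀ _ : Fin m, Indec T := fun _ => hI
  have hN' : ∀ _ : Fin m, Nontrivial T := fun _ => hN
  let π := Pool.Agent.TH59.WX.perm hI' hN' φ
  have hπ : ∀ (i : Fin m) (x : Fin m → T), φ x (π i) = 1 ↔ x i = 1 :=
    Pool.Agent.TH59.WX.perm_iff hI' hN' φ
  have h1 : ∀ i : Fin m, ∃ σ : MulAut T, ∀ t : T, φ (Pi.mulSingle (π⁻¹ i) t) i = σ t := by
    intro i
    let β : T →* T :=
      ((Pi.evalMonoidHom _ i).comp φ.toMonoidHom).comp
        (MonoidHom.mulSingle (fun _ : Fin m => T) (π⁻¹ i))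
    have hβ : Function.Injective β := by
      rw [injective_iff_map_eq_one]
      intro t ht
      change φ (Pi.mulSingle (π⁻¹ i) t) i = 1 at ht
      have h2 := (hπ (π⁻¹ i) (Pi.mulSingle (π⁻¹ i) t)).1 (by
        rw [Pool.Agent.TH444.TW.perm_self_inv]
        exact ht)
      rwa [Pi.mulSingle_eq_same] at h2
    exact ⟨MulEquiv.ofBijective β (Finite.injective_iff_bijective.1 hβ), fun t => rfl⟩
  choose σ hσ using h1
  refine ⟨⟨σ, π⟩, fun x i => ?_⟩
  change _ = σ i (x (π⁻¹ i))
  obtain ⟨y, hy, hxy⟩ := Pool.Agent.TH59.WX.single_split (T := fun _ : Fin m => T) (π⁻¹ i) x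
  have h2 : φ y i = 1 := by
    have h3 := (hπ (π⁻¹ i) y).2 hy
    rwa [Pool.Agent.TH444.TW.perm_self_inv] at h3
  have h3 : φ x i = φ (Pi.mulSingle (π⁻¹ i) (x (π⁻¹ i))) i := by
    conv_lhs => rw [hxy]
    rw [map_mul, Pi.mul_apply, h2, mul_one]
  rw [h3, hσ]

theorem relA_unique (hN : Nontrivial T) (φ : MulAut (Fin m → T))
    (w w' : Wr (MulAut T) m) (h : RelA φ w) (h' : RelA φ w') : w = w' := by
  classical
  obtain ⟨t, ht⟩ := exists_ne (1 : T)
  have h1 : ∀ i, w.right⁻¹ i = w'.right⁻¹ i := by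
    intro i
    by_contra hne
    have h2 := h (Pi.mulSingle (w.right⁻¹ i) t) i
    have h3 := h' (Pi.mulSingle (w.right⁻¹ i) t) i
    rw [Pi.mulSingle_eq_of_ne (Ne.symm hne), h2, Pi.mulSingle_eq_same, map_one] at h3
    exact ht ((map_eq_one_iff _ (w.left i).injective).1 h3)
  have h2 : w.right = w'.right := by
    rw [← inv_inj]
    exact Equiv.ext h1
  refine SemidirectProduct.ext ?_ h2
  funext i
  apply MulEquiv.ext
  intro k
  exact (h (fun _ => k) i).symm.trans (h' (fun _ => k) i)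

/-- The homomorphism `Aut(T^m) → Aut(T) ≀ S_m`. -/
noncomputable def awT [Finite T] (hI : Indec T) (hN : Nontrivial T) :
    MulAut (Fin m → T) →* Wr (MulAut T) m :=
  MonoidHom.mk' (fun φ => (exists_relA hI hN φ).choose) fun a b =>
    relA_unique hN (a * b) _ _ (exists_relA hI hN (a * b)).choose_spec
      ((exists_relA hI hN a).choose_spec.mul (exists_relA hI hN b).choose_spec)

theorem awT_rel [Finite T] (hI : Indec T) (hN : Nontrivial T) (φ : MulAut (Fin m → T)) :
    RelA φ (awT hI hN φ) := (exists_relA hI hN φ).choose_spec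

/-- The retraction to a complement of the inner automorphisms. -/
theorem exists_ret {A : Type} [Group A] (I : Subgroup A) [I.Normal]
    (h : ∃ C : Subgroup A, IsCompl C I) :
    ∃ ε : A →* A, (∀ a, ε (ε a) = ε a) ∧ (∀ a ∈ I, ε a = 1) ∧ ∀ a, ε a * a⁻¹ ∈ I := by
  obtain ⟨C, hC⟩ := h
  have h1 : ∀ a : A, ∃ c ∈ C, ∃ i ∈ I, c * i = a := by
    intro a
    have h2 : a ∈ C ⊔ I := by
      rw [hC.sup_eq_top]
      exact Subgroup.mem_top a
    exact Subgroup.mem_sup_of_normal_right.1 h2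
  choose c hc i hi hci using h1
  have huniq : ∀ a x y, x ∈ C → y ∈ I → x * y = a → c a = x := by
    intro a x y hx hy hxy
    have h2 : (c a)⁻¹ * x ∈ C ⊓ I := by
      refine Subgroup.mem_inf.2 ⟨C.mul_mem (C.inv_mem (hc a)) hx, ?_⟩
      have h3 : (c a)⁻¹ * x = i a * y⁻¹ := by
        rw [inv_mul_eq_iff_eq_mul, ← mul_assoc, hci, ← hxy, mul_inv_cancel_right]
      rw [h3]
      exact I.mul_mem (hi a) (I.inv_mem hy)
    rw [hC.inf_eq_bot, Subgroup.mem_bot] at h2
    exact inv_mul_eq_one.1 h2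
  refine ⟨MonoidHom.mk' c fun a b => ?_, ?_, ?_, ?_⟩
  · refine huniq (a * b) _ ((c b)⁻¹ * i a * c b * i b) (mul_mem (hc a) (hc b)) ?_ ?_
    · refine mul_mem ?_ (hi b)
      have h3 := ‹I.Normal›.conj_mem (i a) (hi a) (c b)⁻¹
      rwa [inv_inv] at h3
    · have h4 : c a * c b * ((c b)⁻¹ * i a * c b * i b) = c a * i a * (c b * i b) := by
        simp only [mul_assoc, mul_inv_cancel_left]
      rw [h4, hci, hci]
  · intro a
    exact huniq (c a) (c a) 1 (hc a) (one_mem I) (mul_one _)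
  · intro a ha
    exact huniq a 1 a (one_mem C) ha (one_mul a)
  · intro a
    change c a * a⁻¹ ∈ I
    have h3 : c a * a⁻¹ = c a * (i a)⁻¹ * (c a)⁻¹ := by
      conv_lhs => rw [← hci a]
      rw [mul_inv_rev, ← mul_assoc]
      congr 3
      rw [hci]
    rw [h3]
    exact ‹I.Normal›.conj_mem _ (inv_mem (hi a)) _

end aut

section sup

variable {G Γ : Type} [Group G] [Finite G] [Group Γ]
  (α : G →* Γ) (M : Subgroup Γ) [hMn : M.Normal] {T : Type} [Group T] [Finite T] {m : ℕ}
  (hI : Indec T) (hN : Nontrivial T) (e : M ≃* (Fin m → T))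
  (ε : MulAut T →* MulAut T)

/-- The conjugation action on `M`. -/
noncomputable def cT : G →* MulAut (Fin m → T) :=
  ((MulAut.congr e).toMonoidHom.comp MulAut.conjNormal).comp α

theorem cT_apply (g : G) (x : M) :
    cT α M e g (e x) = e ⟨α g * x * (α g)⁻¹, hMn.conj_mem _ x.2 _⟩ := by
  change e (MulAut.conjNormal (α g) (e.symm (e x))) = _
  rw [MulEquiv.symm_apply_apply]
  congr 1

/-- The homomorphism to the wreath product. -/
noncomputable def wT : G →* Wr (MulAut T) m := (awT hI hN).comp (cT α M e)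

theorem wT_rel (g : G) : RelA (cT α M e g) (wT α M hI hN e g) := awT_rel hI hN _

theorem wT_ker (z : G) (hz : α z = 1) : wT α M hI hN e z = 1 := by
  have h1 : cT α M e z = 1 := by
    change ((MulAut.congr e).toMonoidHom.comp MulAut.conjNormal) (α z) = 1
    rw [hz, map_one]
  change awT hI hN (cT α M e z) = 1
  rw [h1, map_one]

theorem wT_mem (ν : G) (hν : α ν ∈ M) :
    wT α M hI hN e ν = ⟨fun i => MulAut.conj (e ⟨α ν, hν⟩ i), 1⟩ := by
  refine relA_unique hN (cT α M e ν) _ _ (wT_rel α M hI hN e ν) ?_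
  intro x i
  obtain ⟨y, rfl⟩ := e.surjective x
  rw [cT_apply]
  have h1 : (⟨α ν * y * (α ν)⁻¹, hMn.conj_mem _ y.2 _⟩ : M) = ⟨α ν, hν⟩ * y * ⟨α ν, hν⟩⁻¹ := rfl
  rw [h1, map_mul, map_mul, map_inv]
  rfl

/-- The supplement. -/
noncomputable def HT : Subgroup G :=
  MonoidHom.eqLocus (wT α M hI hN e) ((wrMap ε m).comp (wT α M hI hN e))

theorem ker_le_HT : α.ker ≤ HT α M hI hN e ε := by
  intro z hz
  change wT α M hI hN e z = wrMap ε m (wT α M hI hN e z)
  rw [wT_ker α M hI hN e z hz, map_one]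

theorem HT_inf (hcen : Subgroup.center T = ⊥)
    (hε : ∀ a ∈ (MulAut.conj : T →* MulAut T).range, ε a = 1) (h : G)
    (hh : h ∈ HT α M hI hN e ε) (hM : α h ∈ M) : α h = 1 := by
  have h1 : wT α M hI hN e h = wrMap ε m (wT α M hI hN e h) := hh
  rw [wT_mem α M hI hN e h hM] at h1
  have h2 : e ⟨α h, hM⟩ = 1 := by
    funext i
    have h3 := congrArg (fun w : Wr (MulAut T) m => w.left i) h1
    change MulAut.conj (e ⟨α h, hM⟩ i) = ε (MulAut.conj (e ⟨α h, hM⟩ i)) at h3
    rw [hε _ ⟨_, rfl⟩] at h3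
    have h4 : e ⟨α h, hM⟩ i ∈ Subgroup.center T := by
      rw [Subgroup.mem_center_iff]
      intro g
      have h5 := DFunLike.congr_fun h3 g
      rw [MulAut.conj_apply, MulAut.one_apply, mul_inv_eq_iff_eq_mul] at h5
      exact h5.symm
    rw [hcen, Subgroup.mem_bot] at h4
    exact h4
  have h3 : (⟨α h, hM⟩ : M) = 1 := (map_eq_one_iff e e.injective).1 h2
  exact congrArg Subtype.val h3

theorem HT_sup (hε2 : ∀ a, ε (ε a) = ε a)
    (hε3 : ∀ a, ε a * a⁻¹ ∈ (MulAut.conj : T →* MulAut T).range)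
    (hα : Function.Surjective α) (g : G) :
    ∃ ν, α ν ∈ M ∧ ∃ h ∈ HT α M hI hN e ε, g = ν * h := by
  let w := wT α M hI hN e g
  choose y hy using fun i => hε3 (w.left i)
  obtain ⟨ν, hν⟩ := hα (e.symm y : M)
  have hνM : α ν ∈ M := by
    rw [hν]
    exact (e.symm y).2
  refine ⟨ν⁻¹, by rw [map_inv]; exact inv_mem hνM, ν * g, ?_, (inv_mul_cancel_left ν g).symm⟩
  have h1 : wT α M hI hN e (ν * g) = ⟨fun i => ε (w.left i), w.right⟩ := by
    rw [map_mul, wT_mem α M hI hN e ν hνM]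
    have h2 : (⟨α ν, hνM⟩ : M) = e.symm y := Subtype.ext hν
    rw [h2, MulEquiv.apply_symm_apply]
    refine SemidirectProduct.ext ?_ ?_
    · funext i
      rw [wr_mul_left]
      change MulAut.conj (y i) * w.left i = ε (w.left i)
      rw [hy, inv_mul_cancel_right]
    · rw [wr_mul_right]
      exact one_mul _
  change wT α M hI hN e (ν * g) = wrMap ε m (wT α M hI hN e (ν * g))
  rw [h1]
  refine SemidirectProduct.ext ?_ rfl
  funext i
  change ε (w.left i) = ε (ε (w.left i))
  exact (hε2 _).symm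

/-- **The case of a cover.** -/
theorem of_HT {T' : Type} [Group T'] [Finite T'] {ρ : T' →* T} {C : ℕ → Prop} (hcov : IsCov C ρ)
    (hC : ∀ a b, a ∣ b → C b → C a)
    (hε2 : ∀ a, ε (ε a) = ε a)
    (hε3 : ∀ a, ε a * a⁻¹ ∈ (MulAut.conj : T →* MulAut T).range)
    (hα : Function.Surjective α) (hc : α.ker ≤ Subgroup.center G)
    (hn : C (Nat.card α.ker)) :
    ∃ (Y : Type) (_ : Group Y) (_ : Finite Y) (q : Y →* G) (r : Y →* HT α M hI hN e ε),
      Function.Surjective q ∧ IsAutPower T' r ∧ ∀ x, ∃ ν, α ν ∈ M ∧ q x = ν * r x := by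
  let N : Subgroup G := M.comap α
  let f : N →* (Fin m → T) :=
    e.toMonoidHom.comp ((α.comp N.subtype).codRestrict M (fun x => x.2))
  have hf : ∀ x : N, f x = e ⟨α x, x.2⟩ := fun x => rfl
  have hfs : Function.Surjective f := by
    intro y
    obtain ⟨g, hg⟩ := hα (e.symm y : M)
    have hgM : α g ∈ M := by
      rw [hg]
      exact (e.symm y).2
    refine ⟨⟨g, hgM⟩, ?_⟩
    rw [hf]
    have h3 : (⟨α g, hgM⟩ : M) = e.symm y := Subtype.ext hg
    change e ⟨α g, hgM⟩ = y
    rw [h3, MulEquiv.apply_symm_apply]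
  have hfk : ∀ x : N, x ∈ f.ker → α x = 1 := by
    intro x hx
    rw [MonoidHom.mem_ker, hf] at hx
    exact congrArg Subtype.val ((map_eq_one_iff e e.injective).1 hx)
  have hfc : f.ker ≤ Subgroup.center N := by
    intro x hx
    rw [Subgroup.mem_center_iff]
    intro y
    exact Subtype.ext (Subgroup.mem_center_iff.1 (hc (hfk x hx)) y)
  let τ : f.ker →* α.ker := (N.subtype.comp f.ker.subtype).codRestrict α.ker fun x => hfk x x.2
  have hτ : Function.Injective τ := by
    intro x y hxy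
    exact Subtype.ext (Subtype.ext (congrArg (fun t : α.ker => (t : G)) hxy))
  obtain ⟨Φ, hΦ⟩ := hcov.exists_pow hC f hfs hfc (hC _ _ (Subgroup.card_dvd_of_injective τ hτ) hn)
  obtain ⟨L, hL⟩ := hcov.exists_aut
  let H := HT α M hI hN e ε
  let ψ : H →* Wr (MulAut T) m := (wT α M hI hN e).comp H.subtype
  let ψ' : H →* Wr (MulAut T') m := (wrMap L m).comp ψ
  let act : H →* MulAut (Fin m → T') := (powAct (MonoidHom.id (MulAut T')) m).comp ψ'
  have hact : ∀ (h : H) (a : Fin m → T') (i : Fin m),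
      act h a i = L ((ψ h).left i) (a ((ψ h).right⁻¹ i)) := fun h a i => rfl
  have hfinSD : Finite ((Fin m → T') ⋊[act] H) :=
    Finite.of_equiv _ SemidirectProduct.equivProd.symm
  have hsd : IsAutPower T' (SemidirectProduct.rightHom : ((Fin m → T') ⋊[act] H) →* H) := by
    refine ⟨m, ψ', SemidirectProduct.inl, SemidirectProduct.inr,
      SemidirectProduct.inl_injective, SemidirectProduct.range_inl_eq_ker_rightHom,
      fun w => SemidirectProduct.rightHom_inr w, fun w x => ?_⟩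
    have h3 := SemidirectProduct.inl_aut (φ := act) w x
    have h4 : act w x = fun i => (ψ' w).left i (x ((ψ' w).right⁻¹ i)) := rfl
    rw [← h4, h3, map_inv, inv_mul_cancel_right]
  have hΦa : ∀ x, α (Φ x) = (e.symm (fun i => ρ (x i)) : M) := by
    intro x
    have h3 : e ⟨α (Φ x), (Φ x).2⟩ = fun i => ρ (x i) := funext fun i => hΦ x i
    rw [← h3, MulEquiv.symm_apply_apply]
  let q : ((Fin m → T') ⋊[act] H) →* G :=
    SemidirectProduct.lift (N.subtype.comp Φ) H.subtype (fun h => by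
      refine pi_hom_eq hcov.perf _ _ fun a => hc ?_
      rw [MonoidHom.mem_ker]
      change α ((Φ (act h a) : G)⁻¹ * ((h : G) * Φ a * (h : G)⁻¹)) = 1
      rw [map_mul, map_inv, inv_mul_eq_one, map_mul, map_mul, map_inv, hΦa, hΦa]
      have h3 := cT_apply α M e (h : G) (e.symm (fun i => ρ (a i)))
      rw [MulEquiv.apply_symm_apply] at h3
      have h4 : (fun i => ρ (act h a i)) = cT α M e (h : G) (fun i => ρ (a i)) := by
        funext i
        rw [wT_rel α M hI hN e (h : G) _ i, hact, hL]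
        rfl
      rw [h4, h3, MulEquiv.symm_apply_apply])
  refine ⟨(Fin m → T') ⋊[act] H, inferInstance, hfinSD, q, SemidirectProduct.rightHom, ?_, hsd,
    fun x => ⟨(Φ x.left : G), (Φ x.left).2, rfl⟩⟩
  intro g
  obtain ⟨ν, hν, h, hh, rfl⟩ := HT_sup α M hI hN e ε hε2 hε3 hα g
  choose x hx using fun i => hcov.surj (f ⟨ν, hν⟩ i)
  have h3 : f (Φ x) = f ⟨ν, hν⟩ := by
    funext i
    rw [hΦ, hx]
  have h4 : α ((Φ x : G)⁻¹ * ν) = 1 := by
    have h5' : (Φ x)⁻¹ * ⟨ν, hν⟩ ∈ f.ker := by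
      rw [MonoidHom.mem_ker, map_mul, map_inv, h3, inv_mul_cancel]
    exact hfk _ h5'
  refine ⟨⟨x, ⟨(Φ x : G)⁻¹ * ν * h, mul_mem (ker_le_HT α M hI hN e ε h4) hh⟩⟩, ?_⟩
  change (Φ x : G) * ((Φ x : G)⁻¹ * ν * h) = ν * h
  rw [mul_assoc, mul_inv_cancel_left]

end sup

end Pool.Agent.K7.H53.CE
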