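import Pool.Agent.Y60.DCF.Defs
import Pool.Agent.K7.H53.DB.Step

/-!
# Composition factors for the theorem on central extensions
-/

set_option autoImplicit false

open Pool.Agent.Y60.DCF (IsPSL2 IsPSL Factor)
open Pool.Agent.Y60.DC (CompIn)

namespace Pool.Agent.K7.H53.CE

/-- Every central extension of `T` by a finite group of order prime to `p` splits: `T` has no
covering groups besides those whose kernels are `p`-groups. -/
def NoCover (p : ℕ) (T : Type) [Group T] : Prop :=
  ∀ (M : Type) [Group M] [Finite M] (f : M →* T), Function.Surjective f →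
    f.ker ≤ Subgroup.center M → ¬ p ∣ Nat.card f.ker → ∃ s : T →* M, ∀ t, f (s t) = t

/-- The simple groups `T` which are allowed as composition factors of `N / Z`, where the order of
`Z` is `c`:
* groups of order `p`,
* the alternating groups `A_n`, `n ≥ 5`, `n ≠ 6`, where `n = 7` is allowed only if `p = 3` or `c` is
  prime to 3,
* `PSL_2(F)`, `F` a field with `p ^ k ≥ 4` elements, `k` odd if `p ≠ 2`,
* `PSL_n(F)`, `F` a finite field of characteristic `p`, `n ≥ 3` prime to `|F| - 1`,
* the other groups `T` with `Factor p T` which have no central extensions of order prime to `p`. -/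
def FactorZ (p c : ℕ) [Fact p.Prime] (T : Type) [Group T] : Prop :=
  Nat.card T = p ∨
  (∃ n : ℕ, 5 ≤ n ∧ n ≠ 6 ∧ (n = 7 → p = 3 ∨ ¬ 3 ∣ c) ∧
    Nonempty (T ≃* alternatingGroup (Fin n))) ∨
  IsPSL2 p T ∨ IsPSL p T ∨
  (Factor p T ∧ (∃ a b : T, a * b ≠ b * a) ∧ NoCover p T)

/-- The homomorphism `π : E → W` of finite groups is surjective, and there are normal subgroups
`P ≤ Z ≤ ker π` of `E` such that `P` is a `p`-group, `Z / P` is contained in the centre of `E / P`,
no prime number besides `p` divides both `|Z|` and `|W|`, and all composition factors of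
`ker π / Z` are allowed (`FactorZ`). -/
def CentralKernel (p : ℕ) [Fact p.Prime] {E W : Type} [Group E] [Group W] (π : E →* W) : Prop :=
  Finite E ∧ Function.Surjective π ∧
  ∃ (P Z : Subgroup E) (_ : P.Normal) (_ : Z.Normal), P ≤ Z ∧ Z ≤ π.ker ∧ IsPGroup p P ∧
    (∀ z ∈ Z, ∀ g : E, z * g * z⁻¹ * g⁻¹ ∈ P) ∧
    (∀ l : ℕ, l.Prime → l ∣ Nat.card Z → l ∣ Nat.card W → l = p) ∧
    CompIn (FactorZ p (Nat.card Z)) (π.ker ⧸ Z.subgroupOf π.ker)

/-- The group `G` is finite, and there are normal subgroups `P ≤ Z ≤ N` of `G` such that `P` is a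
`p`-group, `Z / P` is contained in the centre of `G / P`, `G / N` is commutative and all composition
factors of `N / Z` are allowed (`FactorZ`). -/
def CentralGroup (p : ℕ) [Fact p.Prime] (G : Type) [Group G] : Prop :=
  Finite G ∧
  ∃ (P Z N : Subgroup G) (_ : P.Normal) (_ : Z.Normal) (_ : N.Normal), P ≤ Z ∧ Z ≤ N ∧
    IsPGroup p P ∧ (∀ z ∈ Z, ∀ g : G, z * g * z⁻¹ * g⁻¹ ∈ P) ∧
    (∀ a b : G, a * b * a⁻¹ * b⁻¹ ∈ N) ∧
    CompIn (FactorZ p (Nat.card Z)) (N ⧸ Z.subgroupOf N)

/-- The groups which are obtained from the groups with `CentralGroup p G` by the epimorphisms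
`π : G' → G` with `CentralKernel p π` and those of the theorems `AlternatingFactors` (`MA.Step`) and
`DoubleCovers` (`DB.StepD`, for `p ≠ 2`), and by passing to quotients. -/
inductive BuiltZ (p : ℕ) [Fact p.Prime] : ∀ (G : Type) [Group G], Prop
  /-- extensions of commutative groups -/
  | group (G : Type) [Group G] (h : CentralGroup p G) : BuiltZ p G
  /-- kernels which are central extensions -/
  | kernel {G G' : Type} [Group G] [Group G'] (π : G' →* G) (h : CentralKernel p π)
      (hG : BuiltZ p G) : BuiltZ p G'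
  /-- the epimorphisms of `AlternatingFactors` and `DoubleCovers` -/
  | step {G G' : Type} [Group G] [Group G'] (π : G' →* G)
      (h : Pool.Agent.K7.H53.MA.Step p π ∨ (p ≠ 2 ∧ Pool.Agent.K7.H53.DB.StepD p π))
      (hG : BuiltZ p G) : BuiltZ p G'
  /-- quotients -/
  | quot {G G' : Type} [Group G] [Group G'] (q : G' →* G) (hq : Function.Surjective q)
      (hG : BuiltZ p G') : BuiltZ p G

end Pool.Agent.K7.H53.CE
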