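import Pool.Agent.K7.H53.CE.Sup
import Pool.Agent.Y419.DC.CF

/-!
# Central extensions of groups with alternating composition factors
-/

set_option autoImplicit false
set_option linter.unusedSectionVars false

open Equiv

namespace Pool.Agent.K7.H53.CE

open Pool.Agent.K7.H53.DB
open Pool.Agent.Y60.DC (CompIn)
open Pool.Agent.K7.H53.MA (FactorA)

theorem compIn_pgroup (p : ℕ) [hp : Fact p.Prime] (S : ∀ (T : Type) [Group T], Prop)
    (hS : ∀ (T : Type) [Group T], Nat.card T = p → S T) (k : ℕ) :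
    ∀ (P : Type) [Group P] [Finite P], Nat.card P = p ^ k → CompIn S P := by
  induction k with
  | zero =>
    intro P _ _ h
    refine CompIn.one P ?_
    rw [pow_zero] at h
    exact (Nat.card_eq_one_iff_unique.1 h).1
  | succ k ih =>
    intro P _ _ h
    obtain ⟨K, hK⟩ := Sylow.exists_subgroup_card_pow_prime (G := P) p (n := k) (by
      rw [h]
      exact pow_dvd_pow p (Nat.le_succ k))
    have hidx : K.index = p := by
      have h1 := K.card_mul_index
      rw [hK, h, pow_succ] at h1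
      exact Nat.eq_of_mul_eq_mul_left (pow_pos hp.out.pos k) h1
    have hn : K.Normal := Subgroup.normal_of_index_eq_minFac_card (by
      rw [hidx, h, hp.out.pow_minFac (Nat.succ_ne_zero k)])
    exact CompIn.ext P K (ih K hK) (hS _ hidx)

/-- Extensions with a normal `p`-subgroup as kernel. -/
theorem built_of_pgroup (p : ℕ) [Fact p.Prime] {G : Type} [Group G] [Finite G] (P : Subgroup G)
    [P.Normal] (hP : IsPGroup p P) (h : Built p (G ⧸ P)) : Built p G := by
  refine Built.step (QuotientGroup.mk' P) (Or.inl ⟨QuotientGroup.mk'_surjective P, inferInstance,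
    Or.inl ?_⟩) h
  rw [QuotientGroup.ker_mk']
  obtain ⟨k, hk⟩ := IsPGroup.iff_card.1 hP
  exact compIn_pgroup p (fun T _ => FactorA p T) (fun T _ hT => Or.inr (Or.inl hT)) k P hk

/-- Abelian groups. -/
theorem built_abelian (p : ℕ) [Fact p.Prime] {G : Type} [Group G] [Finite G]
    (h : ∀ x y : G, x * y = y * x) : Built p G := by
  refine Built.step (1 : G →* Unit) (Or.inl ⟨fun x => ⟨1, rfl⟩, inferInstance,
    Or.inr ⟨⟨1, fun w => rfl⟩, fun x y _ _ => h x y⟩⟩) (Built.one Unit inferInstance)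

section pcase

variable {p : ℕ} [hp : Fact p.Prime] {G Γ : Type} [Group G] [Finite G] [Group Γ] [Finite Γ]
  (α : G →* Γ) (hα : Function.Surjective α) (hc : α.ker ≤ Subgroup.center G) (M : Subgroup Γ)
  [hMn : M.Normal]

include hα hc in
theorem p_case (hM : IsPGroup p M) : ∃ P : Subgroup G, P.Normal ∧ IsPGroup p P ∧
    (∀ x ∈ P, α x ∈ M) ∧ ∀ ν, α ν ∈ M → ∃ x ∈ P, ∃ z ∈ α.ker, ν = x * z := by
  let N : Subgroup G := M.comap α
  have hNn : N.Normal := Subgroup.normal_comap α
  let g : N →* M := (α.comp N.subtype).codRestrict M (fun x => x.2)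
  have hgs : Function.Surjective g := by
    rintro ⟨y, hy⟩
    obtain ⟨x, rfl⟩ := hα y
    exact ⟨⟨x, hy⟩, rfl⟩
  have hgk : ∀ x : N, x ∈ g.ker → (x : G) ∈ α.ker := by
    intro x hx
    exact congrArg Subtype.val (MonoidHom.mem_ker.1 hx)
  have hgc : g.ker ≤ Subgroup.center N := by
    intro x hx
    rw [Subgroup.mem_center_iff]
    intro y
    exact Subtype.ext (Subgroup.mem_center_iff.1 (hc (hgk x hx)) y)
  have hMnil : Group.IsNilpotent M := hM.isNilpotent
  have hnil : Group.IsNilpotent N := Subgroup.isNilpotent_of_ker_le_center g hgc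
  let P₀ : Sylow p N := default
  have hPn : (P₀ : Subgroup N).Normal :=
    ((Group.isNilpotent_of_finite_tfae (G := N)).out 0 3 rfl rfl).mp hnil p hp P₀
  have hPc : (P₀ : Subgroup N).Characteristic := P₀.characteristic_of_normal hPn
  refine ⟨(P₀ : Subgroup N).map N.subtype, inferInstance, P₀.2.map _, ?_, ?_⟩
  · rintro _ ⟨x, hx, rfl⟩
    exact x.2
  · have hsup : (P₀ : Subgroup N) ⊔ g.ker = ⊤ := by
      rw [← Subgroup.index_eq_one]
      have h1 : ((P₀ : Subgroup N) ⊔ g.ker).index ∣ (P₀ : Subgroup N).index :=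
        Subgroup.index_dvd_of_le le_sup_left
      have h2 : ((P₀ : Subgroup N) ⊔ g.ker).index ∣ g.ker.index :=
        Subgroup.index_dvd_of_le le_sup_right
      obtain ⟨k, hk⟩ := IsPGroup.iff_card.1 hM
      have h3 : g.ker.index = p ^ k := by
        rw [Subgroup.index_ker, MonoidHom.range_eq_top.2 hgs, Subgroup.card_top, hk]
      rw [h3] at h2
      have h4 : Nat.Coprime ((P₀ : Subgroup N).index) (p ^ k) :=
        (hp.out.coprime_pow_of_not_dvd P₀.not_dvd_index)
      exact Nat.eq_one_of_dvd_coprimes h4 h1 h2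
    intro ν hν
    have h5 : (⟨ν, hν⟩ : N) ∈ (P₀ : Subgroup N) ⊔ g.ker := by
      rw [hsup]
      exact Subgroup.mem_top _
    obtain ⟨x, hx, z, hz, hxz⟩ := Subgroup.mem_sup_of_normal_right.1 h5
    exact ⟨x, ⟨x, hx, rfl⟩, z, hgk z hz, (congrArg Subtype.val hxz).symm⟩

end pcase

/-- The composition factors: alternating groups `A_n`, `n ≥ 5`, `n ≠ 6`, where `n = 7` is
allowed only if `b` holds, and groups of order `p`. -/
def SC (p : ℕ) (b : Prop) (T : Type) [Group T] : Prop :=
  (∃ n : ℕ, 5 ≤ n ∧ n ≠ 6 ∧ (n = 7 → b) ∧ Nonempty (T ≃* alternatingGroup (Fin n))) ∨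
    Nat.card T = p

theorem SC.iso {p : ℕ} {b : Prop} (T T' : Type) [Group T] [Group T'] (e : Nonempty (T ≃* T'))
    (h : SC p b T) : SC p b T' := by
  obtain ⟨e⟩ := e
  rcases h with ⟨n, h5, h6, h7, ⟨f⟩⟩ | h
  · exact Or.inl ⟨n, h5, h6, h7, ⟨e.symm.trans f⟩⟩
  · exact Or.inr ((Nat.card_congr e.toEquiv).symm.trans h)

theorem SC.simple {p : ℕ} [Fact p.Prime] {b : Prop} (T : Type) [Group T] (h : SC p b T) :
    IsSimpleGroup T := by
  rcases h with ⟨n, h5, h6, h7, ⟨f⟩⟩ | h
  · have := simple_alt h5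
    exact f.isSimpleGroup
  · exact isSimpleGroup_of_prime_card h

/-- **The induction.** -/
theorem main_ind (p : ℕ) [hp' : Fact p.Prime] (hp : p ≠ 2) (b : Prop) (c : ℕ) :
    ∀ (G Γ : Type) [Group G] [Finite G] [Group Γ] [Finite Γ] (α : G →* Γ), Nat.card Γ ≤ c →
      Function.Surjective α → α.ker ≤ Subgroup.center G → CompIn (SC p b) Γ →
      (b → ¬ 3 ∣ Nat.card α.ker) → Built p G := by
  induction c with
  | zero =>
    intro G Γ _ _ _ _ α h
    have := Nat.card_pos (α := Γ)
    omega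
  | succ c ih =>
    intro G Γ _ _ _ _ α hcard hα hc hΓ hb
    by_cases htriv : Subsingleton Γ
    · refine built_abelian p fun x y => ?_
      have h1 : x ∈ α.ker := Subsingleton.elim _ _
      exact (Subgroup.mem_center_iff.1 (hc h1) y).symm
    have hne : (⊤ : Subgroup Γ) ≠ ⊥ := by
      intro h
      apply htriv
      exact (Subgroup.subsingleton_iff (G := Γ)).1 (subsingleton_of_bot_eq_top h.symm)
    have htop : CompIn (SC p b) (⊤ : Subgroup Γ) :=
      Pool.Agent.Y419.DC.quot (fun T T' _ _ h h' => SC.iso T T' h h') (fun T _ h => SC.simple T h)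
        hΓ _ (Subgroup.topEquiv (G := Γ)).symm.toMonoidHom
        (Subgroup.topEquiv (G := Γ)).symm.surjective
    obtain ⟨M, hMn, -, hMb, ⟨T, iT, m, hT, ⟨e⟩⟩, hcomp⟩ := Pool.Agent.Y419.DC.cf_holds
      (fun T _ => SC p b T) (fun T T' _ _ h h' => SC.iso T T' h h') (fun T _ h => SC.simple T h)
      Γ ⊤ hne htop
    have hcompQ : CompIn (SC p b) (Γ ⧸ M) := by
      refine Pool.Agent.Y419.DC.quot (fun T T' _ _ h h' => SC.iso T T' h h')
        (fun T _ h => SC.simple T h) hcomp _ (Subgroup.subtype _) ?_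
      intro y
      obtain ⟨x, rfl⟩ := QuotientGroup.mk_surjective y
      exact ⟨⟨_, x, Subgroup.mem_top x, rfl⟩, rfl⟩
    have hcardQ : Nat.card (Γ ⧸ M) ≤ c := by
      have h1 : 1 < Nat.card M := (Subgroup.one_lt_card_iff_ne_bot M).2 hMb
      have h2 := Subgroup.card_eq_card_quotient_mul_card_subgroup M
      have h3 : 0 < Nat.card (Γ ⧸ M) := Nat.card_pos
      have h4 : Nat.card (Γ ⧸ M) < Nat.card Γ := by
        rw [h2]
        exact lt_mul_of_one_lt_right h3 h1
      omega
    rcases hT with ⟨n, h5, h6, h7, ⟨eT⟩⟩ | hT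
    · -- the alternating case
      let e' : M ≃* (Fin m → alternatingGroup (Fin n)) :=
        e.trans (MulEquiv.piCongrRight fun _ => eT)
      have hn : n = 5 ∨ 8 ≤ n ∨ ¬ 3 ∣ Nat.card α.ker := by
        by_cases h : n = 7
        · exact Or.inr (Or.inr (hb (h7 h)))
        · omega
      refine built_of_HS α M h5 h6 e' p hp hα hc hn ?_
      let H := HS α M h5 h6 e'
      let β : H →* Γ ⧸ M := (QuotientGroup.mk' M).comp (α.comp H.subtype)
      have hβk : ∀ h : H, h ∈ β.ker → (h : G) ∈ α.ker := by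
        intro h hh
        exact HS_inf α M h5 h6 e' h h.2 ((QuotientGroup.eq_one_iff (α h)).1 hh)
      refine ih H (Γ ⧸ M) β hcardQ ?_ ?_ hcompQ ?_
      · intro y
        obtain ⟨y', rfl⟩ := QuotientGroup.mk_surjective y
        obtain ⟨g, rfl⟩ := hα y'
        obtain ⟨ν, hν, h, hh, rfl⟩ := HS_sup α M h5 h6 e' hα g
        refine ⟨⟨h, hh⟩, ?_⟩
        change (QuotientGroup.mk (α h) : Γ ⧸ M) = QuotientGroup.mk (α (ν * h))
        rw [map_mul, QuotientGroup.mk_mul, (QuotientGroup.eq_one_iff (α ν)).2 hν, one_mul]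
      · intro x hx
        rw [Subgroup.mem_center_iff]
        intro y
        exact Subtype.ext (Subgroup.mem_center_iff.1 (hc (hβk x hx)) y)
      · intro hb' h3
        refine hb hb' (h3.trans ?_)
        let ρ : β.ker →* α.ker :=
          (H.subtype.comp β.ker.subtype).codRestrict α.ker fun x => hβk x x.2
        have hρ : Function.Injective ρ := by
          intro x y hxy
          exact Subtype.ext (Subtype.ext (congrArg (fun t : α.ker => (t : G)) hxy))
        exact Subgroup.card_dvd_of_injective ρ hρ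
    · -- the case of a `p`-group
      have hM : IsPGroup p M := by
        refine IsPGroup.of_card (n := m) ?_
        rw [Nat.card_congr e.toEquiv, Nat.card_fun, hT, Nat.card_fin]
      obtain ⟨P, hPn, hPp, hPM, hPN⟩ := p_case α hα hc M hM
      refine built_of_pgroup p P hPp ?_
      let β : G ⧸ P →* Γ ⧸ M := QuotientGroup.map P M α (by
        intro x hx
        exact hPM x hx)
      have hβ : ∀ g : G, β (QuotientGroup.mk g) = QuotientGroup.mk (α g) := fun g => rfl
      have hβk : ∀ x ∈ β.ker, ∃ z ∈ α.ker, (QuotientGroup.mk z : G ⧸ P) = x := by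
        intro x hx
        obtain ⟨g, rfl⟩ := QuotientGroup.mk_surjective x
        rw [MonoidHom.mem_ker, hβ, QuotientGroup.eq_one_iff] at hx
        obtain ⟨y, hy, z, hz, rfl⟩ := hPN g hx
        refine ⟨z, hz, ?_⟩
        rw [QuotientGroup.mk_mul, (QuotientGroup.eq_one_iff y).2 hy, one_mul]
      refine ih (G ⧸ P) (Γ ⧸ M) β hcardQ ?_ ?_ hcompQ ?_
      · intro y
        obtain ⟨y', rfl⟩ := QuotientGroup.mk_surjective y
        obtain ⟨g, rfl⟩ := hα y'
        exact ⟨QuotientGroup.mk g, rfl⟩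
      · intro x hx
        obtain ⟨z, hz, rfl⟩ := hβk x hx
        rw [Subgroup.mem_center_iff]
        intro y
        obtain ⟨g, rfl⟩ := QuotientGroup.mk_surjective y
        rw [← QuotientGroup.mk_mul, ← QuotientGroup.mk_mul, Subgroup.mem_center_iff.1 (hc hz) g]
      · intro hb' h3
        refine hb hb' (h3.trans ?_)
        let ρ : α.ker →* β.ker :=
          ((QuotientGroup.mk' P).comp α.ker.subtype).codRestrict β.ker fun x => by
            rw [MonoidHom.mem_ker]
            change (QuotientGroup.mk (α x) : Γ ⧸ M) = 1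
            rw [show α x = 1 from x.2]
            rfl
        have hρ : Function.Surjective ρ := by
          intro x
          obtain ⟨z, hz, hzx⟩ := hβk x x.2
          exact ⟨⟨z, hz⟩, Subtype.ext hzx⟩
        exact Subgroup.card_dvd_of_surjective ρ hρ

/-- **Central extensions.** -/
theorem built_central (p : ℕ) [hp' : Fact p.Prime] (hp : p ≠ 2) (G : Type) [Group G] [Finite G]
    (Z : Subgroup G) [Z.Normal] (hZ : Z ≤ Subgroup.center G)
    (h : CompIn (SC p (p = 3 ∨ ¬ 3 ∣ Nat.card Z)) (G ⧸ Z)) : Built p G := by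
  by_cases h3 : 3 ∣ Nat.card Z
  swap
  · refine main_ind p hp _ _ G (G ⧸ Z) (QuotientGroup.mk' Z) le_rfl
      (QuotientGroup.mk'_surjective Z) ?_ h ?_
    · rwa [QuotientGroup.ker_mk']
    · rwa [QuotientGroup.ker_mk', imp_iff_right (Or.inr h3)]
  by_cases hp3 : p = 3
  swap
  · refine main_ind p hp _ _ G (G ⧸ Z) (QuotientGroup.mk' Z) le_rfl
      (QuotientGroup.mk'_surjective Z) ?_ h ?_
    · rwa [QuotientGroup.ker_mk']
    · rintro (h' | h')
      · exact absurd h' hp3
      · rwa [QuotientGroup.ker_mk']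
  -- `p = 3`: divide by the Sylow 3-subgroup of `Z`
  subst hp3
  let P₀ : Sylow 3 Z := default
  let P : Subgroup G := (P₀ : Subgroup Z).map Z.subtype
  have hPZ : P ≤ Z := Subgroup.map_subtype_le _
  have hPn : P.Normal := ⟨fun x hx g => by
    rw [Subgroup.mem_center_iff.1 (hZ (hPZ hx)) g, mul_inv_cancel_right]
    exact hx⟩
  have hPp : IsPGroup 3 P := P₀.2.map _
  refine built_of_pgroup 3 P hPp ?_
  let β : G ⧸ P →* G ⧸ Z := QuotientGroup.map P Z (MonoidHom.id G) (fun x hx => hPZ hx)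
  have hβ : ∀ g : G, β (QuotientGroup.mk g) = QuotientGroup.mk g := fun g => rfl
  have hβk : ∀ x ∈ β.ker, ∃ z ∈ Z, (QuotientGroup.mk z : G ⧸ P) = x := by
    intro x hx
    obtain ⟨g, rfl⟩ := QuotientGroup.mk_surjective x
    rw [MonoidHom.mem_ker, hβ, QuotientGroup.eq_one_iff] at hx
    exact ⟨g, hx, rfl⟩
  refine main_ind 3 hp True _ (G ⧸ P) (G ⧸ Z) β le_rfl ?_ ?_ ?_ ?_
  · intro y
    obtain ⟨g, rfl⟩ := QuotientGroup.mk_surjective y
    exact ⟨QuotientGroup.mk g, rfl⟩
  · intro x hx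
    obtain ⟨z, hz, rfl⟩ := hβk x hx
    rw [Subgroup.mem_center_iff]
    intro y
    obtain ⟨g, rfl⟩ := QuotientGroup.mk_surjective y
    rw [← QuotientGroup.mk_mul, ← QuotientGroup.mk_mul, Subgroup.mem_center_iff.1 (hZ hz) g]
  · refine Pool.Agent.Y60.DCF.compIn_mono (fun T _ hT => ?_) h
    exact hT.imp (fun ⟨n, h5, h6, h7, e⟩ => ⟨n, h5, h6, fun _ => trivial, e⟩) id
  · intro _ hdvd
    -- the order of `Z / P` is prime to 3
    have hZc : ∀ x y : Z, x * y = y * x := fun x y =>
      Subtype.ext (Subgroup.mem_center_iff.1 (hZ y.2) x)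
    have hP₀n : (P₀ : Subgroup Z).Normal := ⟨fun x hx g => by
      rw [hZc g x, mul_inv_cancel_right]
      exact hx⟩
    let ρ : Z →* β.ker :=
      ((QuotientGroup.mk' P).comp Z.subtype).codRestrict β.ker fun x => by
        rw [MonoidHom.mem_ker]
        exact (QuotientGroup.eq_one_iff (x : G)).2 x.2
    have hρ : Function.Surjective ρ := by
      intro x
      obtain ⟨z, hz, hzx⟩ := hβk x x.2
      exact ⟨⟨z, hz⟩, Subtype.ext hzx⟩
    have h4 : (P₀ : Subgroup Z) ≤ ρ.ker := by
      intro x hx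
      rw [MonoidHom.mem_ker]
      exact Subtype.ext ((QuotientGroup.eq_one_iff (x : G)).2 ⟨x, hx, rfl⟩)
    have h5 : Nat.card β.ker ∣ (P₀ : Subgroup Z).index := by
      have h6 := Subgroup.index_dvd_of_le h4
      rwa [Subgroup.index_ker, MonoidHom.range_eq_top.2 hρ, Subgroup.card_top] at h6
    exact P₀.not_dvd_index (hdvd.trans h5)

end Pool.Agent.K7.H53.CE
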