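import Pool.Agent.K7.H53.CE.Cov
import Pool.Agent.K7.H53.CE.Ind
import Pool.Agent.K7.H53.DB.Main
import Pool.Agent.Y419.DC.CF

/-!
# Central extensions: the induction for a class of simple groups
-/

set_option autoImplicit false
set_option linter.unusedSectionVars false

open scoped commutatorElement

namespace Pool.Agent.K7.H53.CE

open Pool.Agent.H391R2 (Wr wrMap wr_mul_left wr_mul_right)
open Pool.Agent.H391R2.T4 (RegSol)
open Pool.Agent.TH59.WX (Indec)
open Pool.Agent.TH444.TW (powAct RSK)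
open Pool.Agent.Y60.DC (IsAutPower CompIn LocP autPower_rsk)
open Pool.Agent.K7.H53.MA (FacA regA_inf Step.toA Occurs OccursRegularly)

/-- All split... the homomorphism to the trivial group has regular solutions. -/
def GoodG (p : ℕ) (G : Type) [Group G] : Prop :=
  Finite G ∧ ∀ (K : Type) [Field K] [CharP K p], RSK K (1 : G →* Unit)

section closure

variable {p : ℕ} [hp : Fact p.Prime]

theorem GoodG.step {W W' : Type} [Group W] [Group W'] [Finite W'] (π : W' →* W)
    (hπ : ∀ (K : Type) [Field K] [CharP K p], RSK K π) (h : GoodG p W) : GoodG p W' := by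
  refine ⟨inferInstance, fun K _ _ => ?_⟩
  have h1 : (1 : W' →* Unit) = (1 : W →* Unit).comp π := rfl
  rw [h1]
  exact RSK.comp (h.2 K) (hπ K)

theorem GoodG.quot {G G' : Type} [Group G] [Group G'] (q : G' →* G)
    (hq : Function.Surjective q) (h : GoodG p G') : GoodG p G :=
  ⟨have := h.1; Finite.of_surjective q hq, fun K _ _ => RSK.quot q hq (fun _ => rfl) (h.2 K)⟩

theorem GoodG.ofStep {W W' : Type} [Group W] [Group W'] (π : W' →* W)
    (hs : Pool.Agent.K7.H53.MA.Step p π) (h : GoodG p W) : GoodG p W' := by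
  have hfin : Finite W' := ((hs.toA p (ZMod p)).main p h.1).1
  exact GoodG.step π (fun K _ _ => ((hs.toA p K).main p h.1).2) h

theorem goodG_trivial (G : Type) [Group G] [Subsingleton G] : GoodG p G := by
  refine ⟨inferInstance, fun K _ _ => ?_⟩
  have hs : Pool.Agent.K7.H53.MA.Step p (1 : G →* Unit) :=
    ⟨fun x => ⟨1, rfl⟩, inferInstance, Or.inr ⟨⟨1, fun w => rfl⟩,
      fun x y _ _ => Subsingleton.elim _ _⟩⟩
  exact ((hs.toA p K).main p inferInstance).2

theorem goodG_abelian {G : Type} [Group G] [Finite G] (h : ∀ x y : G, x * y = y * x) :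
    GoodG p G :=
  GoodG.ofStep (1 : G →* Unit) ⟨fun x => ⟨1, rfl⟩, inferInstance,
    Or.inr ⟨⟨1, fun w => rfl⟩, fun x y _ _ => h x y⟩⟩ (goodG_trivial Unit)

theorem goodG_pgroup {G : Type} [Group G] [Finite G] (P : Subgroup G)
    [P.Normal] (hP : IsPGroup p P) (h : GoodG p (G ⧸ P)) : GoodG p G := by
  refine GoodG.ofStep (QuotientGroup.mk' P) ⟨QuotientGroup.mk'_surjective P, inferInstance,
    Or.inl ?_⟩ h
  rw [QuotientGroup.ker_mk']
  obtain ⟨k, hk⟩ := IsPGroup.iff_card.1 hP
  exact compIn_pgroup p (fun T _ => Pool.Agent.K7.H53.MA.FactorA p T)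
    (fun T _ hT => Or.inr (Or.inl hT)) k P hk

/-- Kernels with composition factors in `FacA p`. -/
theorem rsk_kernel {W W' : Type} [Group W] [Group W'] [Finite W] [Finite W'] (π : W' →* W)
    (hs : Function.Surjective π) (h : CompIn (FacA p) π.ker) (K : Type) [Field K] [CharP K p] :
    RSK K π := by
  intro K' M _ _ _ _ _ _ _ ε
  have hc : CharP K' p := charP_of_injective_algebraMap (algebraMap K K').injective p
  refine regA_inf p K' M _ _ (ε.symm.surjective.comp hs) ?_
  have h1 : (ε.symm.toMonoidHom.comp π).ker = π.ker := by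
    ext x
    rw [MonoidHom.mem_ker, MonoidHom.mem_ker]
    exact map_eq_one_iff ε.symm ε.symm.injective
  rw [h1]
  exact h

theorem goodG_kernel {G : Type} [Group G] [Finite G] (N : Subgroup G) [N.Normal]
    (h : CompIn (FacA p) N) (hB : GoodG p (G ⧸ N)) : GoodG p G := by
  refine GoodG.step (QuotientGroup.mk' N) (fun K _ _ =>
    rsk_kernel (QuotientGroup.mk' N) (QuotientGroup.mk'_surjective N) ?_ K) hB
  rw [QuotientGroup.ker_mk']
  exact h

/-- Powers of simple groups. -/
theorem compIn_pow {S : ∀ (T : Type) [Group T], Prop}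
    (hiso : ∀ (T T' : Type) [Group T] [Group T'], Nonempty (T ≃* T') → S T → S T')
    (hsim : ∀ (T : Type) [Group T], S T → IsSimpleGroup T)
    (T : Type) [Group T] (hT : S T) (m : ℕ) : CompIn S (Fin m → T) := by
  induction m with
  | zero => exact CompIn.one _ inferInstance
  | succ m ih =>
    refine Pool.Agent.Y419.DC.ext' hiso (Pi.evalMonoidHom (fun _ : Fin (m + 1) => T) 0)
      (fun t => ⟨fun _ => t, rfl⟩) ?_ hT
    let g : (Fin m → T) →* (Pi.evalMonoidHom (fun _ : Fin (m + 1) => T) 0).ker :=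
      { toFun := fun x => ⟨Fin.cons 1 x, by
          rw [MonoidHom.mem_ker]
          rfl⟩
        map_one' := by
          apply Subtype.ext
          funext i
          refine Fin.cases ?_ (fun j => ?_) i
          · rfl
          · rfl
        map_mul' := fun x y => by
          apply Subtype.ext
          funext i
          refine Fin.cases ?_ (fun j => ?_) i
          · exact (one_mul 1).symm
          · rfl }
    refine Pool.Agent.Y419.DC.quot hiso hsim ih _ g ?_
    rintro ⟨x, hx⟩
    refine ⟨fun j => x j.succ, ?_⟩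
    apply Subtype.ext
    funext i
    refine Fin.cases ?_ (fun j => ?_) i
    · exact (MonoidHom.mem_ker.1 hx).symm
    · rfl

theorem goodG_pow {T : Type} [Group T] (hT : FacA p T) (m : ℕ) {G : Type} [Group G] [Finite G]
    (N : Subgroup G) [N.Normal] (e : N ≃* (Fin m → T)) (hB : GoodG p (G ⧸ N)) : GoodG p G := by
  refine goodG_kernel N ?_ hB
  exact Pool.Agent.Y419.DC.quot (fun T T' _ _ h h' => FacA.iso p T T' h h')
    (fun T _ h => FacA.simple p T h)
    (compIn_pow (fun T T' _ _ h h' => FacA.iso p T T' h h') (fun T _ h => FacA.simple p T h) T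
      hT m) N e.symm.toMonoidHom e.symm.surjective

/-- **The outcome over `κ(X)`.** -/
theorem GoodG.regSol {G : Type} [Group G] (h : GoodG p G) (K : Type) [Field K] [CharP K p] :
    RegSol K K G 1 := by
  have hfin := h.1
  have h1 : ∀ σ : K ≃ₐ[K] K, σ = 1 := fun σ => AlgEquiv.ext fun x => σ.commutes x
  let ε : (K ≃ₐ[K] K) ≃* Unit :=
    { toFun := fun _ => 1
      invFun := fun _ => 1
      left_inv := fun σ => (h1 σ).symm
      right_inv := fun _ => rfl
      map_mul' := fun _ _ => rfl }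
  exact (h.2 K).all K ε

theorem GoodG.regular {G : Type} [Group G] (h : GoodG p G) (K : Type) [Field K] [CharP K p] :
    OccursRegularly K G := by
  obtain ⟨F, i1, i2, i3, i4, i5, i6, i7, i8, γ, h1, hreg⟩ := h.regSol K
  have h34 : i4 = i3 := Algebra.algebra_ext i4 i3 (fun x =>
    @IsScalarTower.algebraMap_apply K K F _ _ _ _ i3 i4 i6 x)
  subst h34
  exact ⟨F, i1, i2, i4, i5, i7, i8, ⟨γ⟩, hreg⟩

theorem GoodG.occurs {G : Type} [Group G] (h : GoodG p G) (κ : Type) [Field κ] [Finite κ]
    [CharP κ p] : Occurs (RatFunc κ) G := by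
  have hfin := h.1
  have := Pool.Agent.Y60.DC.charP_ratFunc κ p
  obtain ⟨F, i1, i2, i3, i4, i5, i6, i7, i8, γ, hγ, -⟩ := h.regSol (RatFunc κ)
  obtain ⟨F, j1, j2, -, -, j5, j6, γ, -⟩ := Pool.Agent.TH377.IG.spec_ratFunc κ (RatFunc κ) G 1
    ⟨F, i1, i2, i3, i4, i5, i6, i7, i8, γ, hγ⟩
  exact ⟨F, j1, j2, j5, j6, ⟨γ⟩⟩

end closure

/-- Simple groups without covers of order dividing `c`. -/
def TyA (p c : ℕ) [Fact p.Prime] (T : Type) [Group T] : Prop :=
  Finite T ∧ commutator T = ⊤ ∧ FacA p T ∧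
    ∀ (M : Type) [Group M] [Finite M] (f : M →* T), Function.Surjective f →
      f.ker ≤ Subgroup.center M → Nat.card f.ker ∣ c → ∃ s : T →* M, ∀ t, f (s t) = t

/-- Simple groups with a cover. -/
def TyB (p c : ℕ) (T : Type) [Group T] : Prop :=
  Finite T ∧ Subgroup.center T = ⊥ ∧ Indec T ∧ Nontrivial T ∧
    (∃ A : Subgroup (MulAut T), IsCompl A (MulAut.conj : T →* MulAut T).range) ∧
    ∃ (C : ℕ → Prop) (T' : Type) (_ : Group T') (ρ : T' →* T), Finite T' ∧ IsCov C ρ ∧
      (∀ a b, a ∣ b → C b → C a) ∧ C c ∧ LocP p T'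

section caseA

variable {p : ℕ} [hp : Fact p.Prime] {c : ℕ} {G Γ : Type} [Group G] [Finite G] [Group Γ]
  [Finite Γ] (α : G →* Γ) (hα : Function.Surjective α) (hc : α.ker ≤ Subgroup.center G)
  (M : Subgroup Γ) [hMn : M.Normal] {T : Type} [Group T] {m : ℕ} (e : M ≃* (Fin m → T))

include hα hc e in
theorem case_A (hk : Nat.card α.ker ∣ c) (hT : TyA p c T) :
    ∃ N : Subgroup G, ∃ _ : N.Normal, Nonempty (N ≃* (Fin m → T)) ∧ (∀ x ∈ N, α x ∈ M) ∧
      ∀ ν, α ν ∈ M → ∃ x ∈ N, ∃ z ∈ α.ker, ν = x * z := by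
  obtain ⟨hfin, hperf, hfac, hlift⟩ := hT
  have hcov : IsCov (fun d => d ∣ c) (MonoidHom.id T) :=
    { surj := fun t => ⟨t, rfl⟩
      perf := hperf
      cen := by
        intro x hx
        have h1 : x = 1 := hx
        rw [h1]
        exact one_mem _
      ker := by
        have h1 : (MonoidHom.id T).ker = ⊥ := by
          ext x
          rw [MonoidHom.mem_ker, Subgroup.mem_bot]
          rfl
        rw [h1, Subgroup.card_bot]
        exact one_dvd c
      lift := hlift }
  let N : Subgroup G := M.comap α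
  let f : N →* (Fin m → T) :=
    e.toMonoidHom.comp ((α.comp N.subtype).codRestrict M (fun x => x.2))
  have hf : ∀ x : N, f x = e ⟨α x, x.2⟩ := fun x => rfl
  have hfs : Function.Surjective f := by
    intro y
    obtain ⟨g, hg⟩ := hα (e.symm y : M)
    have hgM : α g ∈ M := by
      rw [hg]
      exact (e.symm y).2
    refine ⟨⟨g, hgM⟩, ?_⟩
    rw [hf]
    have h3 : (⟨α g, hgM⟩ : M) = e.symm y := Subtype.ext hg
    change e ⟨α g, hgM⟩ = y
    rw [h3, MulEquiv.apply_symm_apply]
  have hfk : ∀ x : N, x ∈ f.ker → α x = 1 := by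
    intro x hx
    rw [MonoidHom.mem_ker, hf] at hx
    exact congrArg Subtype.val ((map_eq_one_iff e e.injective).1 hx)
  have hfc : f.ker ≤ Subgroup.center N := by
    intro x hx
    rw [Subgroup.mem_center_iff]
    intro y
    exact Subtype.ext (Subgroup.mem_center_iff.1 (hc (hfk x hx)) y)
  let τ : f.ker →* α.ker := (N.subtype.comp f.ker.subtype).codRestrict α.ker fun x => hfk x x.2
  have hτ : Function.Injective τ := by
    intro x y hxy
    exact Subtype.ext (Subtype.ext (congrArg (fun t : α.ker => (t : G)) hxy))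
  obtain ⟨Φ, hΦ⟩ := hcov.exists_pow (fun a b hab hb => hab.trans hb) f hfs hfc
    ((Subgroup.card_dvd_of_injective τ hτ).trans hk)
  have hΦ' : ∀ x, f (Φ x) = x := fun x => funext fun i => hΦ x i
  have hΦa : ∀ x, α (Φ x) = (e.symm x : M) := by
    intro x
    have h3 : e ⟨α (Φ x), (Φ x).2⟩ = x := hΦ' x
    have h4 := congrArg e.symm h3
    rw [MulEquiv.symm_apply_apply] at h4
    rw [← h4]
  let Ψ : (Fin m → T) →* G := N.subtype.comp Φ
  have hΨ : Function.Injective Ψ := by
    intro x y hxy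
    have h1 : Φ x = Φ y := Subtype.ext hxy
    rw [← hΦ' x, h1, hΦ']
  -- conjugation
  have hconj : ∀ (g : G) (x : Fin m → T), g * Ψ x * g⁻¹ = Ψ (cT α M e g x) := by
    intro g x
    have h1 : (MulAut.conj g).toMonoidHom.comp Ψ = Ψ.comp (cT α M e g).toMonoidHom := by
      refine pi_hom_eq hperf _ _ fun a => hc ?_
      rw [MonoidHom.mem_ker]
      change α ((g * (Φ a : G) * g⁻¹)⁻¹ * (Φ (cT α M e g a) : G)) = 1
      rw [map_mul, map_inv, inv_mul_eq_one, map_mul, map_mul, map_inv, hΦa, hΦa]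
      have h3 := cT_apply α M e g (e.symm a)
      rw [MulEquiv.apply_symm_apply] at h3
      rw [h3, MulEquiv.symm_apply_apply]
    exact DFunLike.congr_fun h1 x
  refine ⟨Ψ.range, ⟨?_⟩, ⟨(Ψ.ofInjective hΨ).symm⟩, ?_, ?_⟩
  · rintro _ ⟨x, rfl⟩ g
    rw [hconj]
    exact ⟨_, rfl⟩
  · rintro _ ⟨x, rfl⟩
    exact (Φ x).2
  · intro ν hν
    have h4 : (Φ (f ⟨ν, hν⟩))⁻¹ * ⟨ν, hν⟩ ∈ f.ker := by
      rw [MonoidHom.mem_ker, map_mul, map_inv, hΦ', inv_mul_cancel]
    exact ⟨Ψ (f ⟨ν, hν⟩), ⟨_, rfl⟩, (Φ (f ⟨ν, hν⟩) : G)⁻¹ * ν, hfk _ h4,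
      (mul_inv_cancel_left _ _).symm⟩

end caseA

section quotient

variable {G Γ : Type} [Group G] [Finite G] [Group Γ] [Finite Γ] (α : G →* Γ)
  (hα : Function.Surjective α) (hc : α.ker ≤ Subgroup.center G) (M : Subgroup Γ) [hMn : M.Normal]
  (N : Subgroup G) [hN : N.Normal] (h1 : ∀ x ∈ N, α x ∈ M)
  (h2 : ∀ ν, α ν ∈ M → ∃ x ∈ N, ∃ z ∈ α.ker, ν = x * z)

include hα hc h1 h2 in
theorem quot_data : ∃ β : G ⧸ N →* Γ ⧸ M,
    (∀ g : G, β (QuotientGroup.mk g) = QuotientGroup.mk (α g)) ∧ Function.Surjective β ∧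
    β.ker ≤ Subgroup.center (G ⧸ N) ∧ Nat.card β.ker ∣ Nat.card α.ker := by
  let β : G ⧸ N →* Γ ⧸ M := QuotientGroup.map N M α (by
    intro x hx
    exact h1 x hx)
  have hβ : ∀ g : G, β (QuotientGroup.mk g) = QuotientGroup.mk (α g) := fun g => rfl
  have hβk : ∀ x ∈ β.ker, ∃ z ∈ α.ker, (QuotientGroup.mk z : G ⧸ N) = x := by
    intro x hx
    obtain ⟨g, rfl⟩ := QuotientGroup.mk_surjective x
    rw [MonoidHom.mem_ker, hβ, QuotientGroup.eq_one_iff] at hx
    obtain ⟨y, hy, z, hz, rfl⟩ := h2 g hx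
    refine ⟨z, hz, ?_⟩
    rw [QuotientGroup.mk_mul, (QuotientGroup.eq_one_iff y).2 hy, one_mul]
  refine ⟨β, hβ, ?_, ?_, ?_⟩
  · intro y
    obtain ⟨y', rfl⟩ := QuotientGroup.mk_surjective y
    obtain ⟨g, rfl⟩ := hα y'
    exact ⟨QuotientGroup.mk g, rfl⟩
  · intro x hx
    obtain ⟨z, hz, rfl⟩ := hβk x hx
    rw [Subgroup.mem_center_iff]
    intro y
    obtain ⟨g, rfl⟩ := QuotientGroup.mk_surjective y
    rw [← QuotientGroup.mk_mul, ← QuotientGroup.mk_mul, Subgroup.mem_center_iff.1 (hc hz) g]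
  · let ρ : α.ker →* β.ker :=
      ((QuotientGroup.mk' N).comp α.ker.subtype).codRestrict β.ker fun x => by
        rw [MonoidHom.mem_ker]
        change (QuotientGroup.mk (α x) : Γ ⧸ M) = 1
        rw [show α x = 1 from x.2]
        rfl
    have hρ : Function.Surjective ρ := by
      intro x
      obtain ⟨z, hz, hzx⟩ := hβk x x.2
      exact ⟨⟨z, hz⟩, Subtype.ext hzx⟩
    exact Subgroup.card_dvd_of_surjective ρ hρ

end quotient

/-- Central kernels of order prime to the order of the quotient. -/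
theorem rsk_coprime {p : ℕ} [Fact p.Prime] {G W : Type} [Group G] [Finite G] [Group W] [Finite W]
    (π : G →* W) (hs : Function.Surjective π) (hc : π.ker ≤ Subgroup.center G)
    (hcop : Nat.Coprime (Nat.card π.ker) (Nat.card W)) (K : Type) [Field K] [CharP K p] :
    RSK K π := by
  have hidx : π.ker.index = Nat.card W := by
    rw [Subgroup.index_ker, MonoidHom.range_eq_top.2 hs, Subgroup.card_top]
  obtain ⟨H, hH⟩ := Subgroup.exists_right_complement'_of_coprime (N := π.ker) (by rwa [hidx])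
  have hbij : Function.Bijective (π.comp H.subtype) := by
    constructor
    · rw [injective_iff_map_eq_one]
      intro x hx
      have h1 : (x : G) ∈ π.ker ⊓ H := ⟨hx, x.2⟩
      rw [hH.disjoint.eq_bot] at h1
      exact Subtype.ext h1
    · intro w
      obtain ⟨g, rfl⟩ := hs w
      have h1 : g ∈ π.ker ⊔ H := by
        rw [hH.sup_eq_top]
        exact Subgroup.mem_top g
      obtain ⟨z, hz, h, hh, rfl⟩ := Subgroup.mem_sup_of_normal_left.1 h1
      refine ⟨⟨h, hh⟩, ?_⟩
      change π h = π (z * h)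
      rw [map_mul, show π z = 1 from hz, one_mul]
  let e := MulEquiv.ofBijective _ hbij
  have hstep : Pool.Agent.K7.H53.MA.Step p π := by
    refine ⟨hs, inferInstance, Or.inr ⟨⟨H.subtype.comp e.symm.toMonoidHom, fun w => ?_⟩, ?_⟩⟩
    · exact e.apply_symm_apply w
    · intro x y hx hy
      exact (Subgroup.mem_center_iff.1 (hc (show x ∈ π.ker from hx)) y).symm
  exact ((hstep.toA p K).main p inferInstance).2

theorem rsk_step {p : ℕ} [Fact p.Prime] {G W : Type} [Group G] [Group W] [Finite W]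
    (π : G →* W) (hs : Pool.Agent.K7.H53.MA.Step p π) (K : Type) [Field K] [CharP K p] :
    RSK K π := ((hs.toA p K).main p inferInstance).2

theorem step_pgroup {p : ℕ} [Fact p.Prime] {G : Type} [Group G] [Finite G] (P : Subgroup G)
    [P.Normal] (hP : IsPGroup p P) : Pool.Agent.K7.H53.MA.Step p (QuotientGroup.mk' P) := by
  refine ⟨QuotientGroup.mk'_surjective P, inferInstance, Or.inl ?_⟩
  rw [QuotientGroup.ker_mk']
  obtain ⟨k, hk⟩ := IsPGroup.iff_card.1 hP
  exact compIn_pgroup p (fun T _ => Pool.Agent.K7.H53.MA.FactorA p T)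
    (fun T _ hT => Or.inr (Or.inl hT)) k P hk

/-- **The induction.** -/
theorem main_rel (p : ℕ) [hp' : Fact p.Prime] (c : ℕ) (S : ∀ (T : Type) [Group T], Prop)
    (hiso : ∀ (T T' : Type) [Group T] [Group T'], Nonempty (T ≃* T') → S T → S T')
    (hsim : ∀ (T : Type) [Group T], S T → IsSimpleGroup T)
    (hS : ∀ (T : Type) [Group T], S T → Nat.card T = p ∨ ∃ (T₁ : Type) (_ : Group T₁),
      Nonempty (T ≃* T₁) ∧ (TyA p c T₁ ∨ TyB p c T₁))
    (W W₀ : Type) [Group W] [Finite W] [Group W₀] (ω : W →* W₀) (K : Type) [Field K]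
    [CharP K p]
    (hbase : ∀ (H : Type) [Group H] [Finite H] (τ : H →* W), Function.Surjective τ →
      τ.ker ≤ Subgroup.center H → Nat.card τ.ker ∣ c → RSK K (ω.comp τ)) (d : ℕ) :
    ∀ (G Γ : Type) [Group G] [Finite G] [Group Γ] [Finite Γ] (α : G →* Γ) (β : Γ →* W),
      Nat.card Γ ≤ d → Function.Surjective α → Function.Surjective β →
      α.ker ≤ Subgroup.center G → CompIn S β.ker → Nat.card α.ker ∣ c →
      RSK K ((ω.comp β).comp α) := by
  induction d with
  | zero =>
    intro G Γ _ _ _ _ α β h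
    have := Nat.card_pos (α := Γ)
    omega
  | succ d ih =>
    intro G Γ _ _ _ _ α β hcard hα hβ hc hΓ hb
    by_cases htriv : β.ker = ⊥
    · have hker : (β.comp α).ker = α.ker := by
        ext x
        rw [MonoidHom.mem_ker, MonoidHom.mem_ker, MonoidHom.comp_apply,
          ← MonoidHom.mem_ker (f := β), htriv, Subgroup.mem_bot]
      exact hbase G (β.comp α) (hβ.comp hα) (by rwa [hker]) (by rwa [hker])
    obtain ⟨M, hMn, hMN, hMb, ⟨T, iT, m, hT, ⟨e⟩⟩, hcomp⟩ := Pool.Agent.Y419.DC.cf_holds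
      S hiso hsim Γ β.ker htriv hΓ
    let β' : Γ ⧸ M →* W := QuotientGroup.lift M β hMN
    have hβ' : Function.Surjective β' := by
      intro w
      obtain ⟨γ, rfl⟩ := hβ w
      exact ⟨QuotientGroup.mk γ, rfl⟩
    have hcompQ : CompIn S β'.ker := by
      have h1 : β'.ker = β.ker.map (QuotientGroup.mk' M) := by
        ext x
        constructor
        · intro hx
          obtain ⟨γ, rfl⟩ := QuotientGroup.mk_surjective x
          exact ⟨γ, hx, rfl⟩
        · rintro ⟨γ, hγ, rfl⟩
          exact hγ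
      rw [h1]
      exact hcomp
    have hcardQ : Nat.card (Γ ⧸ M) ≤ d := by
      have h1 : 1 < Nat.card M := (Subgroup.one_lt_card_iff_ne_bot M).2 hMb
      have h2 := Subgroup.card_eq_card_quotient_mul_card_subgroup M
      have h3 : 0 < Nat.card (Γ ⧸ M) := Nat.card_pos
      have h4 : Nat.card (Γ ⧸ M) < Nat.card Γ := by
        rw [h2]
        exact lt_mul_of_one_lt_right h3 h1
      omega
    rcases hS T hT with hT | ⟨T₁, iT₁, ⟨eT⟩, hT | hT⟩
    · -- the case of a `p`-group
      have hM : IsPGroup p M := by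
        refine IsPGroup.of_card (n := m) ?_
        rw [Nat.card_congr e.toEquiv, Nat.card_fun, hT, Nat.card_fin]
      obtain ⟨P, hPn, hPp, hPM, hPN⟩ := p_case α hα hc M hM
      obtain ⟨β₁, hβ0, hβ1, hβ2, hβ3⟩ := quot_data α hα hc M P hPM hPN
      have h1 := ih (G ⧸ P) (Γ ⧸ M) β₁ β' hcardQ hβ1 hβ' hβ2 hcompQ (hβ3.trans hb)
      have h2 : (ω.comp β).comp α = ((ω.comp β').comp β₁).comp (QuotientGroup.mk' P) := by
        apply MonoidHom.ext
        intro x
        change ω (β (α x)) = ω (β' (β₁ (QuotientGroup.mk x)))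
        rw [hβ0]
        rfl
      rw [h2]
      exact RSK.comp h1 (rsk_step _ (step_pgroup P hPp) K)
    · let e₁ : M ≃* (Fin m → T₁) := e.trans (MulEquiv.piCongrRight fun _ => eT)
      obtain ⟨N, hNn, ⟨e'⟩, hNM, hNN⟩ := case_A α hα hc M e₁ hb hT
      obtain ⟨β₁, hβ0, hβ1, hβ2, hβ3⟩ := quot_data α hα hc M N hNM hNN
      have h1 := ih (G ⧸ N) (Γ ⧸ M) β₁ β' hcardQ hβ1 hβ' hβ2 hcompQ (hβ3.trans hb)
      have h2 : (ω.comp β).comp α = ((ω.comp β').comp β₁).comp (QuotientGroup.mk' N) := by
        apply MonoidHom.ext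
        intro x
        change ω (β (α x)) = ω (β' (β₁ (QuotientGroup.mk x)))
        rw [hβ0]
        rfl
      rw [h2]
      refine RSK.comp h1 (rsk_kernel (p := p) _ (QuotientGroup.mk'_surjective N) ?_ K)
      rw [QuotientGroup.ker_mk']
      exact Pool.Agent.Y419.DC.quot (fun T T' _ _ h h' => FacA.iso p T T' h h')
        (fun T _ h => FacA.simple p T h)
        (compIn_pow (fun T T' _ _ h h' => FacA.iso p T T' h h') (fun T _ h => FacA.simple p T h) T₁
          hT.2.2.1 m) N e'.symm.toMonoidHom e'.symm.surjective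
    · -- the case of a cover
      let e₁ : M ≃* (Fin m → T₁) := e.trans (MulEquiv.piCongrRight fun _ => eT)
      obtain ⟨hfin, hcen, hI, hN, hcompl, C, T', iT', ρ, hT', hcov, hCd, hCc, hloc⟩ := hT
      have hIn : ((MulAut.conj : T₁ →* MulAut T₁).range).Normal := by
        constructor
        rintro _ ⟨t, rfl⟩ a
        refine ⟨a t, ?_⟩
        apply MulEquiv.ext
        intro x
        change a t * x * (a t)⁻¹ = a (t * a⁻¹ x * t⁻¹)
        rw [map_mul, map_mul, map_inv, MulAut.apply_inv_self]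
      obtain ⟨ε, hε2, hε1, hε3⟩ := exists_ret ((MulAut.conj : T₁ →* MulAut T₁).range) hcompl
      obtain ⟨Y, iY, fY, q, r, hq, hr, hqr⟩ :=
        of_HT α M hI hN e₁ ε hcov hCd hε2 hε3 hα hc (hCd _ _ hb hCc)
      let H := HT α M hI hN e₁ ε
      let α' : H →* Γ ⧸ M := (QuotientGroup.mk' M).comp (α.comp H.subtype)
      have hαk : ∀ h : H, h ∈ α'.ker → (h : G) ∈ α.ker := by
        intro h hh
        exact HT_inf α M hI hN e₁ ε hcen hε1 h h.2 ((QuotientGroup.eq_one_iff (α h)).1 hh)
      have h1 : RSK K ((ω.comp β').comp α') := by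
        refine ih H (Γ ⧸ M) α' β' hcardQ ?_ hβ' ?_ hcompQ ?_
        · intro y
          obtain ⟨y', rfl⟩ := QuotientGroup.mk_surjective y
          obtain ⟨g, rfl⟩ := hα y'
          obtain ⟨ν, hν, h, hh, rfl⟩ := HT_sup α M hI hN e₁ ε hε2 hε3 hα g
          refine ⟨⟨h, hh⟩, ?_⟩
          change (QuotientGroup.mk (α h) : Γ ⧸ M) = QuotientGroup.mk (α (ν * h))
          rw [map_mul, QuotientGroup.mk_mul, (QuotientGroup.eq_one_iff (α ν)).2 hν, one_mul]
        · intro x hx
          rw [Subgroup.mem_center_iff]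
          intro y
          exact Subtype.ext (Subgroup.mem_center_iff.1 (hc (hαk x hx)) y)
        · refine Dvd.dvd.trans ?_ hb
          let ρ : α'.ker →* α.ker :=
            (H.subtype.comp α'.ker.subtype).codRestrict α.ker fun x => hαk x x.2
          have hρ : Function.Injective ρ := by
            intro x y hxy
            exact Subtype.ext (Subtype.ext (congrArg (fun t : α.ker => (t : G)) hxy))
          exact Subgroup.card_dvd_of_injective ρ hρ
      have h2 : RSK K (((ω.comp β').comp α').comp r) :=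
        RSK.comp h1 (autPower_rsk p K T' hloc r hr)
      refine RSK.quot q hq (fun x => ?_) h2
      obtain ⟨ν, hν, hx⟩ := hqr x
      rw [hx]
      change ω (β (α (ν * r x))) = ω (β (α (r x)))
      rw [map_mul, map_mul, show β (α ν) = 1 from hMN hν, one_mul]

/-- Nilpotent groups of class two. -/
theorem goodG_class_two {p : ℕ} [Fact p.Prime] (d : ℕ) : ∀ (H : Type) [Group H] [Finite H],
    Nat.card H ≤ d → (∀ a b : H, ⁅a, b⁆ ∈ Subgroup.center H) → GoodG p H := by
  induction d with
  | zero =>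
    intro H _ _ h
    have := Nat.card_pos (α := H)
    omega
  | succ d ih =>
    intro H _ _ hcard hcomm
    by_cases hab : ∀ x y : H, x * y = y * x
    · exact goodG_abelian hab
    have hnt : Nontrivial H := by
      by_contra hn
      rw [not_nontrivial_iff_subsingleton] at hn
      exact hab fun x y => Subsingleton.elim _ _
    obtain ⟨L, hL⟩ := IsCoatomic.exists_coatom (α := Subgroup H)
    obtain ⟨x, hx⟩ : ∃ x, x ∉ L := by
      by_contra hcon
      push Not at hcon
      exact hL.1 ((Subgroup.eq_top_iff' L).2 hcon)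
    let A : Subgroup H := Subgroup.zpowers x ⊔ Subgroup.center H
    have hxA : x ∈ A := Subgroup.mem_sup_left (Subgroup.mem_zpowers x)
    have hform : ∀ a ∈ A, ∃ (k : ℤ) (z : H), z ∈ Subgroup.center H ∧ a = x ^ k * z := by
      intro a ha
      obtain ⟨y, ⟨k, rfl⟩, z, hz, rfl⟩ := Subgroup.mem_sup_of_normal_right.1 ha
      exact ⟨k, z, hz, rfl⟩
    have hAc : ∀ a ∈ A, ∀ b ∈ A, a * b = b * a := by
      intro a ha b hb
      obtain ⟨k, z, hz, rfl⟩ := hform a ha
      obtain ⟨l, y, hy, rfl⟩ := hform b hb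
      have c1 := Subgroup.mem_center_iff.1 hz
      have c2 := Subgroup.mem_center_iff.1 hy
      have h1 : Commute (x ^ k) (x ^ l) := (Commute.refl x).zpow_zpow k l
      have h2 : Commute z (x ^ l * y) := (c1 (x ^ l * y)).symm
      have h3 : Commute (x ^ k) y := c2 (x ^ k)
      exact (Commute.mul_left (h1.mul_right h3) h2).eq
    have hAn : A.Normal := ⟨fun a ha g => by
      have h1 : g * a * g⁻¹ = ⁅g, a⁆ * a := by
        rw [commutatorElement_def]
        group
      rw [h1]
      exact mul_mem (Subgroup.mem_sup_right (hcomm g a)) ha⟩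
    have hAL : A ⊔ L = ⊤ := by
      refine hL.2 _ (lt_of_le_of_ne le_sup_right ?_)
      intro h
      apply hx
      rw [h]
      exact Subgroup.mem_sup_left hxA
    have hLgood : GoodG p L := by
      refine ih L ?_ ?_
      · have h1 : Nat.card L < Nat.card H := by
          refine lt_of_le_of_ne (Subgroup.card_le_card_group L) fun h => ?_
          exact hL.1 (Subgroup.eq_top_of_card_eq L h)
        omega
      · intro a b
        rw [Subgroup.mem_center_iff]
        intro y
        exact Subtype.ext (Subgroup.mem_center_iff.1 (hcomm (a : H) b) y)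
    let act : L →* MulAut A := (MulAut.conjNormal (H := A)).comp L.subtype
    have hact : ∀ (l : L) (a : A), (act l a : H) = l * a * (l : H)⁻¹ := fun l a =>
      MulAut.conjNormal_apply (l : H) a
    let q : (A ⋊[act] L) →* H := SemidirectProduct.lift A.subtype L.subtype (fun l => by
      apply MonoidHom.ext
      intro a
      exact hact l a)
    have hfin : Finite (A ⋊[act] L) := Finite.of_equiv _ SemidirectProduct.equivProd.symm
    refine GoodG.quot q ?_ (GoodG.ofStep (SemidirectProduct.rightHom : (A ⋊[act] L) →* L) ?_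
      hLgood)
    · intro h
      have h1 : h ∈ A ⊔ L := by
        rw [hAL]
        exact Subgroup.mem_top h
      obtain ⟨a, ha, l, hl, rfl⟩ := Subgroup.mem_sup_of_normal_left.1 h1
      exact ⟨⟨⟨a, ha⟩, ⟨l, hl⟩⟩, rfl⟩
    · refine ⟨SemidirectProduct.rightHom_surjective, inferInstance, Or.inr ⟨⟨SemidirectProduct.inr,
        fun w => SemidirectProduct.rightHom_inr w⟩, ?_⟩⟩
      intro a b ha hb
      have ha' : a.right = 1 := ha
      have hb' : b.right = 1 := hb
      refine SemidirectProduct.ext ?_ ?_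
      · rw [SemidirectProduct.mul_left, SemidirectProduct.mul_left, ha', hb', map_one,
          MulAut.one_apply, MulAut.one_apply]
        exact Subtype.ext (hAc _ a.left.2 _ b.left.2)
      · rw [SemidirectProduct.mul_right, SemidirectProduct.mul_right, ha', hb']

end Pool.Agent.K7.H53.CE
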