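import Pool.Agent.K7.H53.CE.Univ

/-!
# Homomorphisms from the double cover
-/

set_option autoImplicit false
set_option linter.unusedSectionVars false
set_option linter.unusedVariables false

open Equiv

namespace Pool.Agent.K7.H53.CE

open Pool.Agent.K7.H53.DB

section ta

variable {n : ℕ} {F : Type} [Field F]

theorem card_ker_rh (h2 : (2 : F) ≠ 0) : Nat.card (rh n F).ker = 2 := by
  have h3 : ((rh n F).ker : Set (TA n F)) = {1, neg1 n} := by
    ext w
    exact ker_rh n h2 w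
  have h4 : Nat.card (rh n F).ker = Set.ncard ({1, neg1 n} : Set (TA n F)) := by
    rw [← h3]
    rfl
  rw [h4]
  exact Set.ncard_pair (neg1_ne n h2).symm

theorem card_TA (h2 : (2 : F) ≠ 0) (h5 : 5 ≤ n) : Nat.card (TA n F) = n.factorial := by
  have : Nontrivial (Fin n) := Fin.nontrivial_iff_two_le.2 (by omega)
  rw [card_ker_range (rh n F), card_ker_rh h2, MonoidHom.range_eq_top.2 (rh_surj n h2),
    Subgroup.card_top, two_mul_nat_card_alternatingGroup, Nat.card_perm, Nat.card_eq_fintype_card,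
    Fintype.card_fin]

theorem ker_le (h2 : (2 : F) ≠ 0) (h5 : 5 ≤ n) : (rh n F).ker ≤ Subgroup.center (TA n F) :=
  fun w hw => (center_TA n h2 h5 w).2 hw

theorem top_of_xs (h2 : (2 : F) ≠ 0) (h5 : 5 ≤ n) {a b : Fin n} (hab : a ≠ b)
    (D : Subgroup (TA n F)) (y : Fin n → TA n F)
    (hy : ∀ i ∈ sab a b, y i ∈ D ∧ (rh n F (y i) : Perm (Fin n)) = xs a b i) : D = ⊤ := by
  have h1 : ∀ g : alternatingGroup (Fin n), ∃ d ∈ D, rh n F d = g := by
    intro g
    have h3 := alt_le hab ((D.map (rh n F)).map (alternatingGroup (Fin n)).subtype) (by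
      intro i hi hi'
      obtain ⟨h4, h6⟩ := hy i (mem_sab.2 ⟨hi, hi'⟩)
      exact ⟨rh n F (y i), ⟨y i, h4, rfl⟩, h6⟩)
    obtain ⟨g', ⟨d, hd, hd'⟩, hg'⟩ := h3 g.2
    refine ⟨d, hd, ?_⟩
    rw [hd']
    exact Subtype.ext hg'
  have h6 : (neg1 n : TA n F) ∈ D := by
    obtain ⟨w, hw⟩ := exists_sq n (F := F) h2 (by omega)
    obtain ⟨v, hv, h7⟩ := h1 (rh n F w)
    have h8 : v * v = neg1 n := by
      rcases eq_or_neg n h2 v w h7 with h | h
      · rw [h, hw]
      · rw [h, mul_assoc, ← mul_assoc w, neg1_comm, mul_assoc, ← mul_assoc, neg1_sq, one_mul, hw]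
    rw [← h8]
    exact mul_mem hv hv
  rw [eq_top_iff]
  intro w _
  obtain ⟨v, hv, h7⟩ := h1 (rh n F w)
  rcases eq_or_neg n h2 w v h7.symm with h | h
  · rw [h]
    exact hv
  · rw [h]
    exact mul_mem h6 hv

end ta

section hom

variable {n : ℕ} {M : Type} [Group M] [Finite M] (f : M →* alternatingGroup (Fin n))
    (hs : Function.Surjective f) (hc : f.ker ≤ Subgroup.center M) (h3 : ¬ 3 ∣ Nat.card f.ker)

include hs hc h3 in
/-- **Homomorphisms from the double cover.** -/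
theorem exists_hom (h5 : 5 ≤ n) (F : Type) [Field F] (h2 : (2 : F) ≠ 0) :
    ∃ φ : TA n F →* M, ∀ t, f (φ t) = rh n F t := by
  let a : Fin n := ⟨0, by omega⟩
  let b : Fin n := ⟨1, by omega⟩
  let i0 : Fin n := ⟨2, by omega⟩
  let j0 : Fin n := ⟨3, by omega⟩
  have hab : a ≠ b := by simp [a, b, Fin.ext_iff]
  have hi0 : i0 ∈ sab a b := mem_sab.2 ⟨by simp [a, i0, Fin.ext_iff], by simp [b, i0, Fin.ext_iff]⟩
  have hj0 : j0 ∈ sab a b := mem_sab.2 ⟨by simp [a, j0, Fin.ext_iff], by simp [b, j0, Fin.ext_iff]⟩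
  have hij0 : i0 ≠ j0 := by simp [i0, j0, Fin.ext_iff]
  have hfin : Finite (TA n F) := finite_TA n h2
  obtain ⟨yT, zT, hT1, hT2, hT3, hT4⟩ := exists_rel (rh n F) (rh_surj n h2) (ker_le h2 h5)
    (by rw [card_ker_rh h2]; norm_num) hab hi0 hj0 hij0
  obtain ⟨yM, zM, hM1, hM2, hM3, hM4⟩ := exists_rel f hs hc h3 hab hi0 hj0 hij0
  let D : Subgroup (TA n F × M) :=
    Subgroup.closure ((fun i => (yT i, yM i)) '' (sab a b : Set (Fin n)))
  have hz : ((zT, zM) : TA n F × M) * (zT, zM) = 1 := Prod.ext hT2 hM2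
  have hzc : ((zT, zM) : TA n F × M) ∈ Subgroup.center (TA n F × M) := by
    rw [Subgroup.mem_center_iff]
    rintro ⟨x, y⟩
    exact Prod.ext (Subgroup.mem_center_iff.1 (ker_le h2 h5 hT1) x)
      (Subgroup.mem_center_iff.1 (hc hM1) y)
  have hD : Nat.card D ≤ n.factorial := by
    refine card_bound hab (fun i => (yT i, yM i)) (zT, zM) hz hzc ?_ ?_
    · intro i hi
      exact Prod.ext (hT3 i hi).2 (hM3 i hi).2
    · intro i hi j hj hij
      exact Prod.ext (hT4 i hi j hj hij) (hM4 i hi j hj hij)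
  let g1 : D →* TA n F := (MonoidHom.fst (TA n F) M).comp D.subtype
  have hsurj : Function.Surjective g1 := by
    rw [← MonoidHom.range_eq_top]
    refine top_of_xs h2 h5 hab g1.range yT fun i hi => ⟨?_, (hT3 i hi).1⟩
    exact ⟨⟨(yT i, yM i), Subgroup.subset_closure ⟨i, hi, rfl⟩⟩, rfl⟩
  have hbij : Function.Bijective g1 :=
    Function.Surjective.bijective_of_nat_card_le hsurj (by rw [card_TA h2 h5]; exact hD)
  let E := MulEquiv.ofBijective g1 hbij
  have hloc : D ≤ MonoidHom.eqLocus ((rh n F).comp (MonoidHom.fst (TA n F) M))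
      (f.comp (MonoidHom.snd (TA n F) M)) := by
    rw [Subgroup.closure_le]
    rintro _ ⟨i, hi, rfl⟩
    apply Subtype.ext
    exact (hT3 i hi).1.trans (hM3 i hi).1.symm
  refine ⟨((MonoidHom.snd (TA n F) M).comp D.subtype).comp (E.symm : TA n F →* D), fun t => ?_⟩
  have h4 : f ((E.symm t : D) : TA n F × M).2 = rh n F ((E.symm t : D) : TA n F × M).1 :=
    (hloc (E.symm t).2).symm
  have h6 : ((E.symm t : D) : TA n F × M).1 = t := E.apply_symm_apply t
  rw [h6] at h4
  exact h4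

end hom

end Pool.Agent.K7.H53.CE
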