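import Pool.Agent.K7.H53.CE.Hom

/-!
# Perfect central extensions of `A_n`, `n = 5` or `n ≥ 8`, with a kernel of odd order
-/

set_option autoImplicit false
set_option linter.unusedSectionVars false
set_option linter.unusedVariables false

open Equiv
open scoped commutatorElement

namespace Pool.Agent.K7.H53.CE

section lift

variable {n : ℕ} {M : Type} [Group M] [Finite M] (f : M →* alternatingGroup (Fin n))
    (hs : Function.Surjective f) (hc : f.ker ≤ Subgroup.center M) (h2 : ¬ 2 ∣ Nat.card f.ker)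

include hc h2 in
theorem sq_one {z : M} (hz : z ∈ f.ker) (h : z * z = 1) : z = 1 := by
  have h7 : orderOf (⟨z, hz⟩ : f.ker) ∣ 2 := orderOf_dvd_of_pow_eq_one (Subtype.ext (by
    change z ^ 2 = 1
    rw [pow_two, h]))
  have h8 : orderOf (⟨z, hz⟩ : f.ker) ∣ Nat.card f.ker := orderOf_dvd_natCard _
  rcases (Nat.dvd_prime Nat.prime_two).1 h7 with h9 | h9
  · exact congrArg Subtype.val (orderOf_eq_one_iff.1 h9)
  · rw [h9] at h8
    exact absurd h8 h2

include hc h2 in
theorem sq_unique {y y' : M} (h : f y = f y') (hy : y ^ 2 = 1) (hy' : y' ^ 2 = 1) : y = y' := by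
  have h1 : y⁻¹ * y' ∈ f.ker := by
    rw [MonoidHom.mem_ker, map_mul, map_inv, h, inv_mul_cancel]
  have h3 : Commute y (y⁻¹ * y') := (Subgroup.mem_center_iff.1 (hc h1) y)
  have h4 : (y⁻¹ * y') ^ 2 = 1 := by
    have h5 := h3.mul_pow 2
    rw [mul_inv_cancel_left, hy, hy', one_mul] at h5
    exact h5.symm
  exact (inv_mul_eq_one.1 (sq_one f hc h2 h1 (by rw [← pow_two, h4])))

include hs hc h2 in
theorem sq_lift (g : alternatingGroup (Fin n)) :
    ∃ y : M, g ^ 2 = 1 → f y = g ∧ y ^ 2 = 1 := by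
  by_cases hg : g ^ 2 = 1
  swap
  · exact ⟨1, fun h => absurd h hg⟩
  obtain ⟨m, rfl⟩ := hs g
  have h1 : m ^ 2 ∈ f.ker := by rw [MonoidHom.mem_ker, map_pow, hg]
  have hcop : (Nat.card f.ker).Coprime 2 :=
    ((Nat.Prime.coprime_iff_not_dvd Nat.prime_two).2 h2).symm
  obtain ⟨z, hz⟩ := (powCoprime hcop).surjective ⟨m ^ 2, h1⟩
  have hz' : (z : M) ^ 2 = m ^ 2 := congrArg Subtype.val hz
  have h0 : Commute m (z : M) := Subgroup.mem_center_iff.1 (hc z.2) m
  have h3 : Commute m ((z : M)⁻¹) := h0.inv_right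
  refine ⟨m * (z : M)⁻¹, fun _ => ⟨?_, ?_⟩⟩
  · rw [map_mul, map_inv, z.2, inv_one, mul_one]
  · rw [h3.mul_pow, inv_pow, hz', mul_inv_cancel]

/-- the lifts of involutions -/
noncomputable def Lf (g : alternatingGroup (Fin n)) : M := (sq_lift f hs hc h2 g).choose

theorem Lf_spec {g : alternatingGroup (Fin n)} (hg : g ^ 2 = 1) :
    f (Lf f hs hc h2 g) = g ∧ (Lf f hs hc h2 g) ^ 2 = 1 :=
  (sq_lift f hs hc h2 g).choose_spec hg

theorem Lf_conj {g : alternatingGroup (Fin n)} (hg : g ^ 2 = 1) (m : M) :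
    m * Lf f hs hc h2 g * m⁻¹ = Lf f hs hc h2 (f m * g * (f m)⁻¹) := by
  have h3 : (f m * g * (f m)⁻¹) ^ 2 = 1 := by
    rw [conj_pow, hg, mul_one, mul_inv_cancel]
  obtain ⟨h4, h5⟩ := Lf_spec f hs hc h2 hg
  obtain ⟨h6, h7⟩ := Lf_spec f hs hc h2 h3
  refine sq_unique f hc h2 ?_ ?_ h7
  · rw [h6, map_mul, map_mul, map_inv, h4]
  · rw [conj_pow, h5, mul_one, mul_inv_cancel]

theorem Lf_comm {g h : alternatingGroup (Fin n)} (hg : g ^ 2 = 1) (hh : h ^ 2 = 1)
    (hgh : g * h = h * g) :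
    Lf f hs hc h2 g * Lf f hs hc h2 h = Lf f hs hc h2 h * Lf f hs hc h2 g ∧
    Lf f hs hc h2 g * Lf f hs hc h2 h = Lf f hs hc h2 (g * h) := by
  obtain ⟨h4, h5⟩ := Lf_spec f hs hc h2 hg
  obtain ⟨h6, h7⟩ := Lf_spec f hs hc h2 hh
  have h8 : Lf f hs hc h2 g * Lf f hs hc h2 h * (Lf f hs hc h2 g)⁻¹ = Lf f hs hc h2 h := by
    rw [Lf_conj f hs hc h2 hh, h4, hgh, mul_inv_cancel_right]
  have h9 : Lf f hs hc h2 g * Lf f hs hc h2 h = Lf f hs hc h2 h * Lf f hs hc h2 g :=
    mul_inv_eq_iff_eq_mul.1 h8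
  have h10 : (g * h) ^ 2 = 1 := by
    rw [(show Commute g h from hgh).mul_pow, hg, hh, one_mul]
  obtain ⟨h11, h12⟩ := Lf_spec f hs hc h2 h10
  refine ⟨h9, sq_unique f hc h2 ?_ ?_ h12⟩
  · rw [h11, map_mul, h4, h6]
  · rw [(show Commute _ _ from h9).mul_pow, h5, h7, one_mul]

/-- double transpositions -/
def dt {a b c d : Fin n} (hab : a ≠ b) (hcd : c ≠ d) : alternatingGroup (Fin n) :=
  ⟨swap a b * swap c d, sign_ss hab hcd⟩

theorem swap_comm' {a b c d : Fin n} (hac : a ≠ c) (had : a ≠ d) (hbc : b ≠ c) (hbd : b ≠ d) :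
    swap a b * swap c d = swap c d * swap a b := by
  have h1 := swap_conj (swap a b) c d
  rw [swap_apply_of_ne_of_ne hac.symm hbc.symm, swap_apply_of_ne_of_ne had.symm hbd.symm,
    mul_inv_eq_iff_eq_mul] at h1
  exact h1

theorem dt_sq {a b c d : Fin n} (hab : a ≠ b) (hcd : c ≠ d) (hac : a ≠ c) (had : a ≠ d)
    (hbc : b ≠ c) (hbd : b ≠ d) : dt hab hcd ^ 2 = 1 := by
  apply Subtype.ext
  change (swap a b * swap c d) ^ 2 = 1
  rw [(show Commute _ _ from swap_comm' hac had hbc hbd).mul_pow, pow_two, pow_two, swap_mul_self,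
    swap_mul_self, one_mul]

/-- the lift of a three-cycle -/
noncomputable def Yl {a b i d e : Fin n} (hab : a ≠ b) (hai : a ≠ i) (hde : d ≠ e) : M :=
  Lf f hs hc h2 (dt hab hde) * Lf f hs hc h2 (dt hai hde)

/-- five different elements -/
def Five (a b i d e : Fin n) : Prop :=
  a ≠ b ∧ a ≠ i ∧ b ≠ i ∧ d ≠ e ∧ a ≠ d ∧ a ≠ e ∧ b ≠ d ∧ b ≠ e ∧ i ≠ d ∧ i ≠ e

variable {a b i d e : Fin n}

theorem Yl_val (h : Five a b i d e) :
    (f (Yl f hs hc h2 h.1 h.2.1 h.2.2.2.1) : Perm (Fin n)) = xs a b i := by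
  obtain ⟨hab, hai, hbi, hde, had, hae, hbd, hbe, hid, hie⟩ := h
  unfold Yl
  rw [map_mul, (Lf_spec f hs hc h2 (dt_sq hab hde had hae hbd hbe)).1,
    (Lf_spec f hs hc h2 (dt_sq hai hde had hae hid hie)).1]
  change swap a b * swap d e * (swap a i * swap d e) = swap a b * swap a i
  rw [swap_comm' had hae hid hie, mul_assoc, ← mul_assoc (swap d e), swap_mul_self, one_mul]

theorem Yl_cube (h : Five a b i d e) :
    Yl f hs hc h2 h.1 h.2.1 h.2.2.2.1 ^ 3 = 1 := by
  have hval := Yl_val f hs hc h2 h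
  obtain ⟨hab, hai, hbi, hde, had, hae, hbd, hbe, hid, hie⟩ := h
  have hS := (Lf_spec f hs hc h2 (dt_sq hab hde had hae hbd hbe)).2
  have hT := (Lf_spec f hs hc h2 (dt_sq hai hde had hae hid hie)).2
  have hz : Yl f hs hc h2 hab hai hde ^ 3 ∈ f.ker := by
    rw [MonoidHom.mem_ker]
    apply Subtype.ext
    rw [map_pow, Subgroup.coe_pow]
    rw [hval]
    exact xs_cube hab hai.symm hbi.symm
  unfold Yl at hz ⊢
  generalize Lf f hs hc h2 (dt hab hde) = S at hS hz ⊢
  generalize Lf f hs hc h2 (dt hai hde) = T at hT hz ⊢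
  have hSi : S⁻¹ = S := by
    rw [inv_eq_iff_mul_eq_one, ← pow_two, hS]
  have hTi : T⁻¹ = T := by
    rw [inv_eq_iff_mul_eq_one, ← pow_two, hT]
  have h5 : S * (S * T) * S⁻¹ = (S * T)⁻¹ := by
    rw [mul_inv_rev, hSi, hTi, ← mul_assoc, ← pow_two, hS, one_mul]
  have h6 : S * (S * T) ^ 3 * S⁻¹ = (S * T) ^ 3 := by
    rw [Subgroup.mem_center_iff.1 (hc hz) S, mul_inv_cancel_right]
  rw [← conj_pow, h5, inv_pow] at h6
  refine sq_one f hc h2 hz ?_
  calc (S * T) ^ 3 * (S * T) ^ 3 = ((S * T) ^ 3)⁻¹ * (S * T) ^ 3 := by rw [h6]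
    _ = 1 := inv_mul_cancel _

theorem dt_conj {a b c d : Fin n} (hab : a ≠ b) (hcd : c ≠ d) (g : alternatingGroup (Fin n)) :
    g * dt hab hcd * g⁻¹ =
      dt (fun h => hab ((g : Perm (Fin n)).injective h))
        (fun h => hcd ((g : Perm (Fin n)).injective h)) := by
  apply Subtype.ext
  change (g : Perm (Fin n)) * (swap a b * swap c d) * (g : Perm (Fin n))⁻¹ =
    swap (g.1 a) (g.1 b) * swap (g.1 c) (g.1 d)
  rw [← swap_conj, ← swap_conj]
  group

theorem Yl_conj (h : Five a b i d e) (m : M) (hab' : (f m : Perm (Fin n)) a ≠ (f m).1 b)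
    (hai' : (f m : Perm (Fin n)) a ≠ (f m).1 i) (hde' : (f m : Perm (Fin n)) d ≠ (f m).1 e) :
    m * Yl f hs hc h2 h.1 h.2.1 h.2.2.2.1 * m⁻¹ = Yl f hs hc h2 hab' hai' hde' := by
  obtain ⟨hab, hai, hbi, hde, had, hae, hbd, hbe, hid, hie⟩ := h
  unfold Yl
  have h3 : m * (Lf f hs hc h2 (dt hab hde) * Lf f hs hc h2 (dt hai hde)) * m⁻¹ =
      (m * Lf f hs hc h2 (dt hab hde) * m⁻¹) * (m * Lf f hs hc h2 (dt hai hde) * m⁻¹) := by
    group
  rw [h3, Lf_conj f hs hc h2 (dt_sq hab hde had hae hbd hbe),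
    Lf_conj f hs hc h2 (dt_sq hai hde had hae hid hie), dt_conj, dt_conj]

theorem Yl_inv (h : Five a b i d e) :
    Yl f hs hc h2 h.1.symm h.2.2.1 h.2.2.2.1 = (Yl f hs hc h2 h.1 h.2.1 h.2.2.2.1)⁻¹ := by
  obtain ⟨hab, hai, hbi, hde, had, hae, hbd, hbe, hid, hie⟩ := h
  unfold Yl
  have hS := Lf_spec f hs hc h2 (dt_sq hab hde had hae hbd hbe)
  have hT := Lf_spec f hs hc h2 (dt_sq hai hde had hae hid hie)
  have h3 : dt hab.symm hde = dt hab hde := Subtype.ext (by
    change swap b a * _ = _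
    rw [swap_comm b a]
    rfl)
  have h4 := Lf_conj f hs hc h2 (dt_sq hbi hde hbd hbe hid hie) (Lf f hs hc h2 (dt hab hde))
  have h5 : f (Lf f hs hc h2 (dt hab hde)) * dt hbi hde * (f (Lf f hs hc h2 (dt hab hde)))⁻¹ =
      dt hai hde := by
    rw [hS.1]
    apply Subtype.ext
    rw [dt_conj]
    change swap ((swap a b * swap d e) b) ((swap a b * swap d e) i) *
      swap ((swap a b * swap d e) d) ((swap a b * swap d e) e) = swap a i * swap d e
    rw [Perm.mul_apply, Perm.mul_apply, Perm.mul_apply, Perm.mul_apply,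
      swap_apply_of_ne_of_ne hbd hbe, swap_apply_right, swap_apply_of_ne_of_ne hid hie,
      swap_apply_of_ne_of_ne hai.symm hbi.symm, swap_apply_left,
      swap_apply_of_ne_of_ne hae.symm hbe.symm, swap_apply_right,
      swap_apply_of_ne_of_ne had.symm hbd.symm, swap_comm e d]
  rw [h5] at h4
  rw [h3]
  have hSi : (Lf f hs hc h2 (dt hab hde))⁻¹ = Lf f hs hc h2 (dt hab hde) := by
    rw [inv_eq_iff_mul_eq_one, ← pow_two, hS.2]
  have hTi : (Lf f hs hc h2 (dt hai hde))⁻¹ = Lf f hs hc h2 (dt hai hde) := by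
    rw [inv_eq_iff_mul_eq_one, ← pow_two, hT.2]
  rw [mul_inv_rev, hSi, hTi]
  exact mul_inv_eq_iff_eq_mul.1 h4

/-- symmetry -/
theorem Yl_symm (hab : a ≠ b) (hai : a ≠ i) (hde : d ≠ e) :
    Yl f hs hc h2 hab hai hde.symm = Yl f hs hc h2 hab hai hde := by
  have h3 : dt hab hde.symm = dt hab hde := Subtype.ext (by
    change _ * swap e d = _
    rw [swap_comm e d]
    rfl)
  have h4 : dt hai hde.symm = dt hai hde := Subtype.ext (by
    change _ * swap e d = _
    rw [swap_comm e d]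
    rfl)
  unfold Yl
  rw [h3, h4]

theorem Yl_congr {a' b' i' : Fin n} (ha : a = a') (hb : b = b') (hi : i = i') (hab : a ≠ b)
    (hai : a ≠ i) (hde : d ≠ e) (hab' : a' ≠ b') (hai' : a' ≠ i') :
    Yl f hs hc h2 hab hai hde = Yl f hs hc h2 hab' hai' hde := by
  subst ha hb hi
  rfl

/-- disjoint pairs -/
theorem Yl_disj {d' e' : Fin n} (h : Five a b i d e) (h' : Five a b i d' e') (hdd : d ≠ d')
    (hde' : d ≠ e') (hed : e ≠ d') (hee : e ≠ e') :
    Yl f hs hc h2 h'.1 h'.2.1 h'.2.2.2.1 = Yl f hs hc h2 h.1 h.2.1 h.2.2.2.1 := by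
  obtain ⟨hab, hai, hbi, hde, had, hae, hbd, hbe, hid, hie⟩ := h
  obtain ⟨-, -, -, hde1, had1, hae1, hbd1, hbe1, hid1, hie1⟩ := h'
  have hv := dt_sq hde hde1 hdd hde' hed hee
  have h1 := dt_sq hab hde had hae hbd hbe
  have h3 := dt_sq hai hde had hae hid hie
  have key : ∀ {x y : Fin n} (hxy : x ≠ y), x ≠ d → x ≠ e → x ≠ d' → x ≠ e' → y ≠ d → y ≠ e →
      y ≠ d' → y ≠ e' → dt hxy hde * dt hde hde1 = dt hde hde1 * dt hxy hde ∧
      dt hxy hde * dt hde hde1 = dt hxy hde1 := by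
    intro x y hxy g1 g2 g3 g4 g5 g6 g7 g8
    have c1 := swap_comm' g1 g2 g5 g6
    have c2 := swap_comm' g3 g4 g7 g8
    have c3 := swap_comm' hdd hde' hed hee
    have k1 : swap x y * swap d e * (swap d e * swap d' e') = swap x y * swap d' e' := by
      rw [mul_assoc, ← mul_assoc (swap d e), swap_mul_self, one_mul]
    have k2 : swap d e * swap d' e' * (swap x y * swap d e) = swap x y * swap d' e' := by
      rw [c1, c3]
      calc swap d' e' * swap d e * (swap d e * swap x y) =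
          swap d' e' * (swap d e * swap d e) * swap x y := by simp only [mul_assoc]
        _ = swap d' e' * swap x y := by rw [swap_mul_self, mul_one]
        _ = _ := c2.symm
    exact ⟨Subtype.ext (k1.trans k2.symm), Subtype.ext k1⟩
  obtain ⟨k1, k2⟩ := key hab had hae had1 hae1 hbd hbe hbd1 hbe1
  obtain ⟨k3, k4⟩ := key hai had hae had1 hae1 hid hie hid1 hie1
  obtain ⟨l1, l2⟩ := Lf_comm f hs hc h2 h1 hv k1
  obtain ⟨l3, l4⟩ := Lf_comm f hs hc h2 h3 hv k3
  have hv2 := (Lf_spec f hs hc h2 hv).2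
  unfold Yl
  rw [← k2, ← k4, ← l2, ← l4, l3]
  calc Lf f hs hc h2 (dt hab hde) * Lf f hs hc h2 (dt hde hde1) *
        (Lf f hs hc h2 (dt hde hde1) * Lf f hs hc h2 (dt hai hde)) =
      Lf f hs hc h2 (dt hab hde) * (Lf f hs hc h2 (dt hde hde1) ^ 2) *
        Lf f hs hc h2 (dt hai hde) := by
        rw [pow_two]
        simp only [mul_assoc]
    _ = _ := by rw [hv2, mul_one]

/-- **Independence.** -/
theorem Yl_indep (hn : n = 5 ∨ 8 ≤ n) {d' e' : Fin n} (h : Five a b i d e)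
    (h' : Five a b i d' e') :
    Yl f hs hc h2 h'.1 h'.2.1 h'.2.2.2.1 = Yl f hs hc h2 h.1 h.2.1 h.2.2.2.1 := by
  by_cases hdisj : d ≠ d' ∧ d ≠ e' ∧ e ≠ d' ∧ e ≠ e'
  · exact Yl_disj f hs hc h2 h h' hdisj.1 hdisj.2.1 hdisj.2.2.1 hdisj.2.2.2
  rcases hn with hn | hn
  · -- `n = 5`
    have hcov : ∀ x : Fin n, x = a ∨ x = b ∨ x = i ∨ x = d ∨ x = e := by
      intro x
      have h3 : ({a, b, i, d, e} : Finset (Fin n)) = Finset.univ := by
        apply Finset.eq_univ_of_card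
        rw [Fintype.card_fin]
        refine Eq.trans ?_ hn.symm
        obtain ⟨hab, hai, hbi, hde, had, hae, hbd, hbe, hid, hie⟩ := h
        rw [Finset.card_insert_of_notMem, Finset.card_insert_of_notMem,
          Finset.card_insert_of_notMem, Finset.card_insert_of_notMem, Finset.card_singleton]
        · simp [hde]
        · simp [hid, hie]
        · simp [hbi, hbd, hbe]
        · simp [hab, hai, had, hae]
      have h4 := Finset.mem_univ x
      rw [← h3] at h4
      simpa using h4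
    have hd' := hcov d'
    have he' := hcov e'
    obtain ⟨-, -, -, hde1, had1, hae1, hbd1, hbe1, hid1, hie1⟩ := id h'
    rcases hd' with k | k | k | k | k
    · exact absurd k.symm had1
    · exact absurd k.symm hbd1
    · exact absurd k.symm hid1
    · subst k
      rcases he' with k | k | k | k | k
      · exact absurd k.symm hae1
      · exact absurd k.symm hbe1
      · exact absurd k.symm hie1
      · exact absurd k.symm hde1
      · subst k
        rfl
    · subst k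
      rcases he' with k | k | k | k | k
      · exact absurd k.symm hae1
      · exact absurd k.symm hbe1
      · exact absurd k.symm hie1
      · subst k
        exact Yl_symm f hs hc h2 h'.1 h'.2.1 h'.2.2.2.1.symm
      · exact absurd k.symm hde1
  · -- `n ≥ 8`
    have hcard : ({a, b, i, d, e, d', e'} : Finset (Fin n)).card ≤ 6 := by
      have h3 : d = d' ∨ d = e' ∨ e = d' ∨ e = e' := by tauto
      have h4 : ({a, b, i, d, e, d', e'} : Finset (Fin n)) ⊆ {a, b, i, d, e, d'} ∨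
          ({a, b, i, d, e, d', e'} : Finset (Fin n)) ⊆ {a, b, i, d, e, e'} := by
        rcases h3 with h3 | h3 | h3 | h3
        · right
          subst h3
          intro x hx
          simp only [Finset.mem_insert, Finset.mem_singleton] at hx ⊢
          tauto
        · left
          subst h3
          intro x hx
          simp only [Finset.mem_insert, Finset.mem_singleton] at hx ⊢
          tauto
        · right
          subst h3
          intro x hx
          simp only [Finset.mem_insert, Finset.mem_singleton] at hx ⊢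
          tauto
        · left
          subst h3
          intro x hx
          simp only [Finset.mem_insert, Finset.mem_singleton] at hx ⊢
          tauto
      rcases h4 with h4 | h4
      · exact (Finset.card_le_card h4).trans Finset.card_le_six
      · exact (Finset.card_le_card h4).trans Finset.card_le_six
    have hcompl : 1 < (({a, b, i, d, e, d', e'} : Finset (Fin n))ᶜ).card := by
      rw [Finset.card_compl, Fintype.card_fin]
      omega
    obtain ⟨p, q, hp, hq, hpq⟩ := Finset.one_lt_card_iff.1 hcompl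
    simp only [Finset.mem_compl, Finset.mem_insert, Finset.mem_singleton, not_or] at hp hq
    obtain ⟨p1, p2, p3, p4, p5, p6, p7⟩ := hp
    obtain ⟨q1, q2, q3, q4, q5, q6, q7⟩ := hq
    have hmid : Five a b i p q := ⟨h.1, h.2.1, h.2.2.1, hpq, Ne.symm p1, Ne.symm q1, Ne.symm p2,
      Ne.symm q2, Ne.symm p3, Ne.symm q3⟩
    rw [Yl_disj f hs hc h2 hmid h' p6 p7 q6 q7]
    exact Yl_disj f hs hc h2 h hmid (Ne.symm p4) (Ne.symm q4) (Ne.symm p5) (Ne.symm q5)

include hs hc h2 in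
/-- **Perfect central extensions.** -/
theorem ker_trivial (hn : n = 5 ∨ 8 ≤ n) (hperf : commutator M = ⊤) : f.ker = ⊥ := by
  have h5 : 5 ≤ n := by omega
  let a : Fin n := ⟨0, by omega⟩
  let b : Fin n := ⟨1, by omega⟩
  have hab : a ≠ b := by simp [a, b, Fin.ext_iff]
  have hex : ∀ i ∈ sab a b, ∃ d e : Fin n, Five a b i d e := by
    intro i hi
    obtain ⟨hi1, hi2⟩ := mem_sab.1 hi
    have hcompl : 1 < (({a, b, i} : Finset (Fin n))ᶜ).card := by
      rw [Finset.card_compl, Fintype.card_fin]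
      have := Finset.card_le_three (a := a) (b := b) (c := i)
      omega
    obtain ⟨p, q, hp, hq, hpq⟩ := Finset.one_lt_card_iff.1 hcompl
    simp only [Finset.mem_compl, Finset.mem_insert, Finset.mem_singleton, not_or] at hp hq
    exact ⟨p, q, hab, hi1.symm, hi2.symm, hpq, Ne.symm hp.1, Ne.symm hq.1, Ne.symm hp.2.1,
      Ne.symm hq.2.1, Ne.symm hp.2.2, Ne.symm hq.2.2⟩
  have hy : ∀ i : Fin n, ∃ y : M, i ∈ sab a b → ∀ (d e : Fin n) (h : Five a b i d e),
      Yl f hs hc h2 h.1 h.2.1 h.2.2.2.1 = y := by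
    intro i
    by_cases hi : i ∈ sab a b
    · obtain ⟨d, e, h⟩ := hex i hi
      exact ⟨Yl f hs hc h2 h.1 h.2.1 h.2.2.2.1, fun _ d' e' h' => Yl_indep f hs hc h2 hn h h'⟩
    · exact ⟨1, fun h => absurd h hi⟩
  choose y hy using hy
  have hy3 : ∀ i ∈ sab a b, y i ^ 3 = 1 := by
    intro i hi
    obtain ⟨d, e, h⟩ := hex i hi
    rw [← hy i hi d e h]
    exact Yl_cube f hs hc h2 h
  have hyf : ∀ i ∈ sab a b, (f (y i) : Perm (Fin n)) = xs a b i := by
    intro i hi
    obtain ⟨d, e, h⟩ := hex i hi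
    rw [← hy i hi d e h]
    exact Yl_val f hs hc h2 h
  have hyy : ∀ i ∈ sab a b, ∀ j ∈ sab a b, i ≠ j → (y i * y j) ^ 2 = 1 := by
    intro i hi j hj hij
    have hi' := mem_sab.1 hi
    have hj' := mem_sab.1 hj
    have hwk : (y i * y j) ^ 2 ∈ f.ker := by
      rw [MonoidHom.mem_ker]
      apply Subtype.ext
      rw [map_pow, map_mul, Subgroup.coe_pow, Subgroup.coe_mul, hyf i hi, hyf j hj]
      exact xs_sq hab hi'.1 hi'.2 hj'.1 hj'.2 hij
    obtain ⟨m, hm⟩ := hs ⟨swap a b * swap i j, sign_ss hab hij⟩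
    have hm' : (f m : Perm (Fin n)) = swap a b * swap i j := by rw [hm]
    have ha : (f m : Perm (Fin n)) a = b := by
      rw [hm', Perm.mul_apply, swap_apply_of_ne_of_ne hi'.1.symm hj'.1.symm, swap_apply_left]
    have hb : (f m : Perm (Fin n)) b = a := by
      rw [hm', Perm.mul_apply, swap_apply_of_ne_of_ne hi'.2.symm hj'.2.symm, swap_apply_right]
    have hii : (f m : Perm (Fin n)) i = j := by
      rw [hm', Perm.mul_apply, swap_apply_left, swap_apply_of_ne_of_ne hj'.1 hj'.2]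
    have hjj : (f m : Perm (Fin n)) j = i := by
      rw [hm', Perm.mul_apply, swap_apply_right, swap_apply_of_ne_of_ne hi'.1 hi'.2]
    have key : ∀ k ∈ sab a b, ∀ l ∈ sab a b, (f m : Perm (Fin n)) k = l →
        m * y k * m⁻¹ = (y l)⁻¹ := by
      intro k hk l hl hkl
      obtain ⟨d, e, h⟩ := hex k hk
      have hinj := (f m : Perm (Fin n)).injective
      have g1 := Yl_conj f hs hc h2 h m (fun h' => h.1 (hinj h')) (fun h' => h.2.1 (hinj h'))
        (fun h' => h.2.2.2.1 (hinj h'))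
      rw [hy k hk d e h] at g1
      rw [g1]
      obtain ⟨hab1, hai1, hbi1, hde1, had1, hae1, hbd1, hbe1, hid1, hie1⟩ := h
      have g2 : ∀ {u v : Fin n}, u ≠ v → (f m : Perm (Fin n)) u ≠ (f m : Perm (Fin n)) v :=
        fun huv h' => huv (hinj h')
      have g3 : Five a b l ((f m : Perm (Fin n)) d) ((f m : Perm (Fin n)) e) := by
        refine ⟨hab, (mem_sab.1 hl).1.symm, (mem_sab.1 hl).2.symm, g2 hde1, ?_, ?_, ?_, ?_, ?_, ?_⟩
        · rw [← hb]
          exact g2 hbd1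
        · rw [← hb]
          exact g2 hbe1
        · rw [← ha]
          exact g2 had1
        · rw [← ha]
          exact g2 hae1
        · rw [← hkl]
          exact g2 hid1
        · rw [← hkl]
          exact g2 hie1
      have g4 := Yl_inv f hs hc h2 g3
      rw [hy l hl _ _ g3] at g4
      rw [← g4]
      exact Yl_congr f hs hc h2 ha hb hkl _ _ _ _ _
    have h6 : m * (y i * y j) ^ 2 * m⁻¹ = (y i * y j) ^ 2 := by
      rw [Subgroup.mem_center_iff.1 (hc hwk) m, mul_inv_cancel_right]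
    have h7 : m * (y i * y j) * m⁻¹ = (y i * y j)⁻¹ := by
      have h8 : m * (y i * y j) * m⁻¹ = (m * y i * m⁻¹) * (m * y j * m⁻¹) := by group
      rw [h8, key i hi j hj hii, key j hj i hi hjj, mul_inv_rev]
    rw [← conj_pow, h7, inv_pow] at h6
    refine sq_one f hc h2 hwk ?_
    calc (y i * y j) ^ 2 * (y i * y j) ^ 2 = ((y i * y j) ^ 2)⁻¹ * (y i * y j) ^ 2 := by rw [h6]
      _ = 1 := inv_mul_cancel _
  -- the complement
  let D := Subgroup.closure (y '' (sab a b : Set (Fin n)))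
  obtain ⟨-, hD⟩ := carm y (sab a b) hy3 hyy
  rw [card_sab hab] at hD
  have hDs : ∀ g : alternatingGroup (Fin n), ∃ d ∈ D, f d = g := by
    intro g
    have h3 := alt_le hab ((D.map f).map (alternatingGroup (Fin n)).subtype) (by
      intro i hi hi'
      have h4 := mem_sab.2 ⟨hi, hi'⟩
      exact ⟨f (y i), ⟨y i, Subgroup.subset_closure ⟨i, h4, rfl⟩, rfl⟩, hyf i h4⟩)
    obtain ⟨g', ⟨d, hd, hd'⟩, hg'⟩ := h3 g.2
    refine ⟨d, hd, ?_⟩
    rw [hd']
    exact Subtype.ext hg'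
  have hDtop : D = ⊤ := by
    rw [eq_top_iff, ← hperf, commutator_def, Subgroup.commutator_le]
    intro u _ v _
    have hsplit : ∀ u : M, ∃ d ∈ D, ∃ z ∈ f.ker, u = d * z := by
      intro u
      obtain ⟨d, hd, hdu⟩ := hDs (f u)
      refine ⟨d, hd, d⁻¹ * u, ?_, (mul_inv_cancel_left _ _).symm⟩
      rw [MonoidHom.mem_ker, map_mul, map_inv, hdu, inv_mul_cancel]
    obtain ⟨d1, hd1, z1, hz1, rfl⟩ := hsplit u
    obtain ⟨d2, hd2, z2, hz2, rfl⟩ := hsplit v
    have c1 := Subgroup.mem_center_iff.1 (hc hz1)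
    have c2 := Subgroup.mem_center_iff.1 (hc hz2)
    have h9 : ⁅d1 * z1, d2 * z2⁆ = ⁅d1, d2⁆ := by
      rw [commutatorElement_def, commutatorElement_def, mul_inv_rev, mul_inv_rev]
      have e1 : d1 * z1 * (d2 * z2) * (z1⁻¹ * d1⁻¹) * (z2⁻¹ * d2⁻¹) =
          d1 * (z1 * (d2 * (z2 * z1⁻¹))) * d1⁻¹ * (z2⁻¹ * d2⁻¹) := by simp only [mul_assoc]
      have e2 : z1 * (d2 * (z2 * z1⁻¹)) = d2 * z2 := by
        rw [← c1 (d2 * (z2 * z1⁻¹)), mul_assoc, mul_assoc, inv_mul_cancel, mul_one]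
      rw [e1, e2]
      have e3 : d1 * (d2 * z2) * d1⁻¹ * (z2⁻¹ * d2⁻¹) = d1 * d2 * (z2 * (d1⁻¹ * z2⁻¹)) * d2⁻¹ := by
        simp only [mul_assoc]
      have e4 : z2 * (d1⁻¹ * z2⁻¹) = d1⁻¹ := by
        rw [← c2 (d1⁻¹ * z2⁻¹), mul_assoc, inv_mul_cancel, mul_one]
      rw [e3, e4]
    rw [h9, commutatorElement_def]
    exact mul_mem (mul_mem (mul_mem hd1 hd2) (inv_mem hd1)) (inv_mem hd2)
  have hcardM : 2 * Nat.card M ≤ n.factorial := by
    have h10 : Nat.card M = (D : Set M).ncard := by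
      rw [hDtop]
      exact (Set.ncard_univ M).symm
    rw [h10]
    exact hD
  have hnt : Nontrivial (Fin n) := Fin.nontrivial_iff_two_le.2 (by omega)
  have hcardA : 2 * Nat.card (alternatingGroup (Fin n)) = n.factorial := by
    rw [two_mul_nat_card_alternatingGroup, Nat.card_perm, Nat.card_eq_fintype_card,
      Fintype.card_fin]
  have hbij := Function.Surjective.bijective_of_nat_card_le hs (by omega)
  exact (MonoidHom.ker_eq_bot_iff f).2 hbij.1

end lift

end Pool.Agent.K7.H53.CE
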