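import Pool.Agent.K7.H53.CE.Types
import Pool.Agent.Y60.DCF.Main

/-!
# Embedding problems with kernels which are central extensions
-/

set_option autoImplicit false
set_option linter.unusedSectionVars false

namespace Pool.Agent.K7.H53.CE

open Pool.Agent.Y60.DC (CompIn PSL2 FacC)
open Pool.Agent.Y60.DCF (Factor IsPSL2 IsPSL compIn_mono)
open Pool.Agent.TH444.TW (RSK)

/-- The class of simple groups (internal form). -/
def SF (p c : ℕ) [Fact p.Prime] (T : Type) [Group T] : Prop :=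
  Nat.card T = p ∨
  (∃ n : ℕ, 5 ≤ n ∧ n ≠ 6 ∧ (n = 7 → p = 3 ∨ ¬ 3 ∣ c) ∧
    Nonempty (T ≃* alternatingGroup (Fin n))) ∨
  IsPSL2 p T ∨ IsPSL p T ∨
  (FacC p T ∧ (∃ a b : T, a * b ≠ b * a) ∧ NoCover p T)

theorem FactorZ.toSF {p c : ℕ} [Fact p.Prime] (T : Type) [Group T] (h : FactorZ p c T) :
    SF p c T := by
  rcases h with h | h | h | h | ⟨h1, h2, h3⟩
  · exact Or.inl h
  · exact Or.inr (Or.inl h)
  · exact Or.inr (Or.inr (Or.inl h))
  · exact Or.inr (Or.inr (Or.inr (Or.inl h)))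
  · exact Or.inr (Or.inr (Or.inr (Or.inr ⟨Factor.old T h1, h2, h3⟩)))

theorem SF.iso {p c : ℕ} [Fact p.Prime] (T T' : Type) [Group T] [Group T']
    (e : Nonempty (T ≃* T')) (h : SF p c T) : SF p c T' := by
  have e' := e
  obtain ⟨e⟩ := e
  rcases h with h | ⟨n, h1, h2, h3, ⟨f⟩⟩ | ⟨F, iF, k, h1, h2, h3, ⟨f⟩⟩ |
    ⟨F, iF, k, n, h1, h2, h3, h4, ⟨f⟩⟩ | ⟨h1, ⟨a, b, h2⟩, h3⟩
  · exact Or.inl ((Nat.card_congr e.toEquiv).symm.trans h)
  · exact Or.inr (Or.inl ⟨n, h1, h2, h3, ⟨e.symm.trans f⟩⟩)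
  · exact Or.inr (Or.inr (Or.inl ⟨F, iF, k, h1, h2, h3, ⟨e.symm.trans f⟩⟩))
  · exact Or.inr (Or.inr (Or.inr (Or.inl ⟨F, iF, k, n, h1, h2, h3, h4, ⟨e.symm.trans f⟩⟩)))
  · refine Or.inr (Or.inr (Or.inr (Or.inr ⟨FacC.iso p T T' e' h1, ⟨e a, e b, ?_⟩, h3.iso e⟩)))
    intro h
    apply h2
    apply e.injective
    rw [map_mul, map_mul, h]

theorem SF.simple {p c : ℕ} [Fact p.Prime] (T : Type) [Group T] (h : SF p c T) :
    IsSimpleGroup T := by
  rcases h with h | ⟨n, h1, h2, h3, ⟨f⟩⟩ | ⟨F, iF, k, h1, h2, h3, ⟨f⟩⟩ |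
    ⟨F, iF, k, n, h1, h2, h3, h4, ⟨f⟩⟩ | ⟨h1, h2, h3⟩
  · exact isSimpleGroup_of_prime_card h
  · have := simple_alt h1
    exact f.isSimpleGroup
  · have hs : IsSimpleGroup (PSL2 F) := Matrix.ProjectiveSpecialLinearGroup.rank_two_simple h1
    exact f.isSimpleGroup
  · have hfin : Finite F :=
      (Nat.card_pos_iff.1 (by rw [h1]; exact pow_pos (Fact.out : p.Prime).pos k)).2
    have hs : IsSimpleGroup (Pool.Agent.Y60.DC.PSLn n F) := Pool.Agent.Y60.DC.simpleN_all F n h3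
    exact f.isSimpleGroup
  · exact FacC.simple p T h1

theorem SF.types {p c c' : ℕ} [hp : Fact p.Prime] (hc : ¬ p ∣ c) (hcc : c ∣ c') (T : Type)
    [Group T] (h : SF p c' T) : Nat.card T = p ∨ ∃ (T₁ : Type) (_ : Group T₁),
      Nonempty (T ≃* T₁) ∧ (TyA p c T₁ ∨ TyB p c T₁) := by
  rcases h with h | ⟨n, h1, h2, h3, ⟨f⟩⟩ | ⟨F, iF, k, h1, h2, h3, ⟨f⟩⟩ |
    ⟨F, iF, k, n, h1, h2, h3, h4, ⟨f⟩⟩ | ⟨h1, h2, h3⟩
  · exact Or.inl h
  · right
    have hn : n = 5 ∨ 8 ≤ n ∨ ¬ 3 ∣ c := by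
      by_cases h7 : n = 7
      · right; right
        rcases h3 h7 with h | h
        · rwa [h] at hc
        · exact fun h' => h (h'.trans hcc)
      · omega
    refine ⟨alternatingGroup (Fin n), inferInstance, ⟨f⟩, ?_⟩
    by_cases hp2 : p = 2
    · subst hp2
      exact Or.inl (tyA_alt c n h1 h2 hn hc)
    · exact Or.inr (tyB_alt p hp2 c n h1 h2 hn)
  · right
    have hfin : Finite F := (Nat.card_pos_iff.1 (by omega)).2
    have hft : Fintype F := Fintype.ofFinite F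
    have hchar : CharP F p := charP_of_card_eq_prime_pow (f := k) (by
      rw [← Nat.card_eq_fintype_card, h2])
    exact ⟨PSL2 F, inferInstance, ⟨f⟩, Or.inr (tyB_psl p F c hc k h1 h2 h3)⟩
  · right
    have hfin : Finite F :=
      (Nat.card_pos_iff.1 (by rw [h1]; exact pow_pos hp.out.pos k)).2
    have hft : Fintype F := Fintype.ofFinite F
    have hchar : CharP F p := charP_of_card_eq_prime_pow (f := k) (by
      rw [← Nat.card_eq_fintype_card, h1])
    exact ⟨Matrix.ProjectiveSpecialLinearGroup (Fin n) F, inferInstance, ⟨f⟩,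
      Or.inl (tyA_psln p c hc F n h3 (by rw [h1]; exact h4))⟩
  · exact Or.inr ⟨T, inferInstance, ⟨MulEquiv.refl T⟩, Or.inl (tyA_nocover p c hc T h1 h2 h3)⟩

/-- **Embedding problems with kernels which are central extensions.** -/
theorem rsk_main (p : ℕ) [hp : Fact p.Prime] {E W W₀ : Type} [Group E] [Finite E] [Group W]
    [Finite W] [Group W₀] (ω : W →* W₀) (π : E →* W) (hπ : Function.Surjective π)
    (P Z : Subgroup E) [hPn : P.Normal]
    [hZn : Z.Normal] (hPZ : P ≤ Z) (hZ : Z ≤ π.ker) (hP : IsPGroup p P)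
    (hcen : ∀ z ∈ Z, ∀ g : E, z * g * z⁻¹ * g⁻¹ ∈ P)
    (h : CompIn (SF p (Nat.card Z)) (π.ker ⧸ Z.subgroupOf π.ker)) (K : Type) [Field K]
    [CharP K p]
    (hbase : ∀ (H : Type) [Group H] [Finite H] (τ : H →* W), Function.Surjective τ →
      τ.ker ≤ Subgroup.center H → Nat.card τ.ker ∣ Nat.card Z → ¬ p ∣ Nat.card τ.ker →
      RSK K (ω.comp τ)) : RSK K (ω.comp π) := by
  -- the Sylow subgroup of `Z / P`
  let Z₁ : Subgroup (E ⧸ P) := Z.map (QuotientGroup.mk' P)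
  have hZ₁ : Z₁ ≤ Subgroup.center (E ⧸ P) := by
    rintro _ ⟨z, hz, rfl⟩
    rw [Subgroup.mem_center_iff]
    intro y
    obtain ⟨g, rfl⟩ := QuotientGroup.mk_surjective y
    change (QuotientGroup.mk g : E ⧸ P) * QuotientGroup.mk z = QuotientGroup.mk z * QuotientGroup.mk g
    rw [← QuotientGroup.mk_mul, ← QuotientGroup.mk_mul]
    refine (QuotientGroup.eq_iff_div_mem).2 ?_ |>.symm
    rw [div_eq_mul_inv, mul_inv_rev, ← mul_assoc]
    exact hcen z hz g
  let Q₀ : Sylow p Z₁ := default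
  let Q : Subgroup (E ⧸ P) := (Q₀ : Subgroup Z₁).map Z₁.subtype
  have hQZ : Q ≤ Z₁ := Subgroup.map_subtype_le _
  have hQn : Q.Normal := ⟨fun x hx g => by
    rw [Subgroup.mem_center_iff.1 (hZ₁ (hQZ hx)) g, mul_inv_cancel_right]
    exact hx⟩
  have hQp : IsPGroup p Q := Q₀.2.map _
  let R : Subgroup E := Q.comap (QuotientGroup.mk' P)
  have hRn : R.Normal := Subgroup.normal_comap _
  have hRp : IsPGroup p R := hQp.comap_of_ker_isPGroup _ (by
    rw [QuotientGroup.ker_mk']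
    exact hP)
  have hPR : P ≤ R := by
    intro x hx
    change (QuotientGroup.mk x : E ⧸ P) ∈ Q
    rw [(QuotientGroup.eq_one_iff x).2 hx]
    exact one_mem _
  have hRZ : R ≤ Z := by
    intro x hx
    obtain ⟨z, hz, hzx⟩ := hQZ (show (QuotientGroup.mk x : E ⧸ P) ∈ Q from hx)
    have h1 : (QuotientGroup.mk z : E ⧸ P) = QuotientGroup.mk x := hzx
    rw [QuotientGroup.eq] at h1
    have h2 := Z.mul_mem hz (hPZ h1)
    rwa [mul_inv_cancel_left] at h2
  -- the central extension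
  let α : E ⧸ R →* E ⧸ Z := QuotientGroup.map R Z (MonoidHom.id E) (fun x hx => hRZ hx)
  have hα : ∀ g : E, α (QuotientGroup.mk g) = QuotientGroup.mk g := fun g => rfl
  have hαs : Function.Surjective α := by
    intro y
    obtain ⟨g, rfl⟩ := QuotientGroup.mk_surjective y
    exact ⟨QuotientGroup.mk g, rfl⟩
  have hαk : ∀ x ∈ α.ker, ∃ z ∈ Z, (QuotientGroup.mk z : E ⧸ R) = x := by
    intro x hx
    obtain ⟨g, rfl⟩ := QuotientGroup.mk_surjective x
    rw [MonoidHom.mem_ker, hα, QuotientGroup.eq_one_iff] at hx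
    exact ⟨g, hx, rfl⟩
  have hαc : α.ker ≤ Subgroup.center (E ⧸ R) := by
    intro x hx
    obtain ⟨z, hz, rfl⟩ := hαk x hx
    rw [Subgroup.mem_center_iff]
    intro y
    obtain ⟨g, rfl⟩ := QuotientGroup.mk_surjective y
    rw [← QuotientGroup.mk_mul, ← QuotientGroup.mk_mul]
    refine (QuotientGroup.eq_iff_div_mem).2 ?_ |>.symm
    rw [div_eq_mul_inv, mul_inv_rev, ← mul_assoc]
    exact hPR (hcen z hz g)
  let τ : Z₁ →* α.ker := MonoidHom.codRestrict
    ((QuotientGroup.map P R (MonoidHom.id E) (fun x hx => hPR hx)).comp Z₁.subtype) α.ker (by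
      rintro ⟨_, z, hz, rfl⟩
      rw [MonoidHom.mem_ker]
      exact (QuotientGroup.eq_one_iff z).2 hz)
  have hτ : Function.Surjective τ := by
    intro x
    obtain ⟨z, hz, hzx⟩ := hαk x x.2
    exact ⟨⟨QuotientGroup.mk z, z, hz, rfl⟩, Subtype.ext hzx⟩
  have hτk : (Q₀ : Subgroup Z₁) ≤ τ.ker := by
    rintro ⟨_, z, hz, rfl⟩ hx
    rw [MonoidHom.mem_ker]
    apply Subtype.ext
    refine (QuotientGroup.eq_one_iff z).2 ?_
    exact ⟨_, hx, rfl⟩
  have hcard1 : Nat.card α.ker ∣ (Q₀ : Subgroup Z₁).index := by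
    have h6 := Subgroup.index_dvd_of_le hτk
    rwa [Subgroup.index_ker, MonoidHom.range_eq_top.2 hτ, Subgroup.card_top] at h6
  have hpc : ¬ p ∣ Nat.card α.ker := fun h' => Q₀.not_dvd_index (h'.trans hcard1)
  have hcc : Nat.card α.ker ∣ Nat.card Z :=
    (Subgroup.card_dvd_of_surjective τ hτ).trans (Subgroup.card_map_dvd _ _)
  let β : E ⧸ Z →* W := QuotientGroup.lift Z π hZ
  have hβs : Function.Surjective β := by
    intro w
    obtain ⟨g, rfl⟩ := hπ w
    exact ⟨QuotientGroup.mk g, rfl⟩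
  have hcomp : CompIn (SF p (Nat.card Z)) β.ker := by
    let g : (π.ker ⧸ Z.subgroupOf π.ker) →* β.ker :=
      QuotientGroup.lift _ (((QuotientGroup.mk' Z).comp π.ker.subtype).codRestrict β.ker
        (fun x => x.2)) (by
          intro x hx
          apply Subtype.ext
          exact (QuotientGroup.eq_one_iff (x : E)).2 hx)
    refine Pool.Agent.Y419.DC.quot (fun T T' _ _ h h' => SF.iso T T' h h')
      (fun T _ h => SF.simple T h) h _ g ?_
    rintro ⟨y, hy⟩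
    obtain ⟨x, rfl⟩ := QuotientGroup.mk_surjective y
    exact ⟨QuotientGroup.mk ⟨x, hy⟩, rfl⟩
  have h1 := main_rel p (Nat.card α.ker) (fun T _ => SF p (Nat.card Z) T)
    (fun T T' _ _ h h' => SF.iso T T' h h') (fun T _ h => SF.simple T h)
    (fun T _ h => SF.types hpc hcc T h) W W₀ ω K
    (fun H _ _ τ h1 h2 h3 => hbase H τ h1 h2 (h3.trans hcc) fun h' => hpc (h'.trans h3))
    _ (E ⧸ R) (E ⧸ Z) α β le_rfl hαs hβs hαc hcomp dvd_rfl
  have h2 : ω.comp π = ((ω.comp β).comp α).comp (QuotientGroup.mk' R) := rfl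
  rw [h2]
  exact Pool.Agent.TH444.TW.RSK.comp h1 (rsk_step _ (step_pgroup R hRp) K)

theorem CentralKernel.rsk {p : ℕ} [Fact p.Prime] {E W : Type} [Group E] [Group W] {π : E →* W}
    (h : CentralKernel p π) (K : Type) [Field K] [CharP K p] : RSK K π := by
  obtain ⟨hfin, hs, P, Z, hP, hZ, h1, h2, h3, h4, h5, h6⟩ := h
  have hW : Finite W := Finite.of_surjective π hs
  refine rsk_main p (MonoidHom.id W) π hs P Z h1 h2 h3 h4
    (compIn_mono (fun T _ h => FactorZ.toSF T h) h6) K ?_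
  intro H _ _ τ k1 k2 k3 k4
  refine rsk_coprime (p := p) τ k1 k2 ?_ K
  rw [Nat.coprime_iff_gcd_eq_one]
  by_contra hne
  obtain ⟨l, hl, hd⟩ := Nat.exists_prime_and_dvd hne
  have e1 := hd.trans (Nat.gcd_dvd_left _ _)
  have e2 := hd.trans (Nat.gcd_dvd_right _ _)
  have e3 := h5 l hl (e1.trans k3) e2
  rw [e3] at e1
  exact k4 e1

open Pool.Agent.H391R2.T4 (RegSol)

theorem CentralKernel.regSol {p : ℕ} [Fact p.Prime] (K L E : Type) [Field K] [CharP K p]
    [Field L] [Algebra K L] [FiniteDimensional K L] [IsGalois K L] [Group E]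
    (α : E →* (L ≃ₐ[K] L)) (h : CentralKernel p α) : RegSol K L E α := by
  have hfin := h.1
  have h3 := (h.rsk K).all L (MulEquiv.refl _)
  exact h3

theorem CentralKernel.proper {p : ℕ} [Fact p.Prime] {K : Type} [Field K] [CharP K p]
    (hK : Pool.Agent.TH377.IG.SpecProp K) (L E : Type) [Field L]
    [Algebra K L] [FiniteDimensional K L] [IsGalois K L] [Group E] (α : E →* (L ≃ₐ[K] L))
    (h : CentralKernel p α) :
    ∃ (F : Type) (_ : Field F) (_ : Algebra K F) (_ : Algebra L F)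
          (_ : IsScalarTower K L F),
          FiniteDimensional K F ∧ IsGalois K F ∧
          ∃ γ : (F ≃ₐ[K] F) ≃* E, ∀ σ : F ≃ₐ[K] F, α (γ σ) = σ.restrictNormal L := by
  have hfin := h.1
  obtain ⟨F, i1, i2, i3, i4, i5, i6, i7, i8, γ, hγ, -⟩ := h.regSol K L E α
  exact hK L E α ⟨F, i1, i2, i3, i4, i5, i6, i7, i8, γ, hγ⟩

theorem CentralKernel.extend {p : ℕ} [Fact p.Prime] (κ : Type) [Field κ] [Finite κ] [CharP κ p]
    (G G' : Type) [Group G] [Group G'] (π : G' →* G) (h : CentralKernel p π)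
    (hq : Pool.Agent.K7.H53.MA.Occurs (RatFunc κ) G) :
    Pool.Agent.K7.H53.MA.Occurs (RatFunc κ) G' := by
  obtain ⟨L, i1, i2, i3, i4, ⟨e⟩⟩ := hq
  have := Pool.Agent.Y60.DC.charP_ratFunc κ p
  have hfin := h.1
  let α : G' →* (L ≃ₐ[RatFunc κ] L) := e.symm.toMonoidHom.comp π
  have hR : RegSol (RatFunc κ) L G' α := (h.rsk (RatFunc κ)).all L e
  obtain ⟨F, i1, i2, i3, i4, i5, i6, i7, i8, γ, hγ, -⟩ := hR
  obtain ⟨F', j1, j2, -, -, j5, j6, γ', -⟩ := Pool.Agent.TH377.IG.spec_ratFunc κ L G' α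
    ⟨F, i1, i2, i3, i4, i5, i6, i7, i8, γ, hγ⟩
  exact ⟨F', j1, j2, j5, j6, ⟨γ'⟩⟩

/-- The absolute case. -/
theorem goodG_central {p : ℕ} [hp : Fact p.Prime] (G : Type) [Group G] [Finite G]
    (P Z N : Subgroup G) [P.Normal] [Z.Normal] [N.Normal] (hPZ : P ≤ Z) (hZN : Z ≤ N)
    (hP : IsPGroup p P) (hcen : ∀ z ∈ Z, ∀ g : G, z * g * z⁻¹ * g⁻¹ ∈ P)
    (hab : ∀ a b : G, a * b * a⁻¹ * b⁻¹ ∈ N)
    (h : CompIn (FactorZ p (Nat.card Z)) (N ⧸ Z.subgroupOf N)) : GoodG p G := by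
  refine ⟨inferInstance, fun K _ _ => ?_⟩
  have hker : (QuotientGroup.mk' N).ker = N := QuotientGroup.ker_mk' N
  have h1 : CompIn (SF p (Nat.card Z))
      ((QuotientGroup.mk' N).ker ⧸ Z.subgroupOf (QuotientGroup.mk' N).ker) := by
    rw [hker]
    exact compIn_mono (fun T _ h => FactorZ.toSF T h) h
  refine rsk_main p (1 : (G ⧸ N) →* Unit) (QuotientGroup.mk' N) (QuotientGroup.mk'_surjective N)
    P Z hPZ (by rwa [hker]) hP hcen h1 K ?_
  intro H _ _ τ k1 k2 k3 k4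
  have hgood : GoodG p H := by
    refine goodG_class_two _ H le_rfl fun a b => k2 ?_
    rw [MonoidHom.mem_ker, map_commutatorElement, commutatorElement_eq_one_iff_mul_comm]
    obtain ⟨x, hx⟩ := QuotientGroup.mk_surjective (τ a)
    obtain ⟨y, hy⟩ := QuotientGroup.mk_surjective (τ b)
    rw [← hx, ← hy, ← QuotientGroup.mk_mul, ← QuotientGroup.mk_mul]
    refine (QuotientGroup.eq_iff_div_mem).2 ?_
    rw [div_eq_mul_inv, mul_inv_rev, ← mul_assoc]
    exact hab x y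
  exact hgood.2 K

theorem CentralGroup.good {p : ℕ} [hp : Fact p.Prime] (G : Type) [Group G]
    (h : CentralGroup p G) : GoodG p G := by
  obtain ⟨hfin, P, Z, N, iP, iZ, iN, h1, h2, h3, h4, h5, h6⟩ := h
  exact goodG_central G P Z N h1 h2 h3 h4 h5 h6

theorem BuiltZ.good {p : ℕ} [hp : Fact p.Prime] {G : Type} [Group G]
    (h : BuiltZ p G) : GoodG p G := by
  induction h with
  | group G h => exact CentralGroup.good G h
  | kernel π h hG ih =>
    have := h.1
    exact GoodG.step π (fun K _ _ => h.rsk K) ih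
  | step π h hG ih =>
    rcases h with h | ⟨h2, h⟩
    · exact GoodG.ofStep π h ih
    · have hfin := ((h.toB p (ZMod p)).main p h2 ih.1).1
      exact GoodG.step π (fun K _ _ => ((h.toB p K).main p h2 ih.1).2) ih
  | quot q hq hG ih => exact GoodG.quot q hq ih

theorem compIn_of_simple {S : ∀ (T : Type) [Group T], Prop} (N : Type) [Group N]
    (h : ∀ (T : Type) [Group T], Nonempty (T ≃* N) → S T) : CompIn S N :=
  CompIn.ext N ⊥ (CompIn.one _ inferInstance) (h _ ⟨QuotientGroup.quotientBot⟩)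

/-- Central extensions of the groups `Q` which have a normal subgroup `A_n` with a commutative
quotient. -/
theorem centralGroup_alt {p : ℕ} [hp : Fact p.Prime] (n : ℕ) (h5 : 5 ≤ n) (h6 : n ≠ 6)
    (G : Type) [Group G] [Finite G] (Q : Type) [Group Q]
    (B : Subgroup Q) [B.Normal] (eB : B ≃* alternatingGroup (Fin n))
    (hQ : ∀ a b : Q, a * b * a⁻¹ * b⁻¹ ∈ B) (f : G →* Q) (hs : Function.Surjective f)
    (hc : f.ker ≤ Subgroup.center G) (h7 : n = 7 → p = 3 ∨ ¬ 3 ∣ Nat.card f.ker) :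
    CentralGroup p G := by
  let N : Subgroup G := B.comap f
  let g : N →* B := (f.comp N.subtype).codRestrict B fun x => x.2
  have hg : Function.Surjective g := by
    rintro ⟨b, hb⟩
    obtain ⟨x, hx⟩ := hs b
    exact ⟨⟨x, by rw [← hx] at hb; exact hb⟩, Subtype.ext hx⟩
  have hgk : f.ker.subgroupOf N = g.ker := by
    ext x
    rw [Subgroup.mem_subgroupOf, MonoidHom.mem_ker, MonoidHom.mem_ker]
    exact ⟨fun h => Subtype.ext h, fun h => congrArg Subtype.val h⟩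
  refine ⟨inferInstance, ⊥, f.ker, N, inferInstance, inferInstance, Subgroup.normal_comap f,
    bot_le, ?_, IsPGroup.of_bot, ?_, ?_, ?_⟩
  · intro x hx
    change f x ∈ B
    rw [MonoidHom.mem_ker.1 hx]
    exact one_mem B
  · intro z hz y
    rw [Subgroup.mem_bot, ← Subgroup.mem_center_iff.1 (hc hz) y, mul_inv_cancel_right,
      mul_inv_cancel]
  · intro a b
    change f (a * b * a⁻¹ * b⁻¹) ∈ B
    rw [map_mul, map_mul, map_mul, map_inv, map_inv]
    exact hQ _ _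
  · refine compIn_of_simple _ fun T _ ⟨e⟩ => Or.inr (Or.inl ⟨n, h5, h6, h7, ⟨?_⟩⟩)
    exact e.trans ((QuotientGroup.quotientMulEquivOfEq hgk).trans
      ((QuotientGroup.quotientKerEquivOfSurjective g hg).trans eB))

/-- Central extensions of `S_n`. -/
theorem centralGroup_symm {p : ℕ} [hp : Fact p.Prime] (n : ℕ) (h5 : 5 ≤ n) (h6 : n ≠ 6)
    (G : Type) [Group G] [Finite G] (f : G →* Equiv.Perm (Fin n)) (hs : Function.Surjective f)
    (hc : f.ker ≤ Subgroup.center G) (h7 : n = 7 → p = 3 ∨ ¬ 3 ∣ Nat.card f.ker) :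
    CentralGroup p G := by
  refine centralGroup_alt n h5 h6 G _ (alternatingGroup (Fin n)) (MulEquiv.refl _) ?_ f hs hc h7
  intro a b
  rw [Equiv.Perm.mem_alternatingGroup, map_mul, map_mul, map_mul, map_inv, map_inv,
    mul_right_comm (Equiv.Perm.sign a), mul_inv_cancel, one_mul, mul_inv_cancel]

/-- Central extensions of `A_n`. -/
theorem centralGroup_altn {p : ℕ} [hp : Fact p.Prime] (n : ℕ) (h5 : 5 ≤ n) (h6 : n ≠ 6)
    (G : Type) [Group G] [Finite G] (f : G →* alternatingGroup (Fin n))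
    (hs : Function.Surjective f)
    (hc : f.ker ≤ Subgroup.center G) (h7 : n = 7 → p = 3 ∨ ¬ 3 ∣ Nat.card f.ker) :
    CentralGroup p G :=
  centralGroup_alt n h5 h6 G _ ⊤ Subgroup.topEquiv (fun _ _ => Subgroup.mem_top _) f hs hc h7

end Pool.Agent.K7.H53.CE
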