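import Pool.Agent.K7.H53.CE.Odd

/-!
# Central extensions of powers of alternating groups
-/

set_option autoImplicit false
set_option linter.unusedSectionVars false
set_option linter.unusedVariables false

open Equiv
open scoped commutatorElement

namespace Pool.Agent.K7.H53.CE

open Pool.Agent.K7.H53.DB

section gen

/-- Two homomorphisms from a perfect group which agree modulo the centre are equal. -/
theorem hom_eq {G N : Type} [Group G] [Group N] (hG : commutator G = ⊤) (f g : G →* N)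
    (hc : ∀ a, (f a)⁻¹ * g a ∈ Subgroup.center N) : f = g := by
  let c : G →* Subgroup.center N :=
    { toFun := fun a => ⟨(f a)⁻¹ * g a, hc a⟩
      map_one' := Subtype.ext (by
        change (f 1)⁻¹ * g 1 = 1
        rw [map_one, map_one, inv_one, one_mul])
      map_mul' := fun a b => by
        apply Subtype.ext
        change (f (a * b))⁻¹ * g (a * b) = ((f a)⁻¹ * g a) * ((f b)⁻¹ * g b)
        have h2 := Subgroup.mem_center_iff.1 (hc a) (f b)⁻¹
        rw [map_mul, map_mul, mul_inv_rev]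
        calc (f b)⁻¹ * (f a)⁻¹ * (g a * g b) = (f b)⁻¹ * ((f a)⁻¹ * g a) * g b := by
              simp only [mul_assoc]
          _ = ((f a)⁻¹ * g a) * (f b)⁻¹ * g b := by rw [h2]
          _ = _ := by simp only [mul_assoc] }
  have h1 : commutator G ≤ c.ker := by
    rw [commutator_def, Subgroup.commutator_le]
    intro a _ b _
    rw [MonoidHom.mem_ker, map_commutatorElement, commutatorElement_eq_one_iff_mul_comm]
    exact Subtype.ext (Subgroup.mem_center_iff.1 (c b).2 (c a))
  rw [hG] at h1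
  apply MonoidHom.ext
  intro a
  have h2 : c a = 1 := h1 (Subgroup.mem_top a)
  have h3 : (f a)⁻¹ * g a = 1 := congrArg Subtype.val h2
  exact inv_mul_eq_one.1 h3

theorem pi_ext {k : ℕ} {T N : Type} [Group T] [Group N] (f g : (Fin k → T) →* N)
    (h : ∀ i t, f (Pi.mulSingle i t) = g (Pi.mulSingle i t)) : f = g := by
  apply MonoidHom.ext
  intro x
  have h1 : x ∈ MonoidHom.eqLocus f g :=
    Subgroup.pi_mem_of_mulSingle_mem (H := MonoidHom.eqLocus f g) x fun i => h i _
  exact h1

theorem pi_hom_eq {k : ℕ} {T N : Type} [Group T] [Group N] (hT : commutator T = ⊤)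
    (f g : (Fin k → T) →* N) (hc : ∀ a, (f a)⁻¹ * g a ∈ Subgroup.center N) : f = g := by
  refine pi_ext f g fun i t => ?_
  have h1 := hom_eq hT (f.comp (MonoidHom.mulSingle (fun _ : Fin k => T) i))
    (g.comp (MonoidHom.mulSingle (fun _ : Fin k => T) i)) fun a => hc _
  exact DFunLike.congr_fun h1 t

theorem comm_central {M : Type} [Group M] {d1 d2 z1 z2 : M} (h1 : z1 ∈ Subgroup.center M)
    (h2 : z2 ∈ Subgroup.center M) : ⁅d1 * z1, d2 * z2⁆ = ⁅d1, d2⁆ := by
  have c1 := Subgroup.mem_center_iff.1 h1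
  have c2 := Subgroup.mem_center_iff.1 h2
  rw [commutatorElement_def, commutatorElement_def, mul_inv_rev, mul_inv_rev]
  have e1 : d1 * z1 * (d2 * z2) * (z1⁻¹ * d1⁻¹) * (z2⁻¹ * d2⁻¹) =
      d1 * (z1 * (d2 * (z2 * z1⁻¹))) * d1⁻¹ * (z2⁻¹ * d2⁻¹) := by simp only [mul_assoc]
  have e2 : z1 * (d2 * (z2 * z1⁻¹)) = d2 * z2 := by
    rw [← c1 (d2 * (z2 * z1⁻¹)), mul_assoc, mul_assoc, inv_mul_cancel, mul_one]
  rw [e1, e2]
  have e3 : d1 * (d2 * z2) * d1⁻¹ * (z2⁻¹ * d2⁻¹) = d1 * d2 * (z2 * (d1⁻¹ * z2⁻¹)) * d2⁻¹ := by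
    simp only [mul_assoc]
  have e4 : z2 * (d1⁻¹ * z2⁻¹) = d1⁻¹ := by
    rw [← c2 (d1⁻¹ * z2⁻¹), mul_assoc, inv_mul_cancel, mul_one]
  rw [e3, e4]

/-- Quotients of perfect groups. -/
theorem perfect_quot {G N : Type} [Group G] [Group N] (hG : commutator G = ⊤) (f : G →* N)
    (hf : Function.Surjective f) : commutator N = ⊤ := by
  have h1 : (commutator G).map f = commutator N := by
    rw [commutator_def, commutator_def, Subgroup.map_commutator,
      Subgroup.map_top_of_surjective _ hf]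
  rw [← h1, hG, Subgroup.map_top_of_surjective _ hf]

end gen

section red

variable {n : ℕ} {M : Type} [Group M] [Finite M] (f : M →* alternatingGroup (Fin n))
    (hs : Function.Surjective f) (hc : f.ker ≤ Subgroup.center M)

include hs hc in
/-- Perfect central extensions have kernels of order prime to 3. -/
theorem not_three (hn : n = 5 ∨ 8 ≤ n) (hperf : commutator M = ⊤) : ¬ 3 ∣ Nat.card f.ker := by
  intro h3
  let W : Subgroup M :=
    { carrier := {w | ∃ z ∈ f.ker, z ^ 3 = w}
      mul_mem' := by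
        rintro _ _ ⟨z, hz, rfl⟩ ⟨z', hz', rfl⟩
        refine ⟨z * z', mul_mem hz hz', ?_⟩
        have h4 : Commute z z' := Subgroup.mem_center_iff.1 (hc hz') z
        exact h4.mul_pow 3
      one_mem' := ⟨1, one_mem _, one_pow 3⟩
      inv_mem' := by
        rintro _ ⟨z, hz, rfl⟩
        exact ⟨z⁻¹, inv_mem hz, inv_pow z 3⟩ }
  have hWk : W ≤ f.ker := by
    rintro _ ⟨z, hz, rfl⟩
    exact pow_mem hz 3
  have hWn : W.Normal := ⟨fun w hw g => by
    rw [Subgroup.mem_center_iff.1 (hc (hWk hw)) g, mul_inv_cancel_right]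
    exact hw⟩
  let g : M ⧸ W →* alternatingGroup (Fin n) := QuotientGroup.lift W f hWk
  have hg : Function.Surjective g := by
    intro x
    obtain ⟨m, rfl⟩ := hs x
    exact ⟨QuotientGroup.mk m, rfl⟩
  have hgk : ∀ x ∈ g.ker, ∃ z ∈ f.ker, (QuotientGroup.mk z : M ⧸ W) = x := by
    intro x hx
    obtain ⟨m, rfl⟩ := QuotientGroup.mk_surjective x
    exact ⟨m, hx, rfl⟩
  have hgc : g.ker ≤ Subgroup.center (M ⧸ W) := by
    intro x hx
    obtain ⟨z, hz, rfl⟩ := hgk x hx
    rw [Subgroup.mem_center_iff]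
    intro y
    obtain ⟨m, rfl⟩ := QuotientGroup.mk_surjective y
    rw [← QuotientGroup.mk_mul, ← QuotientGroup.mk_mul, Subgroup.mem_center_iff.1 (hc hz) m]
  have hg2 : ¬ 2 ∣ Nat.card g.ker := by
    intro h2
    have : Fact (Nat.Prime 2) := ⟨Nat.prime_two⟩
    obtain ⟨x, hx⟩ := exists_prime_orderOf_dvd_card' 2 h2
    obtain ⟨z, hz, hzx⟩ := hgk x x.2
    have h4 : (x : M ⧸ W) ^ 3 = 1 := by
      rw [← hzx, ← QuotientGroup.mk_pow]
      exact (QuotientGroup.eq_one_iff _).2 ⟨z, hz, rfl⟩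
    have h5 : x ^ 3 = 1 := Subtype.ext h4
    have h6 := orderOf_dvd_of_pow_eq_one h5
    rw [hx] at h6
    omega
  have h4 := ker_trivial g hg hgc hg2 hn
    (perfect_quot hperf (QuotientGroup.mk' W) (QuotientGroup.mk'_surjective W))
  have h5 : ∀ z ∈ f.ker, z ∈ W := by
    intro z hz
    have h6 : (QuotientGroup.mk z : M ⧸ W) ∈ g.ker := hz
    rw [h4, Subgroup.mem_bot] at h6
    exact (QuotientGroup.eq_one_iff z).1 h6
  have : Fact (Nat.Prime 3) := ⟨Nat.prime_three⟩
  obtain ⟨x, hx⟩ := exists_prime_orderOf_dvd_card' 3 h3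
  have h6 : Function.Surjective (fun z : f.ker => z ^ 3) := by
    intro z
    obtain ⟨y, hy, hyz⟩ := h5 z z.2
    exact ⟨⟨y, hy⟩, Subtype.ext hyz⟩
  have h7 : Function.Injective (fun z : f.ker => z ^ 3) := Finite.injective_iff_surjective.2 h6
  have h8 : x = 1 := by
    apply h7
    change x ^ 3 = 1 ^ 3
    rw [← hx, pow_orderOf_eq_one, hx, one_pow]
  rw [h8, orderOf_one] at hx
  omega

include hs hc in
/-- **Homomorphisms from the double cover**, general form. -/
theorem exists_hom' (h5 : 5 ≤ n) (hn : n = 5 ∨ 8 ≤ n ∨ ¬ 3 ∣ Nat.card f.ker) (F : Type) [Field F]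
    (h2 : (2 : F) ≠ 0) : ∃ φ : TA n F →* M, ∀ t, f (φ t) = rh n F t := by
  by_cases hn' : n = 5 ∨ 8 ≤ n
  swap
  · exact exists_hom f hs hc (by tauto) h5 F h2
  let P := commutator M
  have hPs : ∀ x, ∃ m ∈ P, f m = x := by
    intro x
    have h1 : P.map f = ⊤ := by
      change (commutator M).map f = ⊤
      rw [commutator_def, Subgroup.map_commutator, Subgroup.map_top_of_surjective _ hs,
        ← commutator_def]
      exact commutator_alternatingGroup_eq_top (by
        rwa [Nat.card_eq_fintype_card, Fintype.card_fin])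
    have h3 : x ∈ P.map f := by
      rw [h1]
      exact Subgroup.mem_top x
    exact h3
  have hPP : P ≤ ⁅P, P⁆ := by
    change commutator M ≤ _
    rw [commutator_def, Subgroup.commutator_le]
    intro u _ v _
    have hsplit : ∀ u : M, ∃ d ∈ P, ∃ z ∈ f.ker, u = d * z := by
      intro u
      obtain ⟨d, hd, hdu⟩ := hPs (f u)
      refine ⟨d, hd, d⁻¹ * u, ?_, (mul_inv_cancel_left _ _).symm⟩
      rw [MonoidHom.mem_ker, map_mul, map_inv, hdu, inv_mul_cancel]
    obtain ⟨d1, hd1, z1, hz1, rfl⟩ := hsplit u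
    obtain ⟨d2, hd2, z2, hz2, rfl⟩ := hsplit v
    rw [comm_central (hc hz1) (hc hz2)]
    exact Subgroup.commutator_mem_commutator hd1 hd2
  have hperf : commutator P = ⊤ := by
    rw [eq_top_iff]
    intro x _
    have h1 : (commutator P).map P.subtype = ⁅P, P⁆ := by
      rw [commutator_def, Subgroup.map_commutator, ← MonoidHom.range_eq_map,
        Subgroup.range_subtype]
    have h3 := hPP x.2
    rw [← h1] at h3
    obtain ⟨y, hy, hyx⟩ := h3
    have h4 : y = x := Subtype.ext hyx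
    rw [← h4]
    exact hy
  let g : P →* alternatingGroup (Fin n) := f.comp P.subtype
  have hg : Function.Surjective g := by
    intro x
    obtain ⟨m, hm, hmx⟩ := hPs x
    exact ⟨⟨m, hm⟩, hmx⟩
  have hgc : g.ker ≤ Subgroup.center P := by
    intro x hx
    rw [Subgroup.mem_center_iff]
    intro y
    exact Subtype.ext (Subgroup.mem_center_iff.1 (hc (show (x : M) ∈ f.ker from hx)) y)
  obtain ⟨φ, hφ⟩ := exists_hom g hg hgc (not_three g hg hgc hn' hperf) h5 F h2
  exact ⟨P.subtype.comp φ, hφ⟩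

end red

/-- **Uniqueness of the double cover.** -/
theorem unique_cover {n : ℕ} (h5 : 5 ≤ n) (F : Type) [Field F] (h2 : (2 : F) ≠ 0) (T : Type)
    [Group T] [Finite T] (hT : commutator T = ⊤) (f : T →* alternatingGroup (Fin n))
    (hs : Function.Surjective f) (hc : f.ker ≤ Subgroup.center T) (h3 : Nat.card f.ker = 2) :
    Nonempty (TA n F ≃* T) := by
  obtain ⟨φ, hφ⟩ := exists_hom f hs hc (by rw [h3]; norm_num) h5 F h2
  have hfin := finite_TA n h2
  have hr : φ.range = ⊤ := by
    rw [eq_top_iff, ← hT, commutator_def, Subgroup.commutator_le]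
    intro u _ v _
    have hsplit : ∀ u : T, ∃ d ∈ φ.range, ∃ z ∈ f.ker, u = d * z := by
      intro u
      obtain ⟨t, ht⟩ := rh_surj n h2 (f u)
      refine ⟨φ t, ⟨t, rfl⟩, (φ t)⁻¹ * u, ?_, (mul_inv_cancel_left _ _).symm⟩
      rw [MonoidHom.mem_ker, map_mul, map_inv, hφ, ht, inv_mul_cancel]
    obtain ⟨d1, hd1, z1, hz1, rfl⟩ := hsplit u
    obtain ⟨d2, hd2, z2, hz2, rfl⟩ := hsplit v
    rw [comm_central (hc hz1) (hc hz2), commutatorElement_def]
    exact mul_mem (mul_mem (mul_mem hd1 hd2) (inv_mem hd1)) (inv_mem hd2)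
  have hcard : Nat.card (TA n F) ≤ Nat.card T := by
    rw [card_ker_range f, h3, card_ker_range (rh n F), card_ker_rh h2,
      MonoidHom.range_eq_top.2 hs, MonoidHom.range_eq_top.2 (rh_surj n h2)]
  exact ⟨MulEquiv.ofBijective φ
    (Function.Surjective.bijective_of_nat_card_le (MonoidHom.range_eq_top.1 hr) hcard)⟩

section pow

variable {n k : ℕ} {N : Type} [Group N] [Finite N] (f : N →* (Fin k → alternatingGroup (Fin n)))
    (hs : Function.Surjective f) (hc : f.ker ≤ Subgroup.center N)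

include hs hc in
/-- **Homomorphisms from powers of the double cover.** -/
theorem exists_pow (h5 : 5 ≤ n) (hn : n = 5 ∨ 8 ≤ n ∨ ¬ 3 ∣ Nat.card f.ker) (F : Type) [Field F]
    (h2 : (2 : F) ≠ 0) : ∃ Φ : (Fin k → TA n F) →* N, ∀ x i, f (Φ x) i = rh n F (x i) := by
  classical
  have h1 : ∀ i : Fin k, ∃ φ : TA n F →* N, ∀ t, f (φ t) = Pi.mulSingle i (rh n F t) := by
    intro i
    let Ni : Subgroup N := (MonoidHom.mulSingle (fun _ : Fin k => alternatingGroup (Fin n)) i).range.comap f
    let g : Ni →* alternatingGroup (Fin n) := ((Pi.evalMonoidHom _ i).comp f).comp Ni.subtype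
    have hval : ∀ y : Ni, f y = Pi.mulSingle i (g y) := by
      rintro ⟨y, t, ht⟩
      have h3 : f y = Pi.mulSingle i t := ht.symm
      change f y = Pi.mulSingle i (f y i)
      rw [h3, Pi.mulSingle_eq_same]
    have hg : Function.Surjective g := by
      intro t
      obtain ⟨y, hy⟩ := hs (Pi.mulSingle i t)
      refine ⟨⟨y, ⟨t, hy.symm⟩⟩, ?_⟩
      change f y i = t
      rw [hy, Pi.mulSingle_eq_same]
    have hk : ∀ y : Ni, y ∈ g.ker → (y : N) ∈ f.ker := by
      intro y hy
      rw [MonoidHom.mem_ker, hval y, hy, Pi.mulSingle_one]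
    have hgc : g.ker ≤ Subgroup.center Ni := by
      intro x hx
      rw [Subgroup.mem_center_iff]
      intro y
      exact Subtype.ext (Subgroup.mem_center_iff.1 (hc (hk x hx)) y)
    let ρ : g.ker →* f.ker := (Ni.subtype.comp g.ker.subtype).codRestrict f.ker fun x => hk x x.2
    have hρ : Function.Injective ρ := by
      intro x y hxy
      exact Subtype.ext (Subtype.ext (congrArg (fun t : f.ker => (t : N)) hxy))
    have hn' : n = 5 ∨ 8 ≤ n ∨ ¬ 3 ∣ Nat.card g.ker := by
      rcases hn with hn | hn | hn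
      · exact Or.inl hn
      · exact Or.inr (Or.inl hn)
      · exact Or.inr (Or.inr fun h => hn (h.trans (Subgroup.card_dvd_of_injective ρ hρ)))
    obtain ⟨φ, hφ⟩ := exists_hom' g hg hgc h5 hn' F h2
    refine ⟨Ni.subtype.comp φ, fun t => ?_⟩
    change f (φ t) = _
    rw [hval, hφ]
  choose φ hφ using h1
  have hcomm : Pairwise fun i j => ∀ x y, Commute (φ i x) (φ j y) := by
    intro i j hij x y
    have h3 : φ j = (MulAut.conj (φ i x)).toMonoidHom.comp (φ j) := by
      refine hom_eq (perfect n h2 h5) _ _ fun t => hc ?_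
      rw [MonoidHom.mem_ker]
      change f ((φ j t)⁻¹ * (φ i x * φ j t * (φ i x)⁻¹)) = 1
      rw [map_mul, map_mul, map_mul, map_inv, map_inv, hφ, hφ]
      have h4 := Pi.mulSingle_commute (f := fun _ : Fin k => alternatingGroup (Fin n)) hij
        (rh n F x) (rh n F t)
      rw [h4.eq, mul_inv_cancel_right, inv_mul_cancel]
    have h4 := DFunLike.congr_fun h3 y
    change φ j y = φ i x * φ j y * (φ i x)⁻¹ at h4
    rw [eq_mul_inv_iff_mul_eq] at h4
    exact h4.symm
  let Φ := MonoidHom.noncommPiCoprod φ hcomm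
  have hΦ : f.comp Φ = (rh n F).compLeft (Fin k) := by
    refine pi_ext _ _ fun i t => ?_
    change f (Φ (Pi.mulSingle i t)) = _
    rw [MonoidHom.noncommPiCoprod_mulSingle, hφ]
    funext j
    change _ = rh n F ((Pi.mulSingle i t : Fin k → TA n F) j)
    by_cases hj : j = i
    · subst hj
      rw [Pi.mulSingle_eq_same, Pi.mulSingle_eq_same]
    · rw [Pi.mulSingle_eq_of_ne hj, Pi.mulSingle_eq_of_ne hj, map_one]
  refine ⟨Φ, fun x i => ?_⟩
  have h3 := DFunLike.congr_fun hΦ x
  exact congrFun h3 i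

end pow

end Pool.Agent.K7.H53.CE
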