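import Mathlib

/-!
# Central extensions of `SL_2(F)` with kernels of order prime to the characteristic
-/

set_option autoImplicit false
set_option linter.unusedSectionVars false

open Matrix

namespace Pool.Agent.K7.H53.CE.S2

section lift

variable {p : ℕ} [hp : Fact p.Prime] {M Q : Type} [Group M] [Finite M] [Group Q] (f : M →* Q)
  (hs : Function.Surjective f) (hc : f.ker ≤ Subgroup.center M) (hk : ¬ p ∣ Nat.card f.ker)

theorem pow_ker (z : M) (hz : z ∈ f.ker) : z ^ Nat.card f.ker = 1 := by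
  have h1 : (⟨z, hz⟩ : f.ker) ^ Nat.card f.ker = 1 := pow_card_eq_one'
  exact congrArg Subtype.val h1

include hs hk in
theorem exists_lift (q : Q) (hq : q ^ p = 1) : ∃ m, f m = q ∧ m ^ p = 1 := by
  obtain ⟨m, rfl⟩ := hs q
  have hco : Nat.Coprime p (Nat.card f.ker) := (Nat.Prime.coprime_iff_not_dvd hp.out).2 hk
  obtain ⟨e, he1, he0⟩ := Nat.chineseRemainder hco 1 0
  refine ⟨m ^ e, ?_, ?_⟩
  · rw [map_pow]
    have h1 : f m ^ e = f m ^ 1 := pow_eq_pow_of_modEq he1 hq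
    rw [h1, pow_one]
  · obtain ⟨k, hk'⟩ := (Nat.modEq_zero_iff_dvd).1 he0
    have h1 : m ^ p ∈ f.ker := by rw [MonoidHom.mem_ker, map_pow, hq]
    rw [← pow_mul, mul_comm, pow_mul, hk', pow_mul, pow_ker f _ h1, one_pow]

include hc hk in
theorem lift_unique (m m' : M) (h : f m = f m') (hm : m ^ p = 1) (hm' : m' ^ p = 1) : m = m' := by
  have h1 : m⁻¹ * m' ∈ f.ker := by rw [MonoidHom.mem_ker, map_mul, map_inv, h, inv_mul_cancel]
  have h2 : Commute m (m⁻¹ * m') := Subgroup.mem_center_iff.1 (hc h1) m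
  have h3 : (m * (m⁻¹ * m')) ^ p = 1 := by rwa [mul_inv_cancel_left]
  rw [h2.mul_pow, hm, one_mul] at h3
  have h4 := pow_ker f _ h1
  have hco : Nat.Coprime p (Nat.card f.ker) := (Nat.Prime.coprime_iff_not_dvd hp.out).2 hk
  have h5 : orderOf (m⁻¹ * m') ∣ 1 := by
    rw [← hco.gcd_eq_one]
    exact Nat.dvd_gcd (orderOf_dvd_of_pow_eq_one h3) (orderOf_dvd_of_pow_eq_one h4)
  have h6 : m⁻¹ * m' = 1 := orderOf_eq_one_iff.1 (Nat.dvd_one.1 h5)
  exact inv_mul_eq_one.1 h6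

end lift

section mats

variable {F : Type} [Field F]

/-- Upper unipotent matrices. -/
def xm (t : F) : SpecialLinearGroup (Fin 2) F := ⟨!![1, t; 0, 1], by simp [Matrix.det_fin_two]⟩

/-- Lower unipotent matrices. -/
def ym (t : F) : SpecialLinearGroup (Fin 2) F := ⟨!![1, 0; t, 1], by simp [Matrix.det_fin_two]⟩

/-- Diagonal matrices. -/
def hm (u : Fˣ) : SpecialLinearGroup (Fin 2) F :=
  ⟨!![(u : F), 0; 0, ((u⁻¹ : Fˣ) : F)], by simp [Matrix.det_fin_two]⟩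

/-- Antidiagonal matrices. -/
def wm (u : Fˣ) : SpecialLinearGroup (Fin 2) F :=
  ⟨!![0, (u : F); -((u⁻¹ : Fˣ) : F), 0], by simp [Matrix.det_fin_two]⟩

theorem xm_add (s t : F) : xm (s + t) = xm s * xm t := by
  apply Subtype.ext
  change !![1, s + t; 0, 1] = !![1, s; 0, 1] * !![1, t; 0, 1]
  ext i j
  fin_cases i <;> fin_cases j <;> simp [Matrix.mul_apply, Fin.sum_univ_two, add_comm]

theorem ym_add (s t : F) : ym (s + t) = ym s * ym t := by
  apply Subtype.ext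
  change !![1, 0; s + t, 1] = !![1, 0; s, 1] * !![1, 0; t, 1]
  ext i j
  fin_cases i <;> fin_cases j <;> simp [Matrix.mul_apply, Fin.sum_univ_two]

theorem xm_zero : xm (0 : F) = 1 := by
  apply Subtype.ext
  change !![1, (0 : F); 0, 1] = 1
  ext i j
  fin_cases i <;> fin_cases j <;> simp

theorem ym_zero : ym (0 : F) = 1 := by
  apply Subtype.ext
  change !![1, 0; (0 : F), 1] = 1
  ext i j
  fin_cases i <;> fin_cases j <;> simp

theorem xm_pow (t : F) (n : ℕ) : xm t ^ n = xm (n * t) := by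
  induction n with
  | zero => rw [pow_zero, Nat.cast_zero, zero_mul, xm_zero]
  | succ n ih => rw [pow_succ, ih, ← xm_add]; congr 1; push_cast; ring

theorem ym_pow (t : F) (n : ℕ) : ym t ^ n = ym (n * t) := by
  induction n with
  | zero => rw [pow_zero, Nat.cast_zero, zero_mul, ym_zero]
  | succ n ih => rw [pow_succ, ih, ← ym_add]; congr 1; push_cast; ring

theorem wm_eq (u : Fˣ) : wm u = xm (u : F) * ym (-((u⁻¹ : Fˣ) : F)) * xm (u : F) := by
  apply Subtype.ext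
  change !![0, (u : F); -((u⁻¹ : Fˣ) : F), 0] =
    !![1, (u : F); 0, 1] * !![1, 0; -((u⁻¹ : Fˣ) : F), 1] * !![1, (u : F); 0, 1]
  ext i j
  fin_cases i <;> fin_cases j <;> simp [Matrix.mul_apply, Fin.sum_univ_two]

theorem wm_xm (u : Fˣ) (t : F) :
    wm u * xm t = ym (-(((u⁻¹ : Fˣ) : F) * ((u⁻¹ : Fˣ) : F) * t)) * wm u := by
  apply Subtype.ext
  change !![0, (u : F); -((u⁻¹ : Fˣ) : F), 0] * !![1, t; 0, 1] =
    !![1, 0; -(((u⁻¹ : Fˣ) : F) * ((u⁻¹ : Fˣ) : F) * t), 1] *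
      !![0, (u : F); -((u⁻¹ : Fˣ) : F), 0]
  ext i j
  fin_cases i <;> fin_cases j <;> simp [Matrix.mul_apply, Fin.sum_univ_two]
  field_simp

theorem wm_ym (u : Fˣ) (t : F) :
    wm u * ym t = xm (-((u : F) * (u : F) * t)) * wm u := by
  apply Subtype.ext
  change !![0, (u : F); -((u⁻¹ : Fˣ) : F), 0] * !![1, 0; t, 1] =
    !![1, -((u : F) * (u : F) * t); 0, 1] * !![0, (u : F); -((u⁻¹ : Fˣ) : F), 0]
  ext i j
  fin_cases i <;> fin_cases j <;> simp [Matrix.mul_apply, Fin.sum_univ_two]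
  field_simp

theorem hm_xm (u : Fˣ) (t : F) :
    hm u * xm t = xm ((u : F) * (u : F) * t) * hm u := by
  apply Subtype.ext
  change !![(u : F), 0; 0, ((u⁻¹ : Fˣ) : F)] * !![1, t; 0, 1] =
    !![1, (u : F) * (u : F) * t; 0, 1] * !![(u : F), 0; 0, ((u⁻¹ : Fˣ) : F)]
  ext i j
  fin_cases i <;> fin_cases j <;> simp [Matrix.mul_apply, Fin.sum_univ_two]
  field_simp

theorem hm_ym (u : Fˣ) (t : F) :
    hm u * ym t = ym (((u⁻¹ : Fˣ) : F) * ((u⁻¹ : Fˣ) : F) * t) * hm u := by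
  apply Subtype.ext
  change !![(u : F), 0; 0, ((u⁻¹ : Fˣ) : F)] * !![1, 0; t, 1] =
    !![1, 0; ((u⁻¹ : Fˣ) : F) * ((u⁻¹ : Fˣ) : F) * t, 1] * !![(u : F), 0; 0, ((u⁻¹ : Fˣ) : F)]
  ext i j
  fin_cases i <;> fin_cases j <;> simp [Matrix.mul_apply, Fin.sum_univ_two]
  field_simp

theorem hm_eq (u : Fˣ) : hm u * wm 1 = wm u := by
  apply Subtype.ext
  change !![(u : F), 0; 0, ((u⁻¹ : Fˣ) : F)] * !![0, ((1 : Fˣ) : F); -(((1 : Fˣ)⁻¹ : Fˣ) : F), 0] =
    !![0, (u : F); -((u⁻¹ : Fˣ) : F), 0]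
  ext i j
  fin_cases i <;> fin_cases j <;> simp [Matrix.mul_apply, Fin.sum_univ_two]

/-- The diagonal matrices, as a homomorphism. -/
def hmHom : Fˣ →* SpecialLinearGroup (Fin 2) F where
  toFun := hm
  map_one' := by
    apply Subtype.ext
    change !![((1 : Fˣ) : F), 0; 0, (((1 : Fˣ)⁻¹ : Fˣ) : F)] = 1
    ext i j
    fin_cases i <;> fin_cases j <;> simp
  map_mul' u v := by
    apply Subtype.ext
    change !![((u * v : Fˣ) : F), 0; 0, (((u * v)⁻¹ : Fˣ) : F)] =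
      !![(u : F), 0; 0, ((u⁻¹ : Fˣ) : F)] * !![(v : F), 0; 0, ((v⁻¹ : Fˣ) : F)]
    ext i j
    fin_cases i <;> fin_cases j <;> simp [Matrix.mul_apply, Fin.sum_univ_two, mul_comm]

end mats

/-- Lifts of the root subgroups to a central extension. -/
structure Dat (p : ℕ) (F M : Type) [Field F] [Group M] where
  /-- the epimorphism -/
  f : M →* SpecialLinearGroup (Fin 2) F
  /-- the lift of the upper unipotent matrices -/
  X : F → M
  /-- the lift of the lower unipotent matrices -/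
  Y : F → M
  fX : ∀ t, f (X t) = xm t
  fY : ∀ t, f (Y t) = ym t
  Xp : ∀ t, X t ^ p = 1
  Yp : ∀ t, Y t ^ p = 1
  uniq : ∀ m m' : M, f m = f m' → m ^ p = 1 → m' ^ p = 1 → m = m'
  cen : f.ker ≤ Subgroup.center M

namespace Dat

variable {p : ℕ} {F M : Type} [Field F] [Group M] (d : Dat p F M)

theorem semi {m a b : M} (ha : a ^ p = 1) (hb : b ^ p = 1)
    (h : d.f m * d.f a = d.f b * d.f m) : m * a = b * m := by
  have h1 : m * a * m⁻¹ = b := by
    refine d.uniq _ _ ?_ ?_ hb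
    · rw [map_mul, map_mul, map_inv, h, mul_inv_cancel_right]
    · rw [conj_pow, ha, mul_one, mul_inv_cancel]
  rw [← h1, inv_mul_cancel_right]

theorem X_comm (s t : F) : d.X s * d.X t = d.X t * d.X s :=
  d.semi (d.Xp t) (d.Xp t) (by rw [d.fX, d.fX, ← xm_add, ← xm_add, add_comm])

theorem Y_comm (s t : F) : d.Y s * d.Y t = d.Y t * d.Y s :=
  d.semi (d.Yp t) (d.Yp t) (by rw [d.fY, d.fY, ← ym_add, ← ym_add, add_comm])

theorem X_add (s t : F) : d.X (s + t) = d.X s * d.X t := by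
  refine d.uniq _ _ ?_ (d.Xp _) ?_
  · rw [map_mul, d.fX, d.fX, d.fX, xm_add]
  · have h1 : Commute (d.X s) (d.X t) := d.X_comm s t
    rw [h1.mul_pow, d.Xp, d.Xp, one_mul]

theorem Y_add (s t : F) : d.Y (s + t) = d.Y s * d.Y t := by
  refine d.uniq _ _ ?_ (d.Yp _) ?_
  · rw [map_mul, d.fY, d.fY, d.fY, ym_add]
  · have h1 : Commute (d.Y s) (d.Y t) := d.Y_comm s t
    rw [h1.mul_pow, d.Yp, d.Yp, one_mul]

theorem X_zero : d.X 0 = 1 := by
  have h := d.X_add 0 0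
  rw [add_zero] at h
  exact (mul_eq_left.1 h.symm)

theorem Y_zero : d.Y 0 = 1 := by
  have h := d.Y_add 0 0
  rw [add_zero] at h
  exact (mul_eq_left.1 h.symm)

theorem X_neg (t : F) : d.X (-t) = (d.X t)⁻¹ := by
  rw [eq_inv_iff_mul_eq_one, ← d.X_add, neg_add_cancel, d.X_zero]

/-- The lifts of the antidiagonal matrices. -/
def w (u : Fˣ) : M := d.X (u : F) * d.Y (-((u⁻¹ : Fˣ) : F)) * d.X (u : F)

theorem f_w (u : Fˣ) : d.f (d.w u) = wm u := by
  unfold w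
  rw [map_mul, map_mul, d.fX, d.fY, wm_eq]

theorem w_X (u : Fˣ) (t : F) :
    d.w u * d.X t = d.Y (-(((u⁻¹ : Fˣ) : F) * ((u⁻¹ : Fˣ) : F) * t)) * d.w u :=
  d.semi (d.Xp _) (d.Yp _) (by rw [d.f_w, d.fX, d.fY, wm_xm])

theorem w_Y (u : Fˣ) (t : F) :
    d.w u * d.Y t = d.X (-((u : F) * (u : F) * t)) * d.w u :=
  d.semi (d.Yp _) (d.Xp _) (by rw [d.f_w, d.fX, d.fY, wm_ym])

theorem w_neg (u : Fˣ) : d.w (-u) = (d.w u)⁻¹ := by
  rw [eq_inv_iff_mul_eq_one]
  unfold w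
  have h1 : ((-u : Fˣ) : F) = -(u : F) := Units.val_neg u
  have h2 : (((-u)⁻¹ : Fˣ) : F) = -((u⁻¹ : Fˣ) : F) := by
    rw [inv_neg, Units.val_neg]
  rw [h1, h2, neg_neg]
  have e : d.X (-(u : F)) * d.Y ((u⁻¹ : Fˣ) : F) * d.X (-(u : F)) *
      (d.X (u : F) * d.Y (-((u⁻¹ : Fˣ) : F)) * d.X (u : F)) =
      d.X (-(u : F)) * (d.Y ((u⁻¹ : Fˣ) : F) * (d.X (-(u : F)) *
      d.X (u : F)) * d.Y (-((u⁻¹ : Fˣ) : F))) * d.X (u : F) := by simp only [mul_assoc]
  rw [e, ← d.X_add, neg_add_cancel, d.X_zero, mul_one, ← d.Y_add, add_neg_cancel, d.Y_zero,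
    mul_one, ← d.X_add, neg_add_cancel, d.X_zero]

theorem w_eq' (u : Fˣ) :
    d.w u = d.Y (-((u⁻¹ : Fˣ) : F)) * d.X (u : F) * d.Y (-((u⁻¹ : Fˣ) : F)) := by
  have h1 : d.w u * d.X (u : F) = d.Y (-((u⁻¹ : Fˣ) : F)) * d.w u := by
    rw [d.w_X]
    congr 2
    rw [mul_assoc, Units.inv_mul, mul_one]
  have h2 : d.w u * d.Y (-((u⁻¹ : Fˣ) : F)) = d.X (u : F) * d.w u := by
    rw [d.w_Y]
    congr 2
    rw [mul_neg, neg_neg, mul_assoc, Units.mul_inv, mul_one]
  have h3 : d.w u * d.w u =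
      d.Y (-((u⁻¹ : Fˣ) : F)) * d.X (u : F) * d.Y (-((u⁻¹ : Fˣ) : F)) * d.w u := by
    calc d.w u * d.w u = d.w u * d.X (u : F) * d.Y (-((u⁻¹ : Fˣ) : F)) * d.X (u : F) := by
          change d.w u * (d.X (u : F) * d.Y (-((u⁻¹ : Fˣ) : F)) * d.X (u : F)) = _
          simp only [mul_assoc]
      _ = d.Y (-((u⁻¹ : Fˣ) : F)) * (d.w u * d.Y (-((u⁻¹ : Fˣ) : F))) * d.X (u : F) := by
          rw [h1]
          simp only [mul_assoc]
      _ = d.Y (-((u⁻¹ : Fˣ) : F)) * d.X (u : F) * (d.w u * d.X (u : F)) := by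
          rw [h2]
          simp only [mul_assoc]
      _ = _ := by
          rw [h1]
          simp only [mul_assoc]
  exact mul_right_cancel h3

/-- The lifts of the diagonal matrices. -/
def h (u : Fˣ) : M := d.w u * (d.w 1)⁻¹

theorem h_w (u : Fˣ) : d.h u * d.w 1 = d.w u := inv_mul_cancel_right _ _

theorem h_one : d.h 1 = 1 := mul_inv_cancel _

theorem f_h (u : Fˣ) : d.f (d.h u) = hm u := by
  unfold h
  rw [map_mul, map_inv, d.f_w, d.f_w, ← hm_eq, mul_inv_cancel_right]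

theorem h_X (u : Fˣ) (t : F) : d.h u * d.X t = d.X ((u : F) * (u : F) * t) * d.h u :=
  d.semi (d.Xp _) (d.Xp _) (by rw [d.f_h, d.fX, d.fX, hm_xm])

theorem h_Y (u : Fˣ) (t : F) :
    d.h u * d.Y t = d.Y (((u⁻¹ : Fˣ) : F) * ((u⁻¹ : Fˣ) : F) * t) * d.h u :=
  d.semi (d.Yp _) (d.Yp _) (by rw [d.f_h, d.fY, d.fY, hm_ym])

theorem h_w' (u v : Fˣ) : d.h u * d.w v = d.w (u * u * v) * d.h u := by
  have e1 : (u : F) * (u : F) * (v : F) = ((u * u * v : Fˣ) : F) := by push_cast; ring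
  have e2 : ((u⁻¹ : Fˣ) : F) * ((u⁻¹ : Fˣ) : F) * -((v⁻¹ : Fˣ) : F) =
      -(((u * u * v)⁻¹ : Fˣ) : F) := by
    rw [_root_.mul_inv_rev, _root_.mul_inv_rev]
    push_cast
    ring
  have h1 := d.h_X u (v : F)
  have h2 := d.h_Y u (-((v⁻¹ : Fˣ) : F))
  rw [e1] at h1
  rw [e2] at h2
  calc d.h u * d.w v = d.h u * d.X (v : F) * d.Y (-((v⁻¹ : Fˣ) : F)) * d.X (v : F) := by
        change d.h u * (d.X (v : F) * d.Y (-((v⁻¹ : Fˣ) : F)) * d.X (v : F)) = _
        simp only [mul_assoc]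
    _ = d.X ((u * u * v : Fˣ) : F) * (d.h u * d.Y (-((v⁻¹ : Fˣ) : F))) * d.X (v : F) := by
        rw [h1]
        simp only [mul_assoc]
    _ = d.X ((u * u * v : Fˣ) : F) * d.Y (-(((u * u * v)⁻¹ : Fˣ) : F)) *
          (d.h u * d.X (v : F)) := by
        rw [h2]
        simp only [mul_assoc]
    _ = d.w (u * u * v) * d.h u := by
        rw [h1, w]
        simp only [mul_assoc]

theorem h_comm [Finite F] (u v : Fˣ) : d.h u * d.h v = d.h v * d.h u := by
  have := Fintype.ofFinite F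
  let T : Subgroup M := (hmHom (F := F)).range.comap d.f
  let g : T →* (hmHom (F := F)).range := (d.f.comp T.subtype).codRestrict _ fun x => x.2
  have hcyc : IsCyclic (hmHom (F := F)).range :=
    isCyclic_of_surjective _ (hmHom (F := F)).rangeRestrict_surjective
  have hg : g.ker ≤ Subgroup.center T := by
    intro x hx
    rw [Subgroup.mem_center_iff]
    intro y
    have h1 : (x : M) ∈ d.f.ker := congrArg Subtype.val (MonoidHom.mem_ker.1 hx)
    exact Subtype.ext (Subgroup.mem_center_iff.1 (d.cen h1) y)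
  have h2 := commutative_of_cyclic_center_quotient g hg ⟨d.h u, ⟨u, (d.f_h u).symm⟩⟩
    ⟨d.h v, ⟨v, (d.f_h v).symm⟩⟩
  exact congrArg Subtype.val h2

theorem h_sq [Finite F] (u v : Fˣ) : d.h (u * u * v) = d.h (u * u) * d.h v := by
  have h1 : d.h u * d.w 1 = d.w (u * u) * d.h u := by
    have h2 := d.h_w' u 1
    rwa [mul_one] at h2
  have h3 : d.h u * (d.w 1)⁻¹ = (d.w (u * u))⁻¹ * d.h u := by
    rw [eq_inv_mul_iff_mul_eq, ← mul_assoc, ← h1, mul_inv_cancel_right]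
  have h4 : d.h u * d.h v = d.w (u * u * v) * (d.w (u * u))⁻¹ * d.h u := by
    change d.h u * (d.w v * (d.w 1)⁻¹) = _
    rw [← mul_assoc, d.h_w', mul_assoc, h3, ← mul_assoc]
  rw [d.h_comm] at h4
  have h5 := mul_right_cancel h4
  rw [d.h_comm, h5, ← d.h_w (u * u * v), ← d.h_w (u * u)]
  rw [_root_.mul_inv_rev]
  simp only [mul_assoc, mul_inv_cancel_left, inv_mul_cancel, mul_one]

/-- The relation of Steinberg. -/
theorem h_stein (a u : Fˣ) (ha : (a : F) * (u : F) = a - 1) :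
    d.h (a * u) = d.h a * d.h u := by
  have hinv : (a : F) * ((a⁻¹ : Fˣ) : F) = 1 := Units.mul_inv a
  have hinvu : (u : F) * ((u⁻¹ : Fˣ) : F) = 1 := Units.mul_inv u
  have hau : (((a * u)⁻¹ : Fˣ) : F) = ((a⁻¹ : Fˣ) : F) * ((u⁻¹ : Fˣ) : F) := by
    rw [mul_inv]
    push_cast
    rfl
  -- `u = 1 - a⁻¹`
  have hu : (u : F) = 1 - ((a⁻¹ : Fˣ) : F) := by
    have h1 : ((a⁻¹ : Fˣ) : F) * ((a : F) * (u : F)) = ((a⁻¹ : Fˣ) : F) * (a - 1) := by rw [ha]
    rw [← mul_assoc, Units.inv_mul, one_mul, mul_sub, Units.inv_mul, mul_one] at h1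
    exact h1
  -- `u⁻¹ = 1 + (a u)⁻¹`
  have hu' : ((u⁻¹ : Fˣ) : F) = 1 + ((a⁻¹ : Fˣ) : F) * ((u⁻¹ : Fˣ) : F) := by
    have h1 : (u : F) * ((u⁻¹ : Fˣ) : F) = (1 - ((a⁻¹ : Fˣ) : F)) * ((u⁻¹ : Fˣ) : F) := by
      rw [← hu]
    rw [hinvu, sub_mul, one_mul] at h1
    rw [h1]
    ring
  have key : d.w (-a) * d.w (a * u) = d.w (-1) * d.w u := by
    have hna : ((-a : Fˣ) : F) = -(a : F) := Units.val_neg a
    have hna' : (((-a)⁻¹ : Fˣ) : F) = -((a⁻¹ : Fˣ) : F) := by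
      rw [inv_neg, Units.val_neg]
    have hb : ((a * u : Fˣ) : F) = a - 1 := by rw [Units.val_mul, ha]
    have hn1 : ((-1 : Fˣ) : F) = -1 := by rw [Units.val_neg, Units.val_one]
    have hn1' : (((-1 : Fˣ)⁻¹ : Fˣ) : F) = -1 := by
      rw [inv_neg, inv_one, Units.val_neg, Units.val_one]
    -- `X (-1) = Y (-1) w (-1) Y (-1)`
    have s1 : d.X (-1) = d.Y (-1) * d.w (-1) * d.Y (-1) := by
      have h1 := d.w_eq' (-1)
      rw [hn1, hn1', neg_neg] at h1
      rw [h1]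
      have e : d.Y (-1) * (d.Y 1 * d.X (-1) * d.Y 1) * d.Y (-1) =
          d.Y (-1) * d.Y 1 * d.X (-1) * (d.Y 1 * d.Y (-1)) := by simp only [mul_assoc]
      rw [e, ← d.Y_add, ← d.Y_add, neg_add_cancel, add_neg_cancel, d.Y_zero, one_mul, mul_one]
    have s2 : ∀ s : F, d.Y s * d.w (-1) = d.w (-1) * d.X (-s) := by
      intro s
      have h1 := d.w_X (-1) (-s)
      rw [hn1'] at h1
      rw [h1]
      congr 2
      ring
    have s3 : ∀ s : F, d.X s * d.w (-1) = d.w (-1) * d.Y (-s) := by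
      intro s
      have h1 := d.w_Y (-1) (-s)
      rw [hn1] at h1
      rw [h1]
      congr 2
      ring
    have s4 : d.X (u : F) * d.Y (-((u⁻¹ : Fˣ) : F)) = d.w u * d.X (-(u : F)) := by
      change _ = d.X (u : F) * d.Y (-((u⁻¹ : Fˣ) : F)) * d.X (u : F) * d.X (-(u : F))
      rw [mul_assoc (d.X (u : F) * d.Y (-((u⁻¹ : Fˣ) : F))), ← d.X_add, add_neg_cancel,
        d.X_zero, mul_one]
    have s5 : d.w u * d.X ((a : F) * (u : F) * (u : F)) = d.Y (-(a : F)) * d.w u := by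
      rw [d.w_X]
      congr 2
      linear_combination (-(a : F)) * ((u : F) * ((u⁻¹ : Fˣ) : F) + 1) * hinvu
    calc d.w (-a) * d.w (a * u)
        = d.X (-(a : F)) * d.Y ((a⁻¹ : Fˣ) : F) * (d.X (-(a : F)) * d.X ((a : F) - 1)) *
          d.Y (-(((a⁻¹ : Fˣ) : F) * ((u⁻¹ : Fˣ) : F))) * d.X ((a : F) - 1) := by
          rw [w, w, hna, hna', hb, hau, neg_neg]
          simp only [mul_assoc]
      _ = d.X (-(a : F)) * (d.Y ((a⁻¹ : Fˣ) : F) * d.Y (-1)) * d.w (-1) *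
          (d.Y (-1) * d.Y (-(((a⁻¹ : Fˣ) : F) * ((u⁻¹ : Fˣ) : F)))) * d.X ((a : F) - 1) := by
          rw [← d.X_add, show -(a : F) + ((a : F) - 1) = -1 by ring, s1]
          simp only [mul_assoc]
      _ = d.X (-(a : F)) * (d.Y (-(u : F)) * d.w (-1)) * d.Y (-((u⁻¹ : Fˣ) : F)) *
          d.X ((a : F) - 1) := by
          rw [← d.Y_add, ← d.Y_add, show ((a⁻¹ : Fˣ) : F) + -1 = -(u : F) by rw [hu]; ring,
            show -1 + -(((a⁻¹ : Fˣ) : F) * ((u⁻¹ : Fˣ) : F)) = -((u⁻¹ : Fˣ) : F) by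
              linear_combination hu']
          simp only [mul_assoc]
      _ = d.X (-(a : F)) * d.w (-1) * (d.X (u : F) * d.Y (-((u⁻¹ : Fˣ) : F))) *
          d.X ((a : F) - 1) := by
          rw [s2, neg_neg]
          simp only [mul_assoc]
      _ = d.w (-1) * d.Y (a : F) * d.w u * (d.X (-(u : F)) * d.X ((a : F) - 1)) := by
          rw [s3, neg_neg, s4]
          simp only [mul_assoc]
      _ = d.w (-1) * d.Y (a : F) * (d.w u * d.X ((a : F) * (u : F) * (u : F))) := by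
          rw [← d.X_add, show -(u : F) + ((a : F) - 1) = (a : F) * (u : F) * (u : F) by
            linear_combination (-(1 + (u : F))) * ha]
          simp only [mul_assoc]
      _ = d.w (-1) * (d.Y (a : F) * d.Y (-(a : F))) * d.w u := by
          rw [s5]
          simp only [mul_assoc]
      _ = d.w (-1) * d.w u := by
          rw [← d.Y_add, add_neg_cancel, d.Y_zero, mul_one]
  rw [d.w_neg, d.w_neg, inv_mul_eq_iff_eq_mul] at key
  change d.w (a * u) * (d.w 1)⁻¹ = d.w a * (d.w 1)⁻¹ * (d.w u * (d.w 1)⁻¹)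
  rw [key]
  simp only [mul_assoc]

/-- The lifts of the diagonal matrices form a group. -/
theorem h_mul [Finite F] (u v : Fˣ) : d.h (u * v) = d.h u * d.h v := by
  have := Fintype.ofFinite F
  have hsq : ∀ u v : Fˣ, IsSquare u → d.h (u * v) = d.h u * d.h v := by
    rintro _ v ⟨r, rfl⟩
    exact d.h_sq r v
  by_cases h2 : ringChar F = 2
  · apply hsq
    obtain ⟨r, hr⟩ := FiniteField.isSquare_of_char_two h2 (u : F)
    have hr0 : r ≠ 0 := by
      rintro rfl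
      rw [mul_zero] at hr
      exact u.ne_zero hr
    exact ⟨Units.mk0 r hr0, Units.ext hr⟩
  · obtain ⟨x, hx⟩ := FiniteField.exists_nonsquare h2
    have hx0 : x ≠ 0 := by
      rintro rfl
      exact hx ⟨0, (mul_zero 0).symm⟩
    -- `b² + c² = x⁻¹`
    obtain ⟨b, c, hbc⟩ : ∃ b c : F, b * b + c * c = x⁻¹ := by
      have hodd := FiniteField.odd_card_of_char_ne_two h2
      obtain ⟨b, c, hbc⟩ := FiniteField.exists_root_sum_quadratic
        (f := (Polynomial.X ^ 2 : Polynomial F))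
        (g := (Polynomial.X ^ 2 - Polynomial.C x⁻¹ : Polynomial F))
        (Polynomial.degree_X_pow 2) (Polynomial.degree_X_pow_sub_C (by norm_num) _) hodd
      refine ⟨b, c, ?_⟩
      simp only [Polynomial.eval_pow, Polynomial.eval_X, Polynomial.eval_sub,
        Polynomial.eval_C] at hbc
      linear_combination hbc
    have hxi : ¬ IsSquare (x⁻¹ : F) := by
      rintro ⟨r, hr⟩
      apply hx
      exact ⟨r⁻¹, by rw [← mul_inv, ← hr, inv_inv]⟩
    have hb0 : b ≠ 0 := by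
      rintro rfl
      apply hxi
      exact ⟨c, by rw [← hbc]; ring⟩
    have hc0 : c ≠ 0 := by
      rintro rfl
      apply hxi
      exact ⟨b, by rw [← hbc]; ring⟩
    -- `a⁻¹ = x b²`, `e = x c²`
    let X0 : Fˣ := Units.mk0 x hx0
    let a : Fˣ := (X0 * (Units.mk0 b hb0 * Units.mk0 b hb0))⁻¹
    let e : Fˣ := X0 * (Units.mk0 c hc0 * Units.mk0 c hc0)
    have hae : (a : F) * (e : F) = a - 1 := by
      change ((X0 * (Units.mk0 b hb0 * Units.mk0 b hb0))⁻¹ : Fˣ) *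
        ((X0 * (Units.mk0 c hc0 * Units.mk0 c hc0) : Fˣ) : F) =
        (((X0 * (Units.mk0 b hb0 * Units.mk0 b hb0))⁻¹ : Fˣ) : F) - 1
      rw [Units.val_inv_eq_inv_val]
      push_cast
      change (x * (b * b))⁻¹ * (x * (c * c)) = (x * (b * b))⁻¹ - 1
      field_simp
      have h3 : x * (b * b + c * c) = 1 := by rw [hbc, mul_inv_cancel₀ hx0]
      linear_combination h3
    have hX : ¬ IsSquare X0 := by
      rintro ⟨r, hr⟩
      exact hx ⟨(r : F), congrArg Units.val hr⟩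
    have hns : ∀ r : Fˣ, ¬ IsSquare (X0 * (r * r)) := by
      rintro r ⟨s, hs⟩
      apply hX
      refine ⟨s * r⁻¹, ?_⟩
      have h3 : X0 = s * s * (r * r)⁻¹ := by rw [← hs, mul_inv_cancel_right]
      rw [h3, _root_.mul_inv_rev]
      exact (mul_mul_mul_comm s r⁻¹ s r⁻¹).symm
    have hna : ¬ IsSquare a := by
      rintro ⟨s, hs⟩
      apply hns (Units.mk0 b hb0)
      refine ⟨s⁻¹, ?_⟩
      rw [← mul_inv, ← hs, inv_inv]
    have hne : ¬ IsSquare e := hns _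
    have hst := d.h_stein a e hae
    by_cases hu : IsSquare u
    · exact hsq u v hu
    by_cases hv : IsSquare v
    · rw [mul_comm, hsq v u hv, d.h_comm]
    -- products and quotients of non-squares are squares
    have hq : ∀ r s : Fˣ, ¬ IsSquare r → ¬ IsSquare s → IsSquare (r * s⁻¹) := by
      intro r s hr hs
      have h3 : ∀ y : Fˣ, ¬ IsSquare y → ¬ IsSquare (y : F) := by
        rintro y hy ⟨z, hz⟩
        have hz0 : z ≠ 0 := by
          rintro rfl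
          rw [mul_zero] at hz
          exact y.ne_zero hz
        exact hy ⟨Units.mk0 z hz0, Units.ext hz⟩
      classical
      have hcr : quadraticChar F (r : F) = -1 :=
        quadraticChar_neg_one_iff_not_isSquare.2 (h3 r hr)
      have hcs : quadraticChar F (s : F) = -1 :=
        quadraticChar_neg_one_iff_not_isSquare.2 (h3 s hs)
      have hcrs : quadraticChar F ((r : F) * s) = 1 := by
        rw [map_mul, hcr, hcs]
        norm_num
      have hne0 : (r : F) * s ≠ 0 := mul_ne_zero r.ne_zero s.ne_zero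
      obtain ⟨z, hz⟩ := (quadraticChar_one_iff_isSquare hne0).1 hcrs
      have hz0 : z ≠ 0 := by
        rintro rfl
        rw [mul_zero] at hz
        exact hne0 hz
      refine ⟨Units.mk0 z hz0 * s⁻¹, ?_⟩
      have h4 : r * s = Units.mk0 z hz0 * Units.mk0 z hz0 := Units.ext hz
      have h5 : r * s⁻¹ = r * s * (s⁻¹ * s⁻¹) := by
        rw [← mul_assoc, mul_inv_cancel_right]
      rw [h5, h4]
      exact (mul_mul_mul_comm _ _ _ _)
    have hs1 := hq u a hu hna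
    have hs2 := hq v e hv hne
    have e1 : u = u * a⁻¹ * a := (inv_mul_cancel_right u a).symm
    have e2 : v = v * e⁻¹ * e := (inv_mul_cancel_right v e).symm
    have e3 : u * v = (u * a⁻¹) * ((v * e⁻¹) * (a * e)) := by
      conv_lhs => rw [e1, e2]
      rw [mul_mul_mul_comm, mul_assoc]
    rw [e3, hsq _ _ hs1, hsq _ _ hs2, hst]
    conv_rhs => rw [e1, e2, hsq _ _ hs1, hsq _ _ hs2]
    have c1 := d.h_comm (v * e⁻¹) a
    calc d.h (u * a⁻¹) * (d.h (v * e⁻¹) * (d.h a * d.h e)) =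
        d.h (u * a⁻¹) * ((d.h (v * e⁻¹) * d.h a) * d.h e) := by simp only [mul_assoc]
      _ = _ := by
        rw [c1]
        simp only [mul_assoc]

theorem h_inv [Finite F] (u : Fˣ) : d.h u⁻¹ = (d.h u)⁻¹ := by
  rw [eq_inv_iff_mul_eq_one, ← d.h_mul, inv_mul_cancel, d.h_one]

theorem w_sq : d.w 1 * d.w 1 = (d.h (-1))⁻¹ := by
  have h1 : d.h (-1) = (d.w 1)⁻¹ * (d.w 1)⁻¹ := by
    unfold h
    rw [d.w_neg]
  rw [h1, _root_.mul_inv_rev, inv_inv]

/-- `w h(u) = h(u⁻¹) w`. -/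
theorem w_h [Finite F] (u : Fˣ) : d.w 1 * d.h u = d.h u⁻¹ * d.w 1 := by
  have h1 : d.w 1 * d.w u = d.w u⁻¹ * d.w 1 := by
    have e1 := d.w_X 1 (u : F)
    have e2 := d.w_Y 1 (-((u⁻¹ : Fˣ) : F))
    rw [inv_one, Units.val_one, one_mul, one_mul] at e1
    rw [Units.val_one, one_mul, one_mul, neg_neg] at e2
    calc d.w 1 * d.w u
        = (d.w 1 * d.X (u : F)) * d.Y (-((u⁻¹ : Fˣ) : F)) * d.X (u : F) := by
          change d.w 1 * (d.X (u : F) * d.Y (-((u⁻¹ : Fˣ) : F)) * d.X (u : F)) = _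
          simp only [mul_assoc]
      _ = d.Y (-(u : F)) * (d.w 1 * d.Y (-((u⁻¹ : Fˣ) : F))) * d.X (u : F) := by
          rw [e1]
          simp only [mul_assoc]
      _ = d.Y (-(u : F)) * d.X ((u⁻¹ : Fˣ) : F) * (d.w 1 * d.X (u : F)) := by
          rw [e2]
          simp only [mul_assoc]
      _ = d.Y (-(u : F)) * d.X ((u⁻¹ : Fˣ) : F) * d.Y (-(u : F)) * d.w 1 := by
          rw [e1]
          simp only [mul_assoc]
      _ = d.w u⁻¹ * d.w 1 := by
          rw [d.w_eq' u⁻¹, inv_inv]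
  change d.w 1 * (d.w u * (d.w 1)⁻¹) = d.w u⁻¹ * (d.w 1)⁻¹ * d.w 1
  rw [← mul_assoc, h1, mul_inv_cancel_right, inv_mul_cancel_right]

theorem X_h [Finite F] (u : Fˣ) (t : F) :
    d.X t * d.h u = d.h u * d.X (((u⁻¹ : Fˣ) : F) * ((u⁻¹ : Fˣ) : F) * t) := by
  rw [d.h_X]
  congr 2
  have h1 : (u : F) * ((u⁻¹ : Fˣ) : F) = 1 := Units.mul_inv u
  linear_combination (-t * ((u : F) * ((u⁻¹ : Fˣ) : F) + 1)) * h1

/-- The Bruhat decomposition. -/
def B : Set M :=
  {m | (∃ (t : F) (u : Fˣ), m = d.X t * d.h u) ∨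
    ∃ (t : F) (u : Fˣ) (s : F), m = d.X t * d.h u * d.w 1 * d.X s}

theorem B_X (t : F) (b : M) (hb : b ∈ d.B) : d.X t * b ∈ d.B := by
  rcases hb with ⟨t', u, rfl⟩ | ⟨t', u, s, rfl⟩
  · exact Or.inl ⟨t + t', u, by rw [d.X_add, mul_assoc]⟩
  · exact Or.inr ⟨t + t', u, s, by rw [d.X_add]; simp only [mul_assoc]⟩

theorem B_h [Finite F] (v : Fˣ) (b : M) (hb : b ∈ d.B) : d.h v * b ∈ d.B := by
  rcases hb with ⟨t', u, rfl⟩ | ⟨t', u, s, rfl⟩
  · exact Or.inl ⟨(v : F) * v * t', v * u, by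
      rw [d.h_mul, ← mul_assoc, ← mul_assoc, d.h_X]⟩
  · exact Or.inr ⟨(v : F) * v * t', v * u, s, by
      rw [d.h_mul]
      simp only [← mul_assoc]
      rw [d.h_X]⟩

theorem B_w [Finite F] (b : M) (hb : b ∈ d.B) : d.w 1 * b ∈ d.B := by
  have hwhw : ∀ u : Fˣ, d.w 1 * d.h u * d.w 1 = d.h (u⁻¹ * (-1)⁻¹) := by
    intro u
    rw [d.w_h, mul_assoc, d.w_sq, ← d.h_inv, ← d.h_mul]
  rcases hb with ⟨t, u, rfl⟩ | ⟨t, u, s, rfl⟩
  · refine Or.inr ⟨0, u⁻¹, ((u⁻¹ : Fˣ) : F) * ((u⁻¹ : Fˣ) : F) * t, ?_⟩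
    rw [d.X_h, ← mul_assoc, d.w_h, d.X_zero, one_mul]
  · by_cases ht : t = 0
    · subst ht
      have h1 : d.w 1 * (d.X 0 * d.h u * d.w 1 * d.X s) =
          d.w 1 * d.h u * d.w 1 * d.X s := by
        rw [d.X_zero, one_mul]
        simp only [mul_assoc]
      rw [h1, hwhw, d.h_X]
      exact Or.inl ⟨_, _, rfl⟩
    · -- `w X(t) = X(-t⁻¹) w(t⁻¹) X(-t⁻¹) w`
      let v : Fˣ := (Units.mk0 t ht)⁻¹
      have hv : ((v⁻¹ : Fˣ) : F) = t := by
        change (((Units.mk0 t ht)⁻¹⁻¹ : Fˣ) : F) = t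
        rw [inv_inv]
        rfl
      have h1 : d.w 1 * d.X t = d.X (-(v : F)) * d.w v * d.X (-(v : F)) * d.w 1 := by
        have e1 := d.w_X 1 t
        rw [inv_one, Units.val_one, one_mul, one_mul] at e1
        rw [e1]
        congr 1
        have e2 : d.w v = d.X (v : F) * d.Y (-t) * d.X (v : F) := by
          change d.X (v : F) * d.Y (-((v⁻¹ : Fˣ) : F)) * d.X (v : F) = _
          rw [hv]
        rw [e2]
        have e3 : d.X (-(v : F)) * (d.X (v : F) * d.Y (-t) * d.X (v : F)) * d.X (-(v : F)) =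
            d.X (-(v : F)) * d.X (v : F) * d.Y (-t) * (d.X (v : F) * d.X (-(v : F))) := by
          simp only [mul_assoc]
        rw [e3, ← d.X_add, ← d.X_add, neg_add_cancel, add_neg_cancel, d.X_zero, one_mul, mul_one]
      have h2 : d.w 1 * (d.X t * d.h u * d.w 1 * d.X s) =
          d.X (-(v : F)) * (d.h v * (d.w 1 * (d.X (-(v : F)) * (d.h (u⁻¹ * (-1)⁻¹) * d.X s)))) := by
        rw [← hwhw, ← d.h_w v] at *
        have e4 : d.w 1 * (d.X t * d.h u * d.w 1 * d.X s) =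
            d.w 1 * d.X t * (d.h u * d.w 1 * d.X s) := by simp only [mul_assoc]
        rw [e4, h1]
        simp only [mul_assoc]
      rw [h2]
      apply d.B_X
      apply d.B_h
      set r := u⁻¹ * (-1)⁻¹ with hr
      have e5 : d.w 1 * (d.X (-(v : F)) * (d.h r * d.X s)) =
          d.w 1 * (d.X (-(v : F) + (r : F) * (r : F) * s) * d.h r) := by
        rw [d.h_X, d.X_add]
        simp only [mul_assoc]
      rw [e5]
      refine Or.inr ⟨0, r⁻¹, ((r⁻¹ : Fˣ) : F) * ((r⁻¹ : Fˣ) : F) *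
        (-(v : F) + (r : F) * (r : F) * s), ?_⟩
      rw [d.X_h, ← mul_assoc, d.w_h, d.X_zero, one_mul]

/-- The subgroup which is isomorphic to `SL_2(F)`. -/
def D : Subgroup M := Subgroup.closure (Set.range d.X ∪ {d.w 1})

theorem D_le [Finite F] (x : M) (hx : x ∈ d.D) : x ∈ d.B := by
  have h1 : ∀ y ∈ d.D, ∀ b ∈ d.B, y * b ∈ d.B ∧ y⁻¹ * b ∈ d.B := by
    intro y hy
    refine Subgroup.closure_induction (p := fun y _ => ∀ b ∈ d.B, y * b ∈ d.B ∧ y⁻¹ * b ∈ d.B)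
      ?_ ?_ ?_ ?_ hy
    · rintro _ (⟨t, rfl⟩ | rfl) b hb
      · refine ⟨d.B_X t b hb, ?_⟩
        rw [← d.X_neg]
        exact d.B_X _ b hb
      · refine ⟨d.B_w b hb, ?_⟩
        have h2 : (d.w 1)⁻¹ = d.w 1 * d.h (-1) := by
          have h3 : d.h (-1) = (d.w 1)⁻¹ * (d.w 1)⁻¹ := by
            unfold h
            rw [d.w_neg]
          rw [h3, mul_inv_cancel_left]
        rw [h2, mul_assoc]
        exact d.B_w _ (d.B_h _ _ hb)
    · intro b hb
      rw [one_mul, inv_one, one_mul]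
      exact ⟨hb, hb⟩
    · intro a c _ _ ha hc b hb
      rw [mul_assoc, _root_.mul_inv_rev, mul_assoc]
      exact ⟨(ha _ (hc b hb).1).1, (hc _ (ha b hb).2).2⟩
    · intro a _ ha b hb
      rw [inv_inv]
      exact ⟨(ha b hb).2, (ha b hb).1⟩
  have h2 : (1 : M) ∈ d.B := Or.inl ⟨0, 1, by rw [d.X_zero, d.h_one, one_mul]⟩
  have h3 := (h1 x hx 1 h2).1
  rwa [mul_one] at h3

theorem w_mem (u : Fˣ) [Finite F] : d.w u ∈ d.D := by
  have hX : ∀ t, d.X t ∈ d.D := fun t => Subgroup.subset_closure (Or.inl ⟨t, rfl⟩)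
  have hw : d.w 1 ∈ d.D := Subgroup.subset_closure (Or.inr rfl)
  have hY : ∀ t, d.Y t ∈ d.D := by
    intro t
    have e1 := d.w_X 1 (-t)
    rw [inv_one, Units.val_one, one_mul, one_mul, neg_neg] at e1
    have e2 : d.Y t = d.w 1 * d.X (-t) * (d.w 1)⁻¹ := by rw [e1, mul_inv_cancel_right]
    rw [e2]
    exact mul_mem (mul_mem hw (hX _)) (inv_mem hw)
  exact mul_mem (mul_mem (hX _) (hY _)) (hX _)

theorem D_inj [Finite F] (x : M) (hx : x ∈ d.D) (h : d.f x = 1) : x = 1 := by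
  rcases d.D_le x hx with ⟨t, u, rfl⟩ | ⟨t, u, s, rfl⟩
  · rw [map_mul, d.fX, d.f_h] at h
    have h1 := congrArg Subtype.val h
    change !![1, t; 0, 1] * !![(u : F), 0; 0, ((u⁻¹ : Fˣ) : F)] = 1 at h1
    have h2 := congrFun (congrFun h1 0) 0
    have h3 := congrFun (congrFun h1 0) 1
    simp [Matrix.mul_apply, Fin.sum_univ_two] at h2 h3
    rw [h2, h3, d.X_zero, d.h_one, one_mul]
  · exfalso
    rw [map_mul, map_mul, map_mul, d.fX, d.fX, d.f_h, d.f_w, mul_assoc (xm t), hm_eq] at h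
    have h1 := congrArg Subtype.val h
    change !![1, t; 0, 1] * !![0, (u : F); -((u⁻¹ : Fˣ) : F), 0] * !![1, s; 0, 1] = 1 at h1
    have h2 := congrFun (congrFun h1 1) 0
    simp [Matrix.mul_apply, Fin.sum_univ_two] at h2

theorem D_surj [Finite F] (A : SpecialLinearGroup (Fin 2) F) : ∃ x ∈ d.D, d.f x = A := by
  have hX : ∀ t, d.X t ∈ d.D := fun t => Subgroup.subset_closure (Or.inl ⟨t, rfl⟩)
  have hw : d.w 1 ∈ d.D := Subgroup.subset_closure (Or.inr rfl)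
  have hh : ∀ u, d.h u ∈ d.D := fun u => mul_mem (d.w_mem u) (inv_mem hw)
  have hdet := A.2
  rw [Matrix.det_fin_two] at hdet
  by_cases hc : (A : Matrix (Fin 2) (Fin 2) F) 1 0 = 0
  · rw [hc, mul_zero, sub_zero] at hdet
    have ha : (A : Matrix (Fin 2) (Fin 2) F) 0 0 ≠ 0 := left_ne_zero_of_mul_eq_one hdet
    let u : Fˣ := Units.mk0 _ ha
    refine ⟨d.X ((A : Matrix (Fin 2) (Fin 2) F) 0 1 * (A : Matrix (Fin 2) (Fin 2) F) 0 0) * d.h u,
      mul_mem (hX _) (hh _), ?_⟩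
    rw [map_mul, d.fX, d.f_h]
    apply Subtype.ext
    change !![1, (A : Matrix (Fin 2) (Fin 2) F) 0 1 * (A : Matrix (Fin 2) (Fin 2) F) 0 0; 0, 1] *
      !![(A : Matrix (Fin 2) (Fin 2) F) 0 0, 0; 0, ((A : Matrix (Fin 2) (Fin 2) F) 0 0)⁻¹] = _
    ext i j
    fin_cases i <;> fin_cases j <;> simp [Matrix.mul_apply, Fin.sum_univ_two]
    · rw [mul_assoc, mul_inv_cancel₀ ha, mul_one]
    · exact hc.symm
    · exact (eq_inv_of_mul_eq_one_right hdet).symm
  · let u : Fˣ := -(Units.mk0 _ hc)⁻¹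
    refine ⟨d.X ((A : Matrix (Fin 2) (Fin 2) F) 0 0 / (A : Matrix (Fin 2) (Fin 2) F) 1 0) * d.w u *
      d.X ((A : Matrix (Fin 2) (Fin 2) F) 1 1 / (A : Matrix (Fin 2) (Fin 2) F) 1 0),
      mul_mem (mul_mem (hX _) (d.w_mem _)) (hX _), ?_⟩
    rw [map_mul, map_mul, d.fX, d.fX, d.f_w]
    apply Subtype.ext
    have hu : (u : F) = -((A : Matrix (Fin 2) (Fin 2) F) 1 0)⁻¹ := rfl
    have hu' : ((u⁻¹ : Fˣ) : F) = -((A : Matrix (Fin 2) (Fin 2) F) 1 0) := by
      change (((-(Units.mk0 _ hc)⁻¹)⁻¹ : Fˣ) : F) = _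
      rw [inv_neg, inv_inv]
      rfl
    change !![1, (A : Matrix (Fin 2) (Fin 2) F) 0 0 / (A : Matrix (Fin 2) (Fin 2) F) 1 0; 0, 1] *
      !![0, (u : F); -((u⁻¹ : Fˣ) : F), 0] *
      !![1, (A : Matrix (Fin 2) (Fin 2) F) 1 1 / (A : Matrix (Fin 2) (Fin 2) F) 1 0; 0, 1] = _
    rw [hu, hu', neg_neg]
    ext i j
    fin_cases i <;> fin_cases j <;> simp [Matrix.mul_apply, Fin.sum_univ_two]
    · field_simp
    · field_simp
      linear_combination hdet
    · field_simp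

end Dat

/-- **Central extensions of `SL_2(F)` with kernels of order prime to `p` split.** -/
theorem section_sl2 (p : ℕ) [hp : Fact p.Prime] (F : Type) [Field F] [Finite F] [CharP F p]
    (M : Type) [Group M] [Finite M] (f : M →* SpecialLinearGroup (Fin 2) F)
    (hs : Function.Surjective f) (hc : f.ker ≤ Subgroup.center M)
    (hk : ¬ p ∣ Nat.card f.ker) :
    ∃ s : SpecialLinearGroup (Fin 2) F →* M, ∀ a, f (s a) = a := by
  have hX : ∀ t : F, xm t ^ p = 1 := by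
    intro t
    rw [xm_pow, CharP.cast_eq_zero, zero_mul, xm_zero]
  have hY : ∀ t : F, ym t ^ p = 1 := by
    intro t
    rw [ym_pow, CharP.cast_eq_zero, zero_mul, ym_zero]
  choose X h1 h2 using fun t => exists_lift f hs hk (xm t) (hX t)
  choose Y h3 h4 using fun t => exists_lift f hs hk (ym t) (hY t)
  let d : Dat p F M :=
    { f := f
      X := X
      Y := Y
      fX := h1
      fY := h3
      Xp := h2
      Yp := h4
      uniq := fun m m' h hm hm' => lift_unique f hc hk m m' h hm hm'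
      cen := hc }
  let g : d.D →* SpecialLinearGroup (Fin 2) F := f.comp d.D.subtype
  have hg : Function.Bijective g := by
    constructor
    · rw [injective_iff_map_eq_one]
      rintro ⟨x, hx⟩ hgx
      exact Subtype.ext (d.D_inj x hx hgx)
    · intro A
      obtain ⟨x, hx, hxA⟩ := d.D_surj A
      exact ⟨⟨x, hx⟩, hxA⟩
  let e := MulEquiv.ofBijective g hg
  refine ⟨d.D.subtype.comp e.symm.toMonoidHom, fun a => ?_⟩
  exact e.apply_symm_apply a

end Pool.Agent.K7.H53.CE.S2
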