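import Pool.Agent.K7.H53.CE.Trans
import Pool.Agent.H463R3.PSLn

/-!
# Central extensions of `SL_n(F)` with kernels of order prime to the characteristic
-/

set_option autoImplicit false
set_option linter.unusedSectionVars false

open Matrix

namespace Pool.Agent.K7.H53.CE.TR

section parabolic

variable {p : ℕ} [hp : Fact p.Prime] {M G G' : Type} [Group M] [Finite M] [Group G] [Group G']
  (f : M →* G) (hs : Function.Surjective f) (hc : f.ker ≤ Subgroup.center M)
  (hk : ¬ p ∣ Nat.card f.ker) (H : Subgroup G) (ρ : H →* G') (hρ : Function.Surjective ρ)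
  (hρk : IsPGroup p ρ.ker)

include hs hc hk hρ hρk in
theorem parabolic (hsc : SC' p G') (e : M)
    (he : e ∈ Subgroup.closure {u : M | PEl p u ∧ f u ∈ H}) (hfe : f e = 1) : e = 1 := by
  let N : Subgroup M := H.comap f
  let A : Subgroup G := ρ.ker.map H.subtype
  have hA : IsPGroup p A := hρk.map _
  let fN : N →* H := (f.comp N.subtype).codRestrict H (fun x => x.2)
  have hfN : Function.Surjective fN := by
    rintro ⟨y, hy⟩
    obtain ⟨x, rfl⟩ := hs y
    exact ⟨⟨x, hy⟩, rfl⟩
  have hAm : ∀ x : N, f x ∈ A ↔ ρ (fN x) = 1 := by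
    intro x
    constructor
    · rintro ⟨y, hy, hyx⟩
      have h1 : y = fN x := Subtype.ext hyx
      rw [← h1]
      exact hy
    · intro h
      exact ⟨fN x, h, rfl⟩
  let Q : Subgroup N :=
    { carrier := {x | PEl p (x : M) ∧ f x ∈ A}
      mul_mem' := by
        rintro x y ⟨h1, h2⟩ ⟨h3, h4⟩
        refine ⟨pl_mul f hc A hA _ _ h1 h3 h2 h4, ?_⟩
        change f ((x : M) * y) ∈ A
        rw [map_mul]
        exact mul_mem h2 h4
      one_mem' := ⟨⟨0, one_pow _⟩, by
        change f 1 ∈ A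
        rw [map_one]
        exact one_mem _⟩
      inv_mem' := by
        rintro x ⟨h1, h2⟩
        refine ⟨h1.inv, ?_⟩
        change f (x : M)⁻¹ ∈ A
        rw [map_inv]
        exact inv_mem h2 }
  have hQ : ∀ x : N, x ∈ Q ↔ PEl p (x : M) ∧ f x ∈ A := fun x => Iff.rfl
  have hQn : Q.Normal := by
    constructor
    intro x hx g
    obtain ⟨h1, h2⟩ := (hQ x).1 hx
    refine (hQ _).2 ⟨h1.conj (g : M), (hAm _).2 ?_⟩
    rw [map_mul, map_mul, map_inv, map_mul, map_mul, map_inv, (hAm x).1 h2, mul_one,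
      mul_inv_cancel]
  let f' : N ⧸ Q →* G' := QuotientGroup.lift Q (ρ.comp fN) (by
    intro x hx
    exact (hAm x).1 ((hQ x).1 hx).2)
  have hf' : ∀ x : N, f' (QuotientGroup.mk x) = ρ (fN x) := fun x => rfl
  have hf's : Function.Surjective f' := by
    intro y
    obtain ⟨h, rfl⟩ := hρ y
    obtain ⟨x, rfl⟩ := hfN h
    exact ⟨QuotientGroup.mk x, rfl⟩
  have hker : ∀ x ∈ f'.ker, ∃ z : N, (z : M) ∈ f.ker ∧ (QuotientGroup.mk z : N ⧸ Q) = x := by
    intro x hx
    obtain ⟨y, rfl⟩ := QuotientGroup.mk_surjective x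
    rw [MonoidHom.mem_ker, hf'] at hx
    have h1 : f y ∈ A := (hAm y).2 hx
    have h2 : PEl p (f y) := by
      obtain ⟨k, hk⟩ := hA ⟨f y, h1⟩
      exact ⟨k, congrArg Subtype.val hk⟩
    obtain ⟨u, hu, hup⟩ := exists_pl f hs hk (f y) h2
    have huN : u ∈ N := by
      change f u ∈ H
      rw [hu]
      exact y.2
    refine ⟨(⟨u, huN⟩ : N)⁻¹ * y, ?_, ?_⟩
    · change f (u⁻¹ * y) = 1
      rw [map_mul, map_inv, hu, inv_mul_cancel]
    · rw [QuotientGroup.mk_mul, QuotientGroup.mk_inv]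
      have h3 : (QuotientGroup.mk (⟨u, huN⟩ : N) : N ⧸ Q) = 1 :=
        (QuotientGroup.eq_one_iff _).2 ((hQ _).2 ⟨hup, by
          change f u ∈ A
          rw [hu]
          exact h1⟩)
      rw [h3, inv_one, one_mul]
  have hf'c : f'.ker ≤ Subgroup.center (N ⧸ Q) := by
    intro x hx
    obtain ⟨z, hz, rfl⟩ := hker x hx
    rw [Subgroup.mem_center_iff]
    intro y
    obtain ⟨y, rfl⟩ := QuotientGroup.mk_surjective y
    rw [← QuotientGroup.mk_mul, ← QuotientGroup.mk_mul]
    congr 1
    exact Subtype.ext (Subgroup.mem_center_iff.1 (hc hz) y)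
  have hkN : f.ker ≤ N := by
    intro x hx
    change f x ∈ H
    rw [show f x = 1 from hx]
    exact one_mem _
  have hf'k : ¬ p ∣ Nat.card f'.ker := by
    intro h
    apply hk
    refine h.trans ?_
    let τ : f.ker →* f'.ker :=
      ((QuotientGroup.mk' Q).comp (Subgroup.inclusion hkN)).codRestrict f'.ker (by
        intro x
        change ρ (fN (Subgroup.inclusion hkN x)) = 1
        have h1 : fN (Subgroup.inclusion hkN x) = 1 := Subtype.ext x.2
        rw [h1, map_one])
    refine Subgroup.card_dvd_of_surjective τ ?_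
    intro x
    obtain ⟨z, hz, hzx⟩ := hker x x.2
    exact ⟨⟨z, hz⟩, Subtype.ext hzx⟩
  have heN : e ∈ N := by
    refine (Subgroup.closure_le _).2 ?_ he
    rintro u ⟨-, hu⟩
    exact hu
  have h1 : (QuotientGroup.mk (⟨e, heN⟩ : N) : N ⧸ Q) = 1 := by
    refine hsc (N ⧸ Q) f' hf's hf'c hf'k _ ?_ ?_
    · -- the image of `e` is generated by `p`-elements
      have key : ∀ (e : M) (he : e ∈ Subgroup.closure {u : M | PEl p u ∧ f u ∈ H}),
          ∀ hN : e ∈ N, (QuotientGroup.mk (⟨e, hN⟩ : N) : N ⧸ Q) ∈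
            Subgroup.closure {u : N ⧸ Q | PEl p u} := by
        intro e he
        refine Subgroup.closure_induction (p := fun e _ => ∀ hN : e ∈ N,
          (QuotientGroup.mk (⟨e, hN⟩ : N) : N ⧸ Q) ∈ Subgroup.closure {u : N ⧸ Q | PEl p u})
          ?_ ?_ ?_ ?_ he
        · rintro u ⟨hu, hu2⟩ hN
          apply Subgroup.subset_closure
          obtain ⟨k, hk⟩ := hu
          refine ⟨k, ?_⟩
          rw [← QuotientGroup.mk_pow]
          have h2 : (⟨u, hN⟩ : N) ^ p ^ k = 1 := Subtype.ext hk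
          rw [h2]
          rfl
        · intro hN
          exact one_mem _
        · intro x y hx hy h2 h3 hN
          have hle : Subgroup.closure {u : M | PEl p u ∧ f u ∈ H} ≤ N := by
            refine (Subgroup.closure_le _).2 ?_
            rintro u ⟨-, hu⟩
            exact hu
          exact mul_mem (h2 (hle hx)) (h3 (hle hy))
        · intro x hx h2 hN
          have hle : Subgroup.closure {u : M | PEl p u ∧ f u ∈ H} ≤ N := by
            refine (Subgroup.closure_le _).2 ?_
            rintro u ⟨-, hu⟩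
            exact hu
          exact inv_mem (h2 (hle hx))
      exact key e he heN
    · change ρ (fN ⟨e, heN⟩) = 1
      have h2 : fN ⟨e, heN⟩ = 1 := Subtype.ext hfe
      rw [h2, map_one]
  have h2 := ((hQ _).1 ((QuotientGroup.eq_one_iff _).1 h1)).1
  exact pl_unique f hc hk e 1 (by rw [hfe, map_one]) h2 ⟨0, one_pow _⟩

end parabolic

section lin

variable {F : Type} [Field F] {n : ℕ}

/-- Linear forms with given values. -/
theorem exists_dual {ι : Type} (v : ι → (Fin n → F)) (hv : LinearIndependent F v) (a : ι → F) :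
    ∃ φ : Fin n → F, ∀ i, φ ⬝ᵥ v i = a i := by
  let b := Module.Basis.span hv
  let g : Submodule.span F (Set.range v) →ₗ[F] F := b.constr F a
  obtain ⟨h, hh⟩ := LinearMap.exists_extend g
  refine ⟨fun j => h (Pi.single j 1), fun i => ?_⟩
  have h1 : h (v i) = a i := by
    have h2 : g (b i) = a i := b.constr_basis F a i
    have h3 : (b i : Fin n → F) = v i := congrArg Subtype.val (Module.Basis.span_apply hv i)
    rw [← h3]
    have h4 := DFunLike.congr_fun hh (b i)
    rw [← h2]
    exact h4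
  rw [← h1, LinearMap.pi_apply_eq_sum_univ h (v i)]
  unfold dotProduct
  refine Finset.sum_congr rfl fun j _ => ?_
  rw [smul_eq_mul, mul_comm]
  have h5 : (fun k => if j = k then (1 : F) else 0) = Pi.single j 1 := by
    funext k
    rw [Pi.single_apply]
    simp [eq_comm]
  rw [h5]

theorem exists_not_mem_span (hn : 3 ≤ n) (v w : Fin n → F) :
    ∃ y, y ∉ Submodule.span F (Set.range ![v, w]) := by
  by_contra hcon
  push Not at hcon
  have h1 : Submodule.span F (Set.range ![v, w]) = ⊤ := (Submodule.eq_top_iff').2 hcon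
  have h2 := finrank_range_le_card (R := F) ![v, w]
  rw [Set.finrank, h1, finrank_top, Module.finrank_fin_fun, Fintype.card_fin] at h2
  omega

theorem exists_not_mem_two {P Q : Submodule F (Fin n → F)} (hP : ∃ x, x ∉ P) (hQ : ∃ x, x ∉ Q) :
    ∃ x, x ∉ P ∧ x ∉ Q := by
  obtain ⟨x, hx⟩ := hP
  obtain ⟨y, hy⟩ := hQ
  by_cases h1 : x ∈ Q
  swap
  · exact ⟨x, hx, h1⟩
  by_cases h2 : y ∈ P
  swap
  · exact ⟨y, h2, hy⟩
  refine ⟨x + y, fun h => hx ?_, fun h => hy ?_⟩
  · have := P.sub_mem h h2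
    rwa [add_sub_cancel_right] at this
  · have := Q.sub_mem h h1
    rwa [add_sub_cancel_left] at this

theorem li_three {v w y : Fin n → F} (h : LinearIndependent F ![v, w])
    (hy : y ∉ Submodule.span F (Set.range ![v, w])) : LinearIndependent F ![y, v, w] :=
  linearIndependent_fin_cons.2 ⟨h, hy⟩

end lin

section sln

variable {F : Type} [Field F] {n : ℕ}

theorem sl_smul (g : SpecialLinearGroup (Fin n) F) (v : Fin n → F) : g • v = g.1 *ᵥ v := rfl

theorem vm_smul (u φ v : Fin n → F) : (1 + vecMulVec u φ) *ᵥ v = v + (φ ⬝ᵥ v) • u := by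
  rw [add_mulVec, one_mulVec]
  congr 1
  funext i
  simp only [mulVec, dotProduct, vecMulVec_apply, Pi.smul_apply, smul_eq_mul, Finset.sum_mul]
  refine Finset.sum_congr rfl fun j _ => ?_
  ring

/-- Transvections. -/
def tv (u φ : Fin n → F) (h : φ ⬝ᵥ u = 0) : SpecialLinearGroup (Fin n) F :=
  ⟨1 + vecMulVec u φ, by
    rw [vecMulVec_eq Unit, det_one_add_replicateCol_mul_replicateRow, h, add_zero]⟩

theorem vm_mul (u φ ψ : Fin n → F) (h : φ ⬝ᵥ u = 0) :
    (1 + vecMulVec u φ) * (1 + vecMulVec u ψ) = 1 + vecMulVec u (φ + ψ) := by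
  have h1 : vecMulVec u φ * vecMulVec u ψ = 0 := by
    ext i j
    rw [Matrix.mul_apply]
    simp only [vecMulVec_apply]
    have h2 : ∑ k, u i * φ k * (u k * ψ j) = u i * (φ ⬝ᵥ u) * ψ j := by
      rw [dotProduct, Finset.mul_sum, Finset.sum_mul]
      refine Finset.sum_congr rfl fun k _ => ?_
      ring
    rw [h2, h]
    simp
  rw [mul_add, add_mul, add_mul, h1, vecMulVec_add]
  simp only [one_mul, mul_one, add_zero]
  rw [add_assoc]

/-- The transvections which move `v` to `w`. -/
def Us (v w : Fin n → F) : Set (SpecialLinearGroup (Fin n) F) :=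
  {g | v ≠ w ∧ ∃ φ : Fin n → F, φ ⬝ᵥ v = 1 ∧ φ ⬝ᵥ w = 1 ∧ g.1 = 1 + vecMulVec (w - v) φ}

/-- The transvections with centre `u`. -/
def Au (u : Fin n → F) : Subgroup (SpecialLinearGroup (Fin n) F) where
  carrier := {g | ∃ φ : Fin n → F, φ ⬝ᵥ u = 0 ∧ g.1 = 1 + vecMulVec u φ}
  mul_mem' := by
    rintro a b ⟨φ, h1, h2⟩ ⟨ψ, h3, h4⟩
    refine ⟨φ + ψ, by rw [add_dotProduct, h1, h3, add_zero], ?_⟩
    change a.1 * b.1 = _
    rw [h2, h4, vm_mul u φ ψ h1]
  one_mem' := ⟨0, zero_dotProduct u, by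
    rw [vecMulVec_zero, add_zero]
    rfl⟩
  inv_mem' := by
    rintro a ⟨φ, h1, h2⟩
    refine ⟨-φ, by rw [neg_dotProduct, h1, neg_zero], ?_⟩
    have h3 : a * tv u (-φ) (by rw [neg_dotProduct, h1, neg_zero]) = 1 := by
      apply Subtype.ext
      change a.1 * (1 + vecMulVec u (-φ)) = 1
      rw [h2, vm_mul u φ _ h1, add_neg_cancel, vecMulVec_zero, add_zero]
    rw [inv_eq_of_mul_eq_one_right h3]
    rfl

theorem Au_p (p : ℕ) [hp : Fact p.Prime] [CharP F p] (u : Fin n → F) : IsPGroup p (Au u) := by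
  rintro ⟨g, φ, h1, h2⟩
  refine ⟨1, Subtype.ext (Subtype.ext ?_)⟩
  rw [pow_one]
  have h3 : ∀ k : ℕ, (g ^ k).1 = 1 + vecMulVec u ((k : F) • φ) := by
    intro k
    induction k with
    | zero =>
      rw [pow_zero, Nat.cast_zero, zero_smul, vecMulVec_zero, add_zero]
      rfl
    | succ k ih =>
      have h4 : (g ^ (k + 1)).1 = (g ^ k).1 * g.1 := rfl
      rw [h4, ih, h2, vm_mul u _ _ (by rw [smul_dotProduct, h1, smul_zero]), Nat.cast_succ,
        add_smul, one_smul]
  change (g ^ p).1 = 1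
  rw [h3, CharP.cast_eq_zero, zero_smul, vecMulVec_zero, add_zero]

theorem Us_data (p : ℕ) [hp : Fact p.Prime] [CharP F p] :
    TData p (Us : (Fin n → F) → (Fin n → F) → Set (SpecialLinearGroup (Fin n) F)) where
  act := by
    rintro g v w ⟨-, φ, h1, h2, h3⟩
    rw [sl_smul, h3, vm_smul, h1, one_smul, add_sub_cancel]
  symm := by
    rintro g v w ⟨h0, φ, h1, h2, h3⟩
    refine ⟨h0.symm, φ, h2, h1, ?_⟩
    have h4 : φ ⬝ᵥ (w - v) = 0 := by rw [dotProduct_sub, h1, h2, sub_self]
    have h5 : φ ⬝ᵥ (v - w) = 0 := by rw [dotProduct_sub, h1, h2, sub_self]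
    have h6 : g * tv (v - w) φ h5 = 1 := by
      apply Subtype.ext
      change g.1 * (1 + vecMulVec (v - w) φ) = 1
      have h7 : vecMulVec (v - w) φ = vecMulVec (w - v) (-φ) := by
        ext i j
        simp only [vecMulVec_apply, Pi.sub_apply, Pi.neg_apply]
        ring
      rw [h3, h7, vm_mul _ _ _ h4, add_neg_cancel, vecMulVec_zero, add_zero]
    rw [inv_eq_of_mul_eq_one_right h6]
    rfl
  conj := by
    rintro g v w ⟨h0, φ, h1, h2, h3⟩ h
    have hinv : h⁻¹.1 * h.1 = 1 := by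
      have : (h⁻¹ * h).1 = 1 := by rw [inv_mul_cancel]; rfl
      exact this
    have hinv' : h.1 * h⁻¹.1 = 1 := by
      have : (h * h⁻¹).1 = 1 := by rw [mul_inv_cancel]; rfl
      exact this
    refine ⟨fun h' => h0 (smul_left_cancel h h'), φ ᵥ* h⁻¹.1, ?_, ?_, ?_⟩
    · rw [sl_smul, ← dotProduct_mulVec, mulVec_mulVec, hinv, one_mulVec, h1]
    · rw [sl_smul, ← dotProduct_mulVec, mulVec_mulVec, hinv, one_mulVec, h2]
    · change h.1 * g.1 * h⁻¹.1 = _
      rw [h3, mul_add, mul_one, add_mul, hinv', ← smul_sub, sl_smul]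
      congr 1
      rw [mul_vecMulVec, vecMulVec_mul]
  grp := by
    rintro g g' v w ⟨h0, φ, h1, h2, h3⟩ ⟨-, φ', h1', h2', h3'⟩
    exact ⟨Au (w - v), Au_p p _, ⟨φ, by rw [dotProduct_sub, h1, h2, sub_self], h3⟩,
      ⟨φ', by rw [dotProduct_sub, h1', h2', sub_self], h3'⟩⟩

theorem Us_iff (v w : Fin n → F) : (Us v w).Nonempty ↔ LinearIndependent F ![v, w] := by
  constructor
  · rintro ⟨g, h0, φ, h1, h2, -⟩
    rw [LinearIndependent.pair_iff]
    intro s t hst
    have h3 : s + t = 0 := by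
      have h4 := congrArg (fun x => φ ⬝ᵥ x) hst
      simpa [dotProduct_add, dotProduct_smul, h1, h2] using h4
    have h5 : t = -s := by linear_combination h3
    have h6 : s • (v - w) = 0 := by
      rw [← hst, h5, smul_sub, neg_smul, sub_eq_add_neg]
    rcases smul_eq_zero.1 h6 with h | h
    · exact ⟨h, by rw [h5, h, neg_zero]⟩
    · exact absurd (sub_eq_zero.1 h) h0
  · intro h
    obtain ⟨φ, hφ⟩ := exists_dual _ h (fun _ => 1)
    have h1 : φ ⬝ᵥ v = 1 := hφ 0
    have h2 : φ ⬝ᵥ w = 1 := hφ 1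
    refine ⟨tv (w - v) φ (by rw [dotProduct_sub, h1, h2, sub_self]), ?_, φ, h1, h2, rfl⟩
    intro hvw
    have h3 := h.injective.ne (show (0 : Fin 2) ≠ 1 by decide)
    exact h3 hvw

theorem li_symm {v w : Fin n → F} (h : LinearIndependent F ![v, w]) :
    LinearIndependent F ![w, v] := by
  rw [LinearIndependent.pair_iff] at h ⊢
  intro s t hst
  rw [add_comm] at hst
  exact (h t s hst).symm

section main

variable {p : ℕ} [hp : Fact p.Prime] [CharP F p] {M : Type} [Group M] [Finite M]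
  (f : M →* SpecialLinearGroup (Fin n) F)
  (hs : Function.Surjective f) (hc : f.ker ≤ Subgroup.center M)
  (hk : ¬ p ∣ Nat.card f.ker) (v₀ : Fin n → F)

include hs hc hk in
/-- Triangles whose vertices are linearly independent. -/
theorem tr_li {v w y : Fin n → F} (h : LinearIndependent F ![y, v, w]) :
    Tr f v₀ Us p v w y := by
  obtain ⟨φ, hφ⟩ := exists_dual _ h ![1, 0, 1]
  have h1 : φ ⬝ᵥ y = 1 := hφ 0
  have h2 : φ ⬝ᵥ v = 0 := hφ 1
  have h3 : φ ⬝ᵥ w = 1 := hφ 2
  have hne : w ≠ y := by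
    intro hwy
    exact h.injective.ne (show (0 : Fin 3) ≠ 2 by decide) hwy.symm
  refine Tr.of_fix f v₀ (Us_data p) hs hc hk
    (g := tv (y - w) φ (by rw [dotProduct_sub, h1, h3, sub_self])) ⟨hne, φ, h3, h1, rfl⟩ ?_
  rw [sl_smul]
  change (1 + vecMulVec (y - w) φ) *ᵥ v = v
  rw [vm_smul, h2, zero_smul, add_zero]

include hs hc hk in
theorem tr_all (hn : 3 ≤ n) (v w z : Fin n → F) (h1 : (Us v w).Nonempty)
    (h2 : (Us w z).Nonempty) (h3 : (Us v z).Nonempty) : Tr f v₀ Us p v w z := by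
  rw [Us_iff] at h1 h2 h3
  by_cases hv : z ∈ Submodule.span F (Set.range ![v, w])
  swap
  · exact tr_li f hs hc hk v₀ (li_three h1 hv)
  obtain ⟨y, hy⟩ := exists_not_mem_span hn v w
  have hsub : ∀ a b : Fin n → F, a ∈ Submodule.span F (Set.range ![v, w]) →
      b ∈ Submodule.span F (Set.range ![v, w]) →
      y ∉ Submodule.span F (Set.range ![a, b]) := by
    intro a b ha hb hyab
    apply hy
    refine Submodule.span_le.2 ?_ hyab
    rintro _ ⟨i, rfl⟩
    fin_cases i
    · exact ha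
    · exact hb
  have hvm : v ∈ Submodule.span F (Set.range ![v, w]) := Submodule.subset_span ⟨0, rfl⟩
  have hwm : w ∈ Submodule.span F (Set.range ![v, w]) := Submodule.subset_span ⟨1, rfl⟩
  have k1 := li_three h1 hy
  have k2 := li_three h2 (hsub w z hwm hv)
  have k3 := li_three h3 (hsub v z hvm hv)
  have hzy : (Us z y).Nonempty := by
    rw [Us_iff]
    have h4 := k3.comp ![2, 0] (by
      intro a b hab
      fin_cases a <;> fin_cases b <;> simp_all)
    have h5 : (![y, v, z] ∘ ![2, 0]) = ![z, y] := by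
      funext i
      fin_cases i <;> rfl
    rwa [h5] at h4
  exact Tr.tetra f v₀ (Us_data p) hs hc hk (by rwa [Us_iff]) hzy
    (tr_li f hs hc hk v₀ k1) (tr_li f hs hc hk v₀ k2) (tr_li f hs hc hk v₀ k3)

/-- All transvections. -/
def Tv : Set (SpecialLinearGroup (Fin n) F) :=
  {g | ∃ u φ : Fin n → F, φ ⬝ᵥ u = 0 ∧ g.1 = 1 + vecMulVec u φ}

include hs hc hk in
/-- **The transport theorem for `SL_n`.** -/
theorem transport_sln (hn : 3 ≤ n) (hv₀ : v₀ ≠ 0) (hE : ∀ e ∈ Ev f p v₀, f e = 1 → e = 1)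
    (d : M) (hd : d ∈ Subgroup.closure {u : M | PEl p u ∧ f u ∈ Tv}) (hfd : f d = 1) :
    d = 1 := by
  refine transport f v₀ (Us_data p) hs hc hk (fun v w z => tr_all f hs hc hk v₀ hn v w z)
    ?_ ?_ ?_ hE Tv ?_ ?_ d hd hfd
  · -- auxiliary points
    intro a w ha hw
    rw [Us_iff] at ha hw
    obtain ⟨z, hz1, hz2⟩ := exists_not_mem_two (exists_not_mem_span hn v₀ a)
      (exists_not_mem_span hn v₀ w)
    have k1 := li_three ha hz1
    have k2 := li_three hw hz2
    have sub : ∀ (x y t : Fin n → F), LinearIndependent F ![x, y, t] →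
        LinearIndependent F ![x, y] ∧ LinearIndependent F ![x, t] := by
      intro x y t h
      constructor
      · have h4 := h.comp ![0, 1] (by
          intro a b hab
          fin_cases a <;> fin_cases b <;> simp_all)
        have h5 : (![x, y, t] ∘ ![0, 1]) = ![x, y] := by
          funext i
          fin_cases i <;> rfl
        rwa [h5] at h4
      · have h4 := h.comp ![0, 2] (by
          intro a b hab
          fin_cases a <;> fin_cases b <;> simp_all)
        have h5 : (![x, y, t] ∘ ![0, 2]) = ![x, t] := by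
          funext i
          fin_cases i <;> rfl
        rwa [h5] at h4
    refine ⟨z, ?_, ?_, ?_⟩
    · rw [Us_iff]
      exact li_symm (sub _ _ _ k1).1
    · rw [Us_iff]
      exact li_symm (sub _ _ _ k1).2
    · rw [Us_iff]
      exact (sub _ _ _ k2).2
  · -- collinear points
    intro g hg1 hg2 w
    rw [Us_iff] at hg2
    rw [LinearIndependent.pair_iff' hv₀] at hg2
    push Not at hg2
    obtain ⟨c, hc'⟩ := hg2
    have hc0 : c ≠ 0 := by
      rintro rfl
      rw [zero_smul] at hc'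
      exact hv₀ ((smul_eq_zero_iff_eq g).1 hc'.symm)
    rw [Us_iff, Us_iff, ← hc', LinearIndependent.pair_iff, LinearIndependent.pair_iff]
    constructor
    · intro h s t hst
      obtain ⟨h4, h5⟩ := h (s * c⁻¹) t (by rw [smul_smul, mul_assoc, inv_mul_cancel₀ hc0,
        mul_one, hst])
      refine ⟨?_, h5⟩
      rcases mul_eq_zero.1 h4 with h6 | h6
      · exact h6
      · exact absurd h6 (inv_ne_zero hc0)
    · intro h s t hst
      rw [smul_smul] at hst
      obtain ⟨h4, h5⟩ := h (s * c) t hst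
      refine ⟨?_, h5⟩
      rcases mul_eq_zero.1 h4 with h6 | h6
      · exact h6
      · exact absurd h6 hc0
  · rintro v ⟨g, h, -⟩
    exact h rfl
  · rintro t ⟨u, φ, h1, h2⟩ v
    by_cases hv : t • v = v
    · exact Or.inl hv
    right
    have h3 : t • v = v + (φ ⬝ᵥ v) • u := by rw [sl_smul, h2, vm_smul]
    have h4 : φ ⬝ᵥ v ≠ 0 := by
      intro h
      apply hv
      rw [h3, h, zero_smul, add_zero]
    refine ⟨Ne.symm hv, (φ ⬝ᵥ v)⁻¹ • φ, ?_, ?_, ?_⟩
    · rw [smul_dotProduct, smul_eq_mul, inv_mul_cancel₀ h4]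
    · rw [h3, smul_dotProduct, dotProduct_add, dotProduct_smul, h1, smul_zero, add_zero,
        smul_eq_mul, inv_mul_cancel₀ h4]
    · rw [h3, add_sub_cancel_left, h2]
      congr 1
      ext i j
      simp only [vecMulVec_apply, Pi.smul_apply, smul_eq_mul]
      field_simp
  · rintro t ⟨u, φ, h1, h2⟩
    have h3 : t ∈ Au u := ⟨φ, h1, h2⟩
    obtain ⟨ψ, h4, h5⟩ := (Au u).inv_mem h3
    exact ⟨u, ψ, h4, h5⟩

end main

end sln

theorem section_of_sub {M G : Type} [Group M] [Group G] (f : M →* G) (D : Subgroup M)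
    (h1 : ∀ d ∈ D, f d = 1 → d = 1) (h2 : ∀ a, ∃ x ∈ D, f x = a) :
    ∃ s : G →* M, ∀ a, f (s a) = a := by
  let g : D →* G := f.comp D.subtype
  have hg : Function.Bijective g := by
    constructor
    · rw [injective_iff_map_eq_one]
      rintro ⟨x, hx⟩ hgx
      exact Subtype.ext (h1 x hx hgx)
    · intro a
      obtain ⟨x, hx, hxa⟩ := h2 a
      exact ⟨⟨x, hx⟩, hxa⟩
  let e := MulEquiv.ofBijective g hg
  exact ⟨D.subtype.comp e.symm.toMonoidHom, fun a => e.apply_symm_apply a⟩

section stab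

variable {F : Type} [Field F] {n : ℕ}

/-- The first basis vector. -/
def e0 : Fin (n + 1) → F := Pi.single 0 1

theorem e0_ne : (e0 : Fin (n + 1) → F) ≠ 0 := by
  intro h
  have h1 := congrFun h 0
  simp [e0] at h1

theorem smul_e0 (g : SpecialLinearGroup (Fin (n + 1)) F) (i : Fin (n + 1)) :
    (g • e0) i = g.1 i 0 := by
  rw [sl_smul]
  simp [e0, mulVec_single_one]

theorem stab_col {g : SpecialLinearGroup (Fin (n + 1)) F}
    (hg : g ∈ MulAction.stabilizer (SpecialLinearGroup (Fin (n + 1)) F) (e0 : Fin (n + 1) → F)) :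
    g.1 0 0 = 1 ∧ ∀ i : Fin n, g.1 i.succ 0 = 0 := by
  have h1 : g • (e0 : Fin (n + 1) → F) = e0 := hg
  constructor
  · rw [← smul_e0, h1]
    simp [e0]
  · intro i
    rw [← smul_e0, h1]
    simp [e0]

theorem det_block (A : Matrix (Fin (n + 1)) (Fin (n + 1)) F) (h : ∀ i : Fin n, A i.succ 0 = 0) :
    A.det = A 0 0 * (A.submatrix Fin.succ Fin.succ).det := by
  rw [det_succ_column_zero, Fin.sum_univ_succ]
  simp [h]

/-- The action of the stabiliser on the quotient. -/
def rhoS : MulAction.stabilizer (SpecialLinearGroup (Fin (n + 1)) F) (e0 : Fin (n + 1) → F) →*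
    SpecialLinearGroup (Fin n) F where
  toFun g := ⟨g.1.1.submatrix Fin.succ Fin.succ, by
    have h1 := g.1.2
    obtain ⟨h2, h3⟩ := stab_col g.2
    rwa [det_block _ h3, h2, one_mul] at h1⟩
  map_one' := by
    apply Subtype.ext
    change (1 : Matrix (Fin (n + 1)) (Fin (n + 1)) F).submatrix Fin.succ Fin.succ = 1
    exact submatrix_one _ (Fin.succ_injective n)
  map_mul' g h := by
    apply Subtype.ext
    change (g.1.1 * h.1.1).submatrix Fin.succ Fin.succ =
      g.1.1.submatrix Fin.succ Fin.succ * h.1.1.submatrix Fin.succ Fin.succ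
    ext i j
    rw [submatrix_apply, Matrix.mul_apply, Matrix.mul_apply, Fin.sum_univ_succ,
      (stab_col g.2).2 i, zero_mul, zero_add]
    rfl

theorem rhoS_surj : Function.Surjective (rhoS (F := F) (n := n)) := by
  intro A
  let B : Matrix (Fin (n + 1)) (Fin (n + 1)) F :=
    Matrix.of (Fin.cons (Fin.cons 1 0) fun i => Fin.cons 0 (A.1 i))
  have h0 : B 0 0 = 1 := rfl
  have h1 : ∀ i : Fin n, B i.succ 0 = 0 := fun i => rfl
  have h2 : B.submatrix Fin.succ Fin.succ = A.1 := by
    ext i j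
    rfl
  have hdet : B.det = 1 := by
    rw [det_block B h1, h0, h2, A.2, one_mul]
  refine ⟨⟨(⟨B, hdet⟩ : SpecialLinearGroup (Fin (n + 1)) F), ?_⟩, Subtype.ext h2⟩
  rw [MulAction.mem_stabilizer_iff]
  funext i
  rw [smul_e0]
  refine Fin.cases ?_ (fun j => ?_) i
  · simp [e0, h0]
  · simp [e0, h1]

theorem rhoS_ker (p : ℕ) [hp : Fact p.Prime] [CharP F p] :
    IsPGroup p (rhoS (F := F) (n := n)).ker := by
  intro x
  have hx : (x : MulAction.stabilizer (SpecialLinearGroup (Fin (n + 1)) F)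
      (e0 : Fin (n + 1) → F)).1.1.submatrix Fin.succ Fin.succ = 1 :=
    congrArg (fun t : SpecialLinearGroup (Fin n) F => t.1)
      (show rhoS (x : MulAction.stabilizer (SpecialLinearGroup (Fin (n + 1)) F)
        (e0 : Fin (n + 1) → F)) = 1 from x.2)
  obtain ⟨h1, h2⟩ := stab_col (x : MulAction.stabilizer (SpecialLinearGroup (Fin (n + 1)) F)
    (e0 : Fin (n + 1) → F)).2
  have h3 : (x : MulAction.stabilizer (SpecialLinearGroup (Fin (n + 1)) F)
      (e0 : Fin (n + 1) → F)).1 ∈ Au (e0 : Fin (n + 1) → F) := by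
    refine ⟨Fin.cons 0 fun j => (x : MulAction.stabilizer (SpecialLinearGroup (Fin (n + 1)) F)
      (e0 : Fin (n + 1) → F)).1.1 0 j.succ, ?_, ?_⟩
    · simp [e0]
    · ext i j
      rw [Matrix.add_apply, vecMulVec_apply]
      refine Fin.cases ?_ (fun i' => ?_) i
      · refine Fin.cases ?_ (fun j' => ?_) j
        · simp [e0, h1]
        · simp [e0, Matrix.one_apply, (Fin.succ_ne_zero j').symm]
      · refine Fin.cases ?_ (fun j' => ?_) j
        · simp [e0, h2, Matrix.one_apply]
        · have h4 := congrFun (congrFun hx i') j'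
          rw [submatrix_apply] at h4
          rw [h4]
          simp [e0, Matrix.one_apply]
  obtain ⟨k, hk⟩ := Au_p p (e0 : Fin (n + 1) → F) ⟨_, h3⟩
  have h5 : (x : MulAction.stabilizer (SpecialLinearGroup (Fin (n + 1)) F)
      (e0 : Fin (n + 1) → F)).1 ^ p ^ k = 1 :=
    congrArg (fun t : Au (e0 : Fin (n + 1) → F) =>
      (t : SpecialLinearGroup (Fin (n + 1)) F)) hk
  exact ⟨k, Subtype.ext (Subtype.ext h5)⟩

end stab

/-- **Central extensions of `SL_n(F)`, `n ≥ 2`, with kernels of order prime to `p` split.** -/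
theorem section_sln (p : ℕ) [hp : Fact p.Prime] (F : Type) [Field F] [Finite F] [CharP F p]
    (n : ℕ) : ∀ (M : Type) [Group M] [Finite M] (f : M →* SpecialLinearGroup (Fin (n + 2)) F),
    Function.Surjective f → f.ker ≤ Subgroup.center M → ¬ p ∣ Nat.card f.ker →
    ∃ s : SpecialLinearGroup (Fin (n + 2)) F →* M, ∀ a, f (s a) = a := by
  induction n with
  | zero =>
    intro M _ _ f hs hc hk
    exact S2.section_sl2 p F M f hs hc hk
  | succ n ih =>
    intro M _ _ f hs hc hk
    have hsc : SC' p (SpecialLinearGroup (Fin (n + 2)) F) := sc_of_section ih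
    have hE : ∀ e ∈ Ev f p (e0 : Fin (n + 3) → F), f e = 1 → e = 1 := by
      intro e he hfe
      exact parabolic f hs hc hk (MulAction.stabilizer _ (e0 : Fin (n + 3) → F)) rhoS rhoS_surj
        (rhoS_ker p) hsc e he hfe
    refine section_of_sub f (Subgroup.closure {u : M | PEl p u ∧ f u ∈ Tv}) ?_ ?_
    · intro d hd hfd
      exact transport_sln f hs hc hk (e0 : Fin (n + 3) → F) (by omega) e0_ne hE d hd hfd
    · intro A
      refine Pool.Agent.H463R3.PSLn.transvection_induction (P := fun A => ∃ x ∈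
        Subgroup.closure {u : M | PEl p u ∧ f u ∈ Tv}, f x = A) ?_ ?_ A
      · intro i j hij c
        have h1 : SpecialLinearGroup.transvection hij c ∈ (Tv : Set
            (SpecialLinearGroup (Fin (n + 3)) F)) := by
          refine ⟨Pi.single i c, Pi.single j 1, ?_, ?_⟩
          · simp [hij]
          · rw [SpecialLinearGroup.transvection_coe]
            congr 1
            ext a b
            rw [vecMulVec_apply, Matrix.single_apply, Pi.single_apply, Pi.single_apply]
            by_cases h1 : a = i <;> by_cases h2 : b = j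
            · simp [h1, h2]
            · simp [h1, h2, Ne.symm h2]
            · simp [h1, h2, Ne.symm h1]
            · simp [h1, h2, Ne.symm h1]
        have h2 : PEl p (SpecialLinearGroup.transvection hij c :
            SpecialLinearGroup (Fin (n + 3)) F) := by
          obtain ⟨u, φ, h3, h4⟩ := h1
          obtain ⟨k, hk⟩ := Au_p p u ⟨_, φ, h3, h4⟩
          exact ⟨k, congrArg Subtype.val hk⟩
        obtain ⟨u, hu, hup⟩ := exists_pl f hs hk _ h2
        exact ⟨u, Subgroup.subset_closure ⟨hup, by rw [hu]; exact h1⟩, hu⟩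
      · rintro A B ⟨x, hx, rfl⟩ ⟨y, hy, rfl⟩
        exact ⟨x * y, mul_mem hx hy, map_mul f x y⟩

end Pool.Agent.K7.H53.CE.TR
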