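import Pool.Agent.K7.H53.CE.Aut
import Pool.Agent.K7.H53.DB.Main

/-!
# Supplements of normal subgroups which are central extensions of powers of alternating groups
-/

set_option autoImplicit false
set_option linter.unusedSectionVars false

open Equiv

namespace Pool.Agent.K7.H53.CE

open Pool.Agent.H391R2 (Wr wrMap wr_mul_left wr_mul_right)
open Pool.Agent.K7.H53.DB
open Pool.Agent.TH444.TW (powAct)

section altcase

variable {G Γ : Type} [Group G] [Finite G] [Group Γ]
  (α : G →* Γ) (M : Subgroup Γ) [hMn : M.Normal] {n m : ℕ}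
  (h5 : 5 ≤ n) (h6 : n ≠ 6) (e : M ≃* (Fin m → alternatingGroup (Fin n)))

/-- The conjugation action on `M`. -/
noncomputable def cA : G →* MulAut (Fin m → alternatingGroup (Fin n)) :=
  ((MulAut.congr e).toMonoidHom.comp MulAut.conjNormal).comp α

theorem cA_apply (g : G) (x : M) :
    cA α M e g (e x) = e ⟨α g * x * (α g)⁻¹, hMn.conj_mem _ x.2 _⟩ := by
  change e (MulAut.conjNormal (α g) (e.symm (e x))) = _
  rw [MulEquiv.symm_apply_apply]
  congr 1

/-- The homomorphism to the wreath product. -/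
noncomputable def wg : G →* Wr (Perm (Fin n)) m := (aw h5 h6).comp (cA α M e)

theorem wg_rel (g : G) : Rel (cA α M e g) (wg α M h5 h6 e g) := aw_rel h5 h6 _

theorem wg_ker (z : G) (hz : α z = 1) : wg α M h5 h6 e z = 1 := by
  have h1 : cA α M e z = 1 := by
    change ((MulAut.congr e).toMonoidHom.comp MulAut.conjNormal) (α z) = 1
    rw [hz, map_one]
  change aw h5 h6 (cA α M e z) = 1
  rw [h1, map_one]

theorem wg_mem (ν : G) (hν : α ν ∈ M) :
    wg α M h5 h6 e ν = ⟨fun i => (e ⟨α ν, hν⟩ i : Perm (Fin n)), 1⟩ := by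
  refine rel_unique h5 (cA α M e ν) _ _ (wg_rel α M h5 h6 e ν) ?_
  intro x i
  obtain ⟨y, rfl⟩ := e.surjective x
  rw [cA_apply]
  have h1 : (⟨α ν * y * (α ν)⁻¹, hMn.conj_mem _ y.2 _⟩ : M) = ⟨α ν, hν⟩ * y * ⟨α ν, hν⟩⁻¹ := rfl
  rw [h1, map_mul, map_mul, map_inv]
  rfl

/-- The supplement. -/
noncomputable def HS : Subgroup G :=
  MonoidHom.eqLocus (wg α M h5 h6 e) ((wrMap (eps h5) m).comp (wg α M h5 h6 e))

theorem ker_le_HS : α.ker ≤ HS α M h5 h6 e := by
  intro z hz
  change wg α M h5 h6 e z = wrMap (eps h5) m (wg α M h5 h6 e z)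
  rw [wg_ker α M h5 h6 e z hz, map_one]

theorem HS_inf (h : G) (hh : h ∈ HS α M h5 h6 e) (hM : α h ∈ M) : α h = 1 := by
  have h1 : wg α M h5 h6 e h = wrMap (eps h5) m (wg α M h5 h6 e h) := hh
  rw [wg_mem α M h5 h6 e h hM] at h1
  have h2 : e ⟨α h, hM⟩ = 1 := by
    funext i
    have h3 := congrArg (fun w : Wr (Perm (Fin n)) m => w.left i) h1
    change (e ⟨α h, hM⟩ i : Perm (Fin n)) = eps h5 (e ⟨α h, hM⟩ i : Perm (Fin n)) at h3
    rw [eps_alt h5 (e ⟨α h, hM⟩ i).2] at h3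
    exact Subtype.ext h3
  have h3 : (⟨α h, hM⟩ : M) = 1 := (map_eq_one_iff e e.injective).1 h2
  exact congrArg Subtype.val h3

theorem HS_sup (hα : Function.Surjective α) (g : G) :
    ∃ ν, α ν ∈ M ∧ ∃ h ∈ HS α M h5 h6 e, g = ν * h := by
  let w := wg α M h5 h6 e g
  have hev : ∀ i, eps h5 (w.left i) * (w.left i)⁻¹ ∈ alternatingGroup (Fin n) := by
    intro i
    rw [Perm.mem_alternatingGroup, Perm.sign_mul, sign_eps, Perm.sign_inv, Int.units_mul_self]
  let y : Fin m → alternatingGroup (Fin n) := fun i => ⟨_, hev i⟩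
  obtain ⟨ν, hν⟩ := hα (e.symm y : M)
  have hνM : α ν ∈ M := by
    rw [hν]
    exact (e.symm y).2
  refine ⟨ν⁻¹, by rw [map_inv]; exact inv_mem hνM, ν * g, ?_, (inv_mul_cancel_left ν g).symm⟩
  have h1 : wg α M h5 h6 e (ν * g) = ⟨fun i => eps h5 (w.left i), w.right⟩ := by
    rw [map_mul, wg_mem α M h5 h6 e ν hνM]
    have h2 : (⟨α ν, hνM⟩ : M) = e.symm y := Subtype.ext hν
    rw [h2, MulEquiv.apply_symm_apply]
    refine SemidirectProduct.ext ?_ ?_
    · funext i
      rw [wr_mul_left]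
      change eps h5 (w.left i) * (w.left i)⁻¹ * w.left i = eps h5 (w.left i)
      rw [inv_mul_cancel_right]
    · rw [wr_mul_right]
      exact one_mul _
  change wg α M h5 h6 e (ν * g) = wrMap (eps h5) m (wg α M h5 h6 e (ν * g))
  rw [h1]
  refine SemidirectProduct.ext ?_ rfl
  funext i
  change eps h5 (w.left i) = eps h5 (eps h5 (w.left i))
  exact eps_congr h5 (sign_eps h5 _).symm

/-- **The alternating case.** -/
theorem built_of_HS (p : ℕ) [Fact p.Prime] (hp : p ≠ 2) (hα : Function.Surjective α)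
    (hc : α.ker ≤ Subgroup.center G) (hn : n = 5 ∨ 8 ≤ n ∨ ¬ 3 ∣ Nat.card α.ker)
    (hB : Built p (HS α M h5 h6 e)) : Built p G := by
  have h2 : (2 : ZMod p) ≠ 0 := two_ne hp
  let N : Subgroup G := M.comap α
  let f : N →* (Fin m → alternatingGroup (Fin n)) :=
    e.toMonoidHom.comp ((α.comp N.subtype).codRestrict M (fun x => x.2))
  have hf : ∀ x : N, f x = e ⟨α x, x.2⟩ := fun x => rfl
  have hfs : Function.Surjective f := by
    intro y
    obtain ⟨g, hg⟩ := hα (e.symm y : M)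
    have hgM : α g ∈ M := by
      rw [hg]
      exact (e.symm y).2
    refine ⟨⟨g, hgM⟩, ?_⟩
    rw [hf]
    have h3 : (⟨α g, hgM⟩ : M) = e.symm y := Subtype.ext hg
    change e ⟨α g, hgM⟩ = y
    rw [h3, MulEquiv.apply_symm_apply]
  have hfk : ∀ x : N, x ∈ f.ker → α x = 1 := by
    intro x hx
    rw [MonoidHom.mem_ker, hf] at hx
    exact congrArg Subtype.val ((map_eq_one_iff e e.injective).1 hx)
  have hfc : f.ker ≤ Subgroup.center N := by
    intro x hx
    rw [Subgroup.mem_center_iff]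
    intro y
    exact Subtype.ext (Subgroup.mem_center_iff.1 (hc (hfk x hx)) y)
  let ρ : f.ker →* α.ker := (N.subtype.comp f.ker.subtype).codRestrict α.ker fun x => hfk x x.2
  have hρ : Function.Injective ρ := by
    intro x y hxy
    exact Subtype.ext (Subtype.ext (congrArg (fun t : α.ker => (t : G)) hxy))
  have hn' : n = 5 ∨ 8 ≤ n ∨ ¬ 3 ∣ Nat.card f.ker := by
    rcases hn with hn | hn | hn
    · exact Or.inl hn
    · exact Or.inr (Or.inl hn)
    · exact Or.inr (Or.inr fun h => hn (h.trans (Subgroup.card_dvd_of_injective ρ hρ)))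
  obtain ⟨Φ, hΦ⟩ := exists_pow f hfs hfc h5 hn' (ZMod p) h2
  let H := HS α M h5 h6 e
  let ψ : H →* Wr (Perm (Fin n)) m := (wg α M h5 h6 e).comp H.subtype
  let ψ' : H →* Wr (MulAut (TA n (ZMod p))) m := (wrMap (pact n h2) m).comp ψ
  let act : H →* MulAut (Fin m → TA n (ZMod p)) :=
    (powAct (MonoidHom.id (MulAut (TA n (ZMod p)))) m).comp ψ'
  have hact : ∀ (h : H) (a : Fin m → TA n (ZMod p)) (i : Fin m),
      act h a i = pact n h2 ((ψ h).left i) (a ((ψ h).right⁻¹ i)) := fun h a i => rfl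
  have hsd : Built p ((Fin m → TA n (ZMod p)) ⋊[act] H) := by
    refine Built.step (SemidirectProduct.rightHom) (Or.inr (Or.inl ⟨n, h5, h6, ?_⟩)) hB
    refine ⟨m, ψ', SemidirectProduct.inl, SemidirectProduct.inr,
      SemidirectProduct.inl_injective, SemidirectProduct.range_inl_eq_ker_rightHom,
      fun w => SemidirectProduct.rightHom_inr w, fun w x => ?_⟩
    have h3 := SemidirectProduct.inl_aut (φ := act) w x
    have h4 : act w x = fun i => (ψ' w).left i (x ((ψ' w).right⁻¹ i)) := rfl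
    rw [← h4, h3, map_inv, inv_mul_cancel_right]
  have hΦa : ∀ x, α (Φ x) = (e.symm (fun i => rh n (ZMod p) (x i)) : M) := by
    intro x
    have h3 : e ⟨α (Φ x), (Φ x).2⟩ = fun i => rh n (ZMod p) (x i) := funext fun i => hΦ x i
    rw [← h3, MulEquiv.symm_apply_apply]
  let q : ((Fin m → TA n (ZMod p)) ⋊[act] H) →* G :=
    SemidirectProduct.lift (N.subtype.comp Φ) H.subtype (fun h => by
      refine pi_hom_eq (perfect n h2 h5) _ _ fun a => hc ?_
      rw [MonoidHom.mem_ker]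
      change α ((Φ (act h a) : G)⁻¹ * ((h : G) * Φ a * (h : G)⁻¹)) = 1
      rw [map_mul, map_inv, inv_mul_eq_one, map_mul, map_mul, map_inv, hΦa, hΦa]
      have h3 := cA_apply α M e (h : G) (e.symm (fun i => rh n (ZMod p) (a i)))
      rw [MulEquiv.apply_symm_apply] at h3
      have h4 : (fun i => rh n (ZMod p) (act h a i)) =
          cA α M e (h : G) (fun i => rh n (ZMod p) (a i)) := by
        funext i
        apply Subtype.ext
        rw [wg_rel α M h5 h6 e (h : G) _ i, hact, rh_pact]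
        rfl
      rw [h4, h3, MulEquiv.symm_apply_apply])
  refine Built.quot q ?_ hsd
  intro g
  obtain ⟨ν, hν, h, hh, rfl⟩ := HS_sup α M h5 h6 e hα g
  choose x hx using fun i => rh_surj n h2 (f ⟨ν, hν⟩ i)
  have h3 : f (Φ x) = f ⟨ν, hν⟩ := by
    funext i
    rw [hΦ, hx]
  have h4 : α ((Φ x : G)⁻¹ * ν) = 1 := by
    have h5' : (Φ x)⁻¹ * ⟨ν, hν⟩ ∈ f.ker := by
      rw [MonoidHom.mem_ker, map_mul, map_inv, h3, inv_mul_cancel]
    exact hfk _ h5'
  refine ⟨⟨x, ⟨(Φ x : G)⁻¹ * ν * h, mul_mem (ker_le_HS α M h5 h6 e h4) hh⟩⟩, ?_⟩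
  change (Φ x : G) * ((Φ x : G)⁻¹ * ν * h) = ν * h
  rw [mul_assoc, mul_inv_cancel_left]

end altcase

end Pool.Agent.K7.H53.CE
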