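import Pool.Agent.K7.H53.CE.SL2

/-!
# Central extensions with kernels of order prime to `p`: a transport argument
-/

set_option autoImplicit false
set_option linter.unusedSectionVars false

namespace Pool.Agent.K7.H53.CE.TR

/-- The order of `u` is a power of `p`. -/
def PEl (p : ℕ) {M : Type} [Group M] (u : M) : Prop := ∃ k : ℕ, u ^ p ^ k = 1

section lift

variable {p : ℕ} [hp : Fact p.Prime] {M G : Type} [Group M] [Finite M] [Group G] (f : M →* G)
  (hs : Function.Surjective f) (hc : f.ker ≤ Subgroup.center M) (hk : ¬ p ∣ Nat.card f.ker)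

theorem PEl.map {u : M} (h : PEl p u) : PEl p (f u) := by
  obtain ⟨k, hk⟩ := h
  exact ⟨k, by rw [← map_pow, hk, map_one]⟩

theorem PEl.conj {u : M} (h : PEl p u) (m : M) : PEl p (m * u * m⁻¹) := by
  obtain ⟨k, hk⟩ := h
  exact ⟨k, by rw [conj_pow, hk, mul_one, mul_inv_cancel]⟩

theorem PEl.inv {u : M} (h : PEl p u) : PEl p u⁻¹ := by
  obtain ⟨k, hk⟩ := h
  exact ⟨k, by rw [inv_pow, hk, inv_one]⟩

include hs hk in
theorem exists_pl (g : G) (hg : PEl p g) : ∃ u, f u = g ∧ PEl p u := by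
  obtain ⟨m, rfl⟩ := hs g
  obtain ⟨k, hg⟩ := hg
  have hco : Nat.Coprime (p ^ k) (Nat.card f.ker) :=
    Nat.Coprime.pow_left k ((Nat.Prime.coprime_iff_not_dvd hp.out).2 hk)
  obtain ⟨e, he1, he0⟩ := Nat.chineseRemainder hco 1 0
  refine ⟨m ^ e, ?_, k, ?_⟩
  · rw [map_pow]
    have h1 : f m ^ e = f m ^ 1 := pow_eq_pow_of_modEq he1 hg
    rw [h1, pow_one]
  · obtain ⟨l, hk'⟩ := (Nat.modEq_zero_iff_dvd).1 he0
    have h1 : m ^ p ^ k ∈ f.ker := by rw [MonoidHom.mem_ker, map_pow, hg]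
    rw [← pow_mul, mul_comm, pow_mul, hk', pow_mul, S2.pow_ker f _ h1, one_pow]

include hc hk in
theorem pl_unique (m m' : M) (h : f m = f m') (hm : PEl p m) (hm' : PEl p m') : m = m' := by
  obtain ⟨k, hm⟩ := hm
  obtain ⟨l, hm'⟩ := hm'
  have h1 : m⁻¹ * m' ∈ f.ker := by rw [MonoidHom.mem_ker, map_mul, map_inv, h, inv_mul_cancel]
  have h2 : Commute m (m⁻¹ * m') := Subgroup.mem_center_iff.1 (hc h1) m
  have h3 : (m * (m⁻¹ * m')) ^ p ^ (k + l) = 1 := by
    rw [mul_inv_cancel_left, pow_add, mul_comm, pow_mul, hm', one_pow]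
  rw [h2.mul_pow, pow_add, pow_mul, hm, one_pow, one_mul] at h3
  rw [← pow_add] at h3
  have h4 := S2.pow_ker f _ h1
  have hco : Nat.Coprime (p ^ (k + l)) (Nat.card f.ker) :=
    Nat.Coprime.pow_left _ ((Nat.Prime.coprime_iff_not_dvd hp.out).2 hk)
  have h5 : orderOf (m⁻¹ * m') ∣ 1 := by
    rw [← hco.gcd_eq_one]
    exact Nat.dvd_gcd (orderOf_dvd_of_pow_eq_one h3) (orderOf_dvd_of_pow_eq_one h4)
  have h6 : m⁻¹ * m' = 1 := orderOf_eq_one_iff.1 (Nat.dvd_one.1 h5)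
  exact inv_mul_eq_one.1 h6

include hc in
theorem pl_mul (A : Subgroup G) (hA : IsPGroup p A) (u u' : M) (hu : PEl p u) (hu' : PEl p u')
    (h : f u ∈ A) (h' : f u' ∈ A) : PEl p (u * u') := by
  let N : Subgroup M := A.comap f
  let g : N →* A := (f.comp N.subtype).codRestrict A (fun x => x.2)
  have hgc : g.ker ≤ Subgroup.center N := by
    intro x hx
    rw [Subgroup.mem_center_iff]
    intro y
    exact Subtype.ext (Subgroup.mem_center_iff.1 (hc (show (x : M) ∈ f.ker from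
      congrArg Subtype.val (MonoidHom.mem_ker.1 hx))) y)
  have hfinA : Finite g.range := Set.finite_range g
  have hAr : IsPGroup p g.range := hA.to_subgroup _
  have hnil1 : Group.IsNilpotent g.range := hAr.isNilpotent
  have hgc' : g.rangeRestrict.ker ≤ Subgroup.center N := by
    rw [MonoidHom.ker_rangeRestrict]
    exact hgc
  have hnil : Group.IsNilpotent N := Subgroup.isNilpotent_of_ker_le_center g.rangeRestrict hgc'
  let P₀ : Sylow p N := default
  have hPn : (P₀ : Subgroup N).Normal :=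
    ((Group.isNilpotent_of_finite_tfae (G := N)).out 0 3 rfl rfl).mp hnil p hp P₀
  have huniq := Sylow.unique_of_normal P₀ hPn
  have hmem : ∀ x : N, PEl p x → x ∈ (P₀ : Subgroup N) := by
    intro x hx
    obtain ⟨k, hk⟩ := hx
    have h1 : IsPGroup p (Subgroup.zpowers x) := by
      have h2 : orderOf x ∣ p ^ k := orderOf_dvd_of_pow_eq_one hk
      obtain ⟨l, -, hl⟩ := (Nat.dvd_prime_pow hp.out).1 h2
      exact IsPGroup.of_card (n := l) (by rw [Nat.card_zpowers, hl])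
    obtain ⟨Q, hQ⟩ := h1.exists_le_sylow
    have h3 : Q = P₀ := huniq.uniq Q |>.trans (huniq.uniq P₀).symm
    rw [← h3]
    exact hQ (Subgroup.mem_zpowers x)
  have hx : PEl p (⟨u, h⟩ : N) := by
    obtain ⟨k, hk⟩ := hu
    exact ⟨k, Subtype.ext hk⟩
  have hx' : PEl p (⟨u', h'⟩ : N) := by
    obtain ⟨k, hk⟩ := hu'
    exact ⟨k, Subtype.ext hk⟩
  have h4 : (⟨u, h⟩ * ⟨u', h'⟩ : N) ∈ (P₀ : Subgroup N) := mul_mem (hmem _ hx) (hmem _ hx')
  obtain ⟨k, hk⟩ := P₀.2 ⟨_, h4⟩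
  refine ⟨k, ?_⟩
  have h5 := congrArg (fun t : (P₀ : Subgroup N) => ((t : N) : M)) hk
  exact h5

end lift

/-- `p`-elements which move `v` to `w`. -/
structure TData (p : ℕ) {G V : Type} [Group G] [MulAction G V] (U : V → V → Set G) : Prop where
  act : ∀ {g v w}, g ∈ U v w → g • v = w
  symm : ∀ {g v w}, g ∈ U v w → g⁻¹ ∈ U w v
  conj : ∀ {g v w}, g ∈ U v w → ∀ h : G, h * g * h⁻¹ ∈ U (h • v) (h • w)
  grp : ∀ {g g' v w}, g ∈ U v w → g' ∈ U v w → ∃ A : Subgroup G, IsPGroup p A ∧ g ∈ A ∧ g' ∈ A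

section transport

variable {p : ℕ} [hp : Fact p.Prime] {M G : Type} [Group M] [Finite M] [Group G] (f : M →* G)
  {V : Type} [MulAction G V] (v₀ : V)

/-- The subgroup generated by the `p`-elements which fix `v`. -/
def Ev (p : ℕ) (v : V) : Subgroup M := Subgroup.closure {u | PEl p u ∧ f u • v = v}

theorem Ev_fix {v : V} {m : M} (hm : m ∈ Ev f p v) : f m • v = v := by
  have h1 : Ev f p v ≤ (MulAction.stabilizer G v).comap f := by
    refine (Subgroup.closure_le _).2 ?_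
    rintro u ⟨-, hu⟩
    exact hu
  exact h1 hm

/-- The base point of a coset. -/
def bp (x : M ⧸ Ev f p v₀) : V :=
  Quotient.liftOn' x (fun m => f m • v₀) (by
    intro a b hab
    have h1 := Ev_fix f (QuotientGroup.leftRel_apply.1 hab)
    change f a • v₀ = f b • v₀
    rw [map_mul, map_inv, mul_smul, inv_smul_eq_iff] at h1
    exact h1.symm)

theorem bp_mk (m : M) : bp f v₀ (p := p) (QuotientGroup.mk m) = f m • v₀ := rfl

theorem bp_smul (m : M) (x : M ⧸ Ev f p v₀) : bp f v₀ (m • x) = f m • bp f v₀ x := by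
  obtain ⟨y, rfl⟩ := QuotientGroup.mk_surjective x
  change f (m * y) • v₀ = f m • (f y • v₀)
  rw [map_mul, mul_smul]

theorem fix_of (u : M) (hu : PEl p u) (x : M ⧸ Ev f p v₀) (h : f u • bp f v₀ x = bp f v₀ x) :
    u • x = x := by
  obtain ⟨y, rfl⟩ := QuotientGroup.mk_surjective x
  change (QuotientGroup.mk (u * y) : M ⧸ Ev f p v₀) = QuotientGroup.mk y
  rw [QuotientGroup.eq]
  have h1 : (u * y)⁻¹ * y = y⁻¹ * u⁻¹ * (y⁻¹)⁻¹ := by group
  rw [h1]
  refine Subgroup.subset_closure ⟨hu.inv.conj _, ?_⟩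
  rw [bp_mk] at h
  simp only [map_mul, map_inv, inv_inv, mul_smul]
  rw [inv_smul_eq_iff, inv_smul_eq_iff, h]

/-- Transport. -/
def Rl (U : V → V → Set G) (x y : M ⧸ Ev f p v₀) : Prop :=
  ∃ u : M, PEl p u ∧ f u ∈ U (bp f v₀ x) (bp f v₀ y) ∧ u • x = y

variable {U : V → V → Set G} (hU : TData p U)

include hU

theorem Rl.symm {x y : M ⧸ Ev f p v₀} (h : Rl f v₀ U x y) : Rl f v₀ U y x := by
  obtain ⟨u, h1, h2, h3⟩ := h
  refine ⟨u⁻¹, h1.inv, ?_, ?_⟩
  · rw [map_inv]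
    exact hU.symm h2
  · rw [← h3, inv_smul_smul]

theorem Rl.smul {x y : M ⧸ Ev f p v₀} (h : Rl f v₀ U x y) (m : M) :
    Rl f v₀ U (m • x) (m • y) := by
  obtain ⟨u, h1, h2, h3⟩ := h
  refine ⟨m * u * m⁻¹, h1.conj m, ?_, ?_⟩
  · rw [bp_smul, bp_smul, map_mul, map_mul, map_inv]
    exact hU.conj h2 _
  · rw [← h3, mul_smul, mul_smul, inv_smul_smul]

variable (hs : Function.Surjective f) (hc : f.ker ≤ Subgroup.center M)
  (hk : ¬ p ∣ Nat.card f.ker)

include hs hk in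
theorem Rl.exists (x : M ⧸ Ev f p v₀) (w : V) (h : (U (bp f v₀ x) w).Nonempty) :
    ∃ y, bp f v₀ y = w ∧ Rl f v₀ U x y := by
  obtain ⟨g, hg⟩ := h
  have hpg : PEl p g := by
    obtain ⟨A, hA, h1, -⟩ := hU.grp hg hg
    obtain ⟨k, hk⟩ := hA ⟨g, h1⟩
    exact ⟨k, congrArg Subtype.val hk⟩
  obtain ⟨u, rfl, hu⟩ := exists_pl f hs hk g hpg
  have h1 : bp f v₀ (u • x) = w := by
    rw [bp_smul]
    exact hU.act hg
  refine ⟨u • x, h1, u, hu, ?_, rfl⟩
  rw [h1]
  exact hg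

include hc in
theorem Rl.unique {x y y' : M ⧸ Ev f p v₀} (h : Rl f v₀ U x y) (h' : Rl f v₀ U x y')
    (hb : bp f v₀ y = bp f v₀ y') : y = y' := by
  obtain ⟨u, h1, h2, h3⟩ := h
  obtain ⟨u', h1', h2', h3'⟩ := h'
  rw [← hb] at h2'
  obtain ⟨A, hA, h4, h5⟩ := hU.grp h2 h2'
  have h6 : PEl p (u⁻¹ * u') := pl_mul f hc A hA _ _ h1.inv h1' (by
    rw [map_inv]
    exact inv_mem h4) h5
  have h7 : (u⁻¹ * u') • x = x := by
    refine fix_of f v₀ _ h6 x ?_
    rw [map_mul, map_inv, mul_smul, hU.act h2', inv_smul_eq_iff, hU.act h2]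
  rw [mul_smul, inv_smul_eq_iff] at h7
  rw [← h3, ← h3', h7]

omit hU in
/-- The triangle with the vertices `v`, `w`, `z` is flat. -/
def Tr (U : V → V → Set G) (p : ℕ) [Fact p.Prime] (v w z : V) : Prop :=
  ∀ x y c : M ⧸ Ev f p v₀, bp f v₀ x = v → bp f v₀ y = w → bp f v₀ c = z → Rl f v₀ U x y →
    Rl f v₀ U y c → Rl f v₀ U x c

include hs hc hk in
/-- The triangle is flat if there is an element of `U w z` which fixes `v`. -/
theorem Tr.of_fix {v w z : V} {g : G} (hg : g ∈ U w z) (hv : g • v = v) :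
    Tr f v₀ U p v w z := by
  intro x y c hx hy hz hxy hyc
  have hpg : PEl p g := by
    obtain ⟨A, hA, h1, -⟩ := hU.grp hg hg
    obtain ⟨k, hk⟩ := hA ⟨g, h1⟩
    exact ⟨k, congrArg Subtype.val hk⟩
  obtain ⟨u, rfl, hu⟩ := exists_pl f hs hk g hpg
  have h1 : bp f v₀ (u • y) = z := by
    rw [bp_smul, hy]
    exact hU.act hg
  have h2 : Rl f v₀ U y (u • y) := ⟨u, hu, by rw [h1, hy]; exact hg, rfl⟩
  have h3 : c = u • y := Rl.unique f v₀ hU hc hyc h2 (by rw [hz, h1])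
  have h4 : u • x = x := fix_of f v₀ u hu x (by rw [hx, hv])
  rw [h3, ← h4]
  exact hxy.smul f v₀ hU u

include hs hc hk in
theorem Tr.rot {v w z : V} (hvw : (U v w).Nonempty) (hwz : (U w z).Nonempty)
    (h : Tr f v₀ U p v w z) : Tr f v₀ U p w z v := by
  -- `R y c`, `R c x` imply `R y x`
  intro y c x hy hc' hx hyc hcx
  obtain ⟨y', hy', hxy'⟩ := Rl.exists f v₀ hU hs hk x w (by rwa [hx])
  obtain ⟨c', hc'', hyc'⟩ := Rl.exists f v₀ hU hs hk y' z (by rwa [hy'])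
  have h1 := h x y' c' hx hy' hc'' hxy' hyc'
  have h2 : c = c' := Rl.unique f v₀ hU hc (hcx.symm f v₀ hU) h1 (by rw [hc', hc''])
  rw [← h2] at hyc'
  have h3 : y = y' := Rl.unique f v₀ hU hc (hyc.symm f v₀ hU) (hyc'.symm f v₀ hU)
    (by rw [hy, hy'])
  rw [h3]
  exact hxy'.symm f v₀ hU

theorem Tr.swap {v w z : V} (h : Tr f v₀ U p v w z) : Tr f v₀ U p z w v := by
  intro x y c hx hy hz hxy hyc
  exact (h c y x hz hy hx (hyc.symm f v₀ hU) (hxy.symm f v₀ hU)).symm f v₀ hU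

include hs hc hk in
/-- Tetrahedra. -/
theorem Tr.tetra {v w z y : V} (hvz : (U v z).Nonempty) (hzy : (U z y).Nonempty)
    (h1 : Tr f v₀ U p v w y)
    (h2 : Tr f v₀ U p w z y) (h3 : Tr f v₀ U p v z y) : Tr f v₀ U p v w z := by
  intro x a b hx ha hb hxa hab
  obtain ⟨c, hc', hbc⟩ := Rl.exists f v₀ hU hs hk b y (by rwa [hb])
  have k1 := h2 a b c ha hb hc' hab hbc
  have k2 := h1 x a c hx ha hc' hxa k1
  -- `R x c`, `R c b` imply `R x b`
  have h4 := ((h3.rot f v₀ hU hs hc hk hvz hzy).swap f v₀ hU)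
  exact h4 x c b hx hc' hb k2 (hbc.symm f v₀ hU)

omit hU in
theorem Rl.edge {x y : M ⧸ Ev f p v₀} (h : Rl f v₀ U x y) :
    (U (bp f v₀ x) (bp f v₀ y)).Nonempty := by
  obtain ⟨u, -, h, -⟩ := h
  exact ⟨_, h⟩

/-- The base point. -/
def x0 (p : ℕ) [Fact p.Prime] : M ⧸ Ev f p v₀ := QuotientGroup.mk 1

omit hU in
theorem bp_x0 : bp f v₀ (x0 f v₀ p) = v₀ := by
  unfold x0
  rw [bp_mk, map_one, one_smul]

/-- The points which are reached from the base point. -/
def Sg (U : V → V → Set G) (x : M ⧸ Ev f p v₀) : Prop :=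
  x = x0 f v₀ p ∨ Rl f v₀ U (x0 f v₀ p) x ∨
    (bp f v₀ x ≠ v₀ ∧ ¬ (U v₀ (bp f v₀ x)).Nonempty ∧
      ∃ a, Rl f v₀ U (x0 f v₀ p) a ∧ Rl f v₀ U a x)

variable (hT : ∀ v w z : V, (U v w).Nonempty → (U w z).Nonempty → (U v z).Nonempty →
    Tr f v₀ U p v w z)
  (haux : ∀ a w : V, (U v₀ a).Nonempty → (U v₀ w).Nonempty →
    ∃ z, (U v₀ z).Nonempty ∧ (U a z).Nonempty ∧ (U z w).Nonempty)
  (hcoll : ∀ g : G, g • v₀ ≠ v₀ → ¬ (U v₀ (g • v₀)).Nonempty → ∀ w,
    ((U (g • v₀) w).Nonempty ↔ (U v₀ w).Nonempty))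
  (hself : ∀ v : V, ¬ (U v v).Nonempty)

omit hU in
theorem bp_orbit (x : M ⧸ Ev f p v₀) : ∃ g : G, bp f v₀ x = g • v₀ := by
  obtain ⟨y, rfl⟩ := QuotientGroup.mk_surjective x
  exact ⟨f y, rfl⟩

omit hU in
include hcoll in
theorem coll' (x : M ⧸ Ev f p v₀) (h1 : bp f v₀ x ≠ v₀) (h2 : ¬ (U v₀ (bp f v₀ x)).Nonempty)
    (w : V) : (U (bp f v₀ x) w).Nonempty ↔ (U v₀ w).Nonempty := by
  obtain ⟨g, hg⟩ := bp_orbit f v₀ x
  rw [hg] at h1 h2 ⊢
  exact hcoll g h1 h2 w

include hT hs hk in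
/-- Change of the intermediate point. -/
theorem change {x a : M ⧸ Ev f p v₀} (h1 : Rl f v₀ U (x0 f v₀ p) a) (h2 : Rl f v₀ U a x)
    {z : V} (h3 : (U v₀ z).Nonempty) (h4 : (U (bp f v₀ a) z).Nonempty)
    (h5 : (U z (bp f v₀ x)).Nonempty) :
    ∃ c, bp f v₀ c = z ∧ Rl f v₀ U (x0 f v₀ p) c ∧ Rl f v₀ U c x := by
  obtain ⟨c, hc1, hc2⟩ := Rl.exists f v₀ hU hs hk a z h4
  have e1 := h1.edge
  have e2 := h2.edge
  rw [bp_x0] at e1
  refine ⟨c, hc1, ?_, ?_⟩
  · exact hT _ _ _ e1 hc2.edge (by rwa [hc1]) _ _ _ (bp_x0 f v₀) rfl rfl h1 hc2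
  · have e3 := (hc2.symm f v₀ hU).edge
    exact hT _ _ _ e3 e2 (by rwa [hc1]) _ _ _ rfl rfl rfl (hc2.symm f v₀ hU) h2

include hT haux hcoll hs hc hk in
theorem sg_step {x y : M ⧸ Ev f p v₀} (hx : Sg f v₀ U x) (hxy : Rl f v₀ U x y) :
    Sg f v₀ U y := by
  have eU := hxy.edge
  by_cases hy0 : bp f v₀ y = v₀
  · -- `y` lies over `v₀`
    left
    rcases hx with hx | hx | ⟨h1, h2, h3⟩
    · rw [hx, bp_x0, hy0] at eU
      rw [hx] at hxy
      obtain ⟨u, hu, hu2, hu3⟩ := hxy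
      rw [bp_x0, hy0] at hu2
      have h4 : u • x0 f v₀ p = x0 f v₀ p := fix_of f v₀ u hu _ (by
        rw [bp_x0]
        exact hU.act hu2)
      rw [← hu3, h4]
    · exact Rl.unique f v₀ hU hc hxy (hx.symm f v₀ hU) (by rw [hy0, bp_x0])
    · exfalso
      apply h2
      have h4 := (hxy.symm f v₀ hU).edge
      rwa [hy0] at h4
  by_cases he : (U v₀ (bp f v₀ y)).Nonempty
  · right; left
    rcases hx with hx | hx | ⟨h1, h2, a, ha1, ha2⟩
    · rwa [hx] at hxy
    · have e1 := hx.edge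
      rw [bp_x0] at e1
      exact hT _ _ _ e1 eU he _ _ _ (bp_x0 f v₀) rfl rfl hx hxy
    · -- choose an intermediate point which is adjacent to `y`
      have e1 := ha1.edge
      rw [bp_x0] at e1
      obtain ⟨z, hz1, hz2, hz3⟩ := haux _ _ e1 he
      have e2 : (U z (bp f v₀ x)).Nonempty := by
        have e3 : (U (bp f v₀ x) z).Nonempty := (coll' f v₀ hcoll x h1 h2 z).2 hz1
        obtain ⟨g, hg⟩ := e3
        exact ⟨_, hU.symm hg⟩
      obtain ⟨c, hc1, hc2, hc3⟩ := change f v₀ hU hs hk hT ha1 ha2 hz1 hz2 e2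
      have h5 : Rl f v₀ U c y := hT _ _ _ hc3.edge eU (by rwa [hc1]) _ _ _ rfl rfl rfl hc3 hxy
      have e5 := hc2.edge
      rw [bp_x0] at e5
      exact hT _ _ _ e5 h5.edge he _ _ _ (bp_x0 f v₀) rfl rfl hc2 h5
  · -- `y` is not adjacent to `v₀`
    right; right
    refine ⟨hy0, he, ?_⟩
    rcases hx with hx | hx | ⟨h1, h2, h3⟩
    · exfalso
      apply he
      rw [hx, bp_x0] at eU
      exact eU
    · exact ⟨x, hx, hxy⟩
    · exfalso
      apply h2
      -- `x` is adjacent to `y`, hence `v₀` is adjacent to `y`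
      exact absurd ((coll' f v₀ hcoll x h1 h2 _).1 eU) he

include hT haux hcoll hs hc hk hself in
theorem sg_unique {x y : M ⧸ Ev f p v₀} (hx : Sg f v₀ U x) (hy : Sg f v₀ U y)
    (hb : bp f v₀ x = bp f v₀ y) : x = y := by
  have hv : ∀ z : M ⧸ Ev f p v₀, Sg f v₀ U z → bp f v₀ z = v₀ → z = x0 f v₀ p := by
    intro z hz hz0
    rcases hz with h | h | ⟨h1, -, -⟩
    · exact h
    · have e1 := h.edge
      rw [bp_x0, hz0] at e1
      exact absurd e1 (hself v₀)
    · exact absurd hz0 h1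
  by_cases hx0 : bp f v₀ x = v₀
  · rw [hv x hx hx0, hv y hy (by rw [← hb, hx0])]
  have hy0 : bp f v₀ y ≠ v₀ := by rwa [← hb]
  rcases hx with hx | hx | ⟨h1, h2, a, ha1, ha2⟩
  · exfalso
    apply hx0
    rw [hx, bp_x0]
  · rcases hy with hy | hy | ⟨h1', h2', -⟩
    · exfalso
      apply hy0
      rw [hy, bp_x0]
    · exact Rl.unique f v₀ hU hc hx hy hb
    · exfalso
      apply h2'
      have e1 := hx.edge
      rwa [bp_x0, hb] at e1
  · rcases hy with hy | hy | ⟨h1', h2', b, hb1, hb2⟩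
    · exfalso
      apply hy0
      rw [hy, bp_x0]
    · exfalso
      apply h2
      have e1 := hy.edge
      rwa [bp_x0, ← hb] at e1
    · -- a common intermediate point
      have e1 := ha1.edge
      have e2 := hb1.edge
      rw [bp_x0] at e1 e2
      obtain ⟨z, hz1, hz2, hz3⟩ := haux _ _ e1 e2
      have e3 : (U z (bp f v₀ x)).Nonempty := by
        have e3 : (U (bp f v₀ x) z).Nonempty := (coll' f v₀ hcoll x h1 h2 z).2 hz1
        obtain ⟨g, hg⟩ := e3
        exact ⟨_, hU.symm hg⟩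
      obtain ⟨c, hc1, hc2, hc3⟩ := change f v₀ hU hs hk hT ha1 ha2 hz1 hz2 e3
      have hz3' : (U (bp f v₀ b) z).Nonempty := by
        obtain ⟨g, hg⟩ := hz3
        exact ⟨_, hU.symm hg⟩
      obtain ⟨c', hc1', hc2', hc3'⟩ := change f v₀ hU hs hk hT hb1 hb2 hz1 hz3'
        (by rwa [← hb])
      have hcc : c = c' := Rl.unique f v₀ hU hc hc2 hc2' (by rw [hc1, hc1'])
      rw [← hcc] at hc3'
      exact Rl.unique f v₀ hU hc hc3 hc3' hb

include hT haux hcoll hs hc hk hself in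
/-- **The transport theorem.** -/
theorem transport (hE : ∀ e ∈ Ev f p v₀, f e = 1 → e = 1) (S : Set G)
    (hS : ∀ t ∈ S, ∀ v : V, t • v = v ∨ t ∈ U v (t • v)) (hSi : ∀ t ∈ S, t⁻¹ ∈ S)
    (d : M) (hd : d ∈ Subgroup.closure {u : M | PEl p u ∧ f u ∈ S}) (hfd : f d = 1) : d = 1 := by
  have key : ∀ u : M, PEl p u → f u ∈ S → ∀ x : M ⧸ Ev f p v₀, Sg f v₀ U x →
      Sg f v₀ U (u • x) := by
    intro u hu huS x hx
    rcases hS _ huS (bp f v₀ x) with h | h
    · rw [fix_of f v₀ u hu x h]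
      exact hx
    · refine sg_step f v₀ hU hs hc hk hT haux hcoll hx ⟨u, hu, ?_, rfl⟩
      rw [bp_smul]
      exact h
  have key2 : ∀ x : M ⧸ Ev f p v₀, Sg f v₀ U x → Sg f v₀ U (d • x) := by
    refine Subgroup.closure_induction (p := fun d _ => ∀ x : M ⧸ Ev f p v₀,
      Sg f v₀ U x → Sg f v₀ U (d • x)) ?_ ?_ ?_ ?_ hd
    · rintro u ⟨hu, huS⟩ x hx
      exact key u hu huS x hx
    · intro x hx
      rwa [one_smul]
    · intro a b _ _ ha hb x hx
      rw [mul_smul]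
      exact ha _ (hb x hx)
    · intro a _ ha x hx
      -- the order of `a` is finite
      have h1 : ∀ k : ℕ, Sg f v₀ U (a ^ k • x) := by
        intro k
        induction k with
        | zero => rwa [pow_zero, one_smul]
        | succ k ih =>
          rw [pow_succ', mul_smul]
          exact ha _ ih
      have h2 : a⁻¹ = a ^ (orderOf a - 1) := by
        have h3 := orderOf_pos a
        rw [inv_eq_iff_mul_eq_one]
        rw [← pow_succ', Nat.sub_add_cancel h3, pow_orderOf_eq_one]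
      rw [h2]
      exact h1 _
  have h1 := key2 (x0 f v₀ p) (Or.inl rfl)
  have h2 : d • x0 f v₀ p = x0 f v₀ p := by
    refine sg_unique f v₀ hU hs hc hk hT haux hcoll hself h1 (Or.inl rfl) ?_
    rw [bp_smul, hfd, one_smul]
  have h3 : (QuotientGroup.mk (d * 1) : M ⧸ Ev f p v₀) = QuotientGroup.mk 1 := h2
  rw [QuotientGroup.eq, mul_one, mul_one] at h3
  have h4 : d ∈ Ev f p v₀ := by
    have h5 := inv_mem h3
    rwa [inv_inv] at h5
  exact hE d h4 hfd

end transport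

/-- The central extensions of `G` by groups of order prime to `p` split in the strong form: the
subgroup which is generated by the `p`-elements does not meet the kernel. -/
def SC' (p : ℕ) (G : Type) [Group G] : Prop :=
  ∀ (M : Type) [Group M] [Finite M] (f : M →* G), Function.Surjective f →
    f.ker ≤ Subgroup.center M → ¬ p ∣ Nat.card f.ker →
    ∀ d ∈ Subgroup.closure {u : M | PEl p u}, f d = 1 → d = 1

/-- Sections. -/
theorem SC'.section {p : ℕ} [Fact p.Prime] {G : Type} [Group G] (h : SC' p G)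
    (hgen : Subgroup.closure {g : G | PEl p g} = ⊤) (M : Type) [Group M] [Finite M] (f : M →* G)
    (hs : Function.Surjective f) (hc : f.ker ≤ Subgroup.center M)
    (hk : ¬ p ∣ Nat.card f.ker) : ∃ s : G →* M, ∀ a, f (s a) = a := by
  let D : Subgroup M := Subgroup.closure {u : M | PEl p u}
  let g : D →* G := f.comp D.subtype
  have hg : Function.Bijective g := by
    constructor
    · rw [injective_iff_map_eq_one]
      rintro ⟨x, hx⟩ hgx
      exact Subtype.ext (h M f hs hc hk x hx hgx)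
    · have h1 : D.map f = ⊤ := by
        rw [eq_top_iff, ← hgen, Subgroup.closure_le]
        intro a ha
        obtain ⟨u, rfl, hu⟩ := exists_pl f hs hk a ha
        exact ⟨u, Subgroup.subset_closure hu, rfl⟩
      intro a
      have h2 : a ∈ D.map f := by
        rw [h1]
        exact Subgroup.mem_top a
      obtain ⟨x, hx, hxa⟩ := h2
      exact ⟨⟨x, hx⟩, hxa⟩
  let e := MulEquiv.ofBijective g hg
  exact ⟨D.subtype.comp e.symm.toMonoidHom, fun a => e.apply_symm_apply a⟩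

/-- Conversely, a section gives the strong form. -/
theorem sc_of_section {p : ℕ} [Fact p.Prime] {G : Type} [Group G]
    (h : ∀ (M : Type) [Group M] [Finite M] (f : M →* G), Function.Surjective f →
      f.ker ≤ Subgroup.center M → ¬ p ∣ Nat.card f.ker → ∃ s : G →* M, ∀ a, f (s a) = a) :
    SC' p G := by
  intro M _ _ f hs hc hk d hd hfd
  have hfinG : Finite G := Finite.of_surjective f hs
  obtain ⟨s, hs'⟩ := h M f hs hc hk
  have h1 : d ∈ s.range := by
    refine (Subgroup.closure_le _).2 ?_ hd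
    intro u hu
    refine ⟨f u, ?_⟩
    exact pl_unique f hc hk _ _ (hs' (f u)) (PEl.map s (PEl.map f hu)) hu
  obtain ⟨g, rfl⟩ := h1
  rw [hs'] at hfd
  rw [hfd, map_one]

end Pool.Agent.K7.H53.CE.TR
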