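import Pool.Agent.K7.H53.CE.Gen
import Pool.Agent.K7.H53.CE.SL2
import Pool.Agent.K7.H53.CE.SLn
import Pool.Agent.K7.H53.CE.Defs
import Pool.Agent.K7.H53.MA.Main
import Pool.Agent.Y60.DC.RecC

/-!
# The simple groups of the theorem on central extensions
-/

set_option autoImplicit false
set_option linter.unusedSectionVars false

open scoped commutatorElement

namespace Pool.Agent.K7.H53.CE

open Pool.Agent.TH59.WX (Indec)
open Pool.Agent.Y60.DC (IsAutPower CompIn LocP PSL2 FacC)
open Pool.Agent.K7.H53.MA (FacA IsAlt compl_alt)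
open Pool.Agent.K7.H53.DB (TA rh neg1 finite_TA perfect rh_surj two_ne locP_db center_TA)

/-- `A_n` for odd `p`. -/
theorem tyB_alt (p : ℕ) [Fact p.Prime] (hp : p ≠ 2) (c n : ℕ) (h5 : 5 ≤ n) (h6 : n ≠ 6)
    (hn : n = 5 ∨ 8 ≤ n ∨ ¬ 3 ∣ c) : TyB p c (alternatingGroup (Fin n)) := by
  have h2 := two_ne hp
  refine ⟨inferInstance, center_alt h5, indec_alt h5, nontrivial_alt h5, compl_alt n h5 h6,
    (fun d => n = 5 ∨ 8 ≤ n ∨ ¬ 3 ∣ d), TA n (ZMod p), inferInstance, rh n (ZMod p),
    finite_TA n h2, ?_, ?_, hn, locP_db p hp n h5 h6⟩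
  · exact
      { surj := rh_surj n h2
        perf := perfect n h2 h5
        cen := fun w hw => (center_TA n h2 h5 w).2 hw
        ker := by
          rw [card_ker_rh h2]
          right; right
          norm_num
        lift := fun M _ _ f hs hc hC => exists_hom' f hs hc h5 hC (ZMod p) h2 }
  · rintro a b hab (h | h | h)
    · exact Or.inl h
    · exact Or.inr (Or.inl h)
    · exact Or.inr (Or.inr fun h' => h (h'.trans hab))

/-- `A_n` for `p = 2`. -/
theorem tyA_alt (c n : ℕ) (h5 : 5 ≤ n) (h6 : n ≠ 6) (hn : n = 5 ∨ 8 ≤ n ∨ ¬ 3 ∣ c)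
    (hc2 : ¬ 2 ∣ c) : TyA 2 c (alternatingGroup (Fin n)) := by
  refine ⟨inferInstance, commutator_alternatingGroup_eq_top (by
    rwa [Nat.card_eq_fintype_card, Fintype.card_fin]), Or.inl ⟨n, h5, h6, ⟨MulEquiv.refl _⟩⟩, ?_⟩
  intro M _ _ f hs hc hk
  have h23 : (2 : ZMod 3) ≠ 0 := by decide
  have : Fact (Nat.Prime 3) := ⟨Nat.prime_three⟩
  obtain ⟨φ, hφ⟩ := exists_hom' f hs hc h5 (by
    rcases hn with h | h | h
    · exact Or.inl h
    · exact Or.inr (Or.inl h)
    · exact Or.inr (Or.inr fun h' => h (h'.trans hk))) (ZMod 3) h23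
  have hneg : φ (neg1 n) = 1 := by
    have h1 : φ (neg1 n) ∈ f.ker := by
      rw [MonoidHom.mem_ker, hφ]
      exact (DB.ker_rh n h23 _).2 (Or.inr rfl)
    refine sq_one f hc (fun h => hc2 (h.trans hk)) h1 ?_
    rw [← map_mul, DB.neg1_sq, map_one]
  have hker : (rh n (ZMod 3)).ker ≤ φ.ker := by
    intro w hw
    rcases (DB.ker_rh n h23 w).1 hw with h | h
    · rw [h]
      exact one_mem _
    · rw [h]
      exact hneg
  refine ⟨(rh n (ZMod 3)).liftOfSurjective (rh_surj n h23) ⟨φ, hker⟩, fun t => ?_⟩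
  obtain ⟨w, rfl⟩ := rh_surj n h23 t
  have h1 := MonoidHom.liftOfRightInverse_comp_apply (rh n (ZMod 3)) _
    (Function.rightInverse_surjInv (rh_surj n h23)) ⟨φ, hker⟩ w
  have h2 : ((rh n (ZMod 3)).liftOfSurjective (rh_surj n h23) ⟨φ, hker⟩) (rh n (ZMod 3) w) =
    φ w := h1
  rw [h2, hφ]

theorem NoCover.iso {p : ℕ} {T T' : Type} [Group T] [Group T'] (e : T ≃* T')
    (h : NoCover p T) : NoCover p T' := by
  intro M _ _ f hs hc hk
  let g : M →* T := e.symm.toMonoidHom.comp f
  have hg : g.ker = f.ker := by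
    ext x
    rw [MonoidHom.mem_ker, MonoidHom.mem_ker]
    exact map_eq_one_iff e.symm e.symm.injective
  obtain ⟨s, hs'⟩ := h M g (e.symm.surjective.comp hs) (by rwa [hg]) (by rwa [hg])
  refine ⟨s.comp e.symm.toMonoidHom, fun t => ?_⟩
  have h1 : e.symm (f (s (e.symm t))) = e.symm t := hs' (e.symm t)
  exact e.symm.injective h1

theorem perfect_of_simple {T : Type} [Group T] (hs : IsSimpleGroup T)
    (h : ∃ a b : T, a * b ≠ b * a) : commutator T = ⊤ := by
  rcases hs.eq_bot_or_eq_top_of_normal (commutator T) inferInstance with h1 | h1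
  · exfalso
    obtain ⟨a, b, hab⟩ := h
    apply hab
    have h2 : ⁅a, b⁆ ∈ commutator T := Subgroup.commutator_mem_commutator
      (Subgroup.mem_top a) (Subgroup.mem_top b)
    rw [h1, Subgroup.mem_bot, commutatorElement_eq_one_iff_mul_comm] at h2
    exact h2
  · exact h1

theorem tyA_nocover (p : ℕ) [hp : Fact p.Prime] (c : ℕ) (hc0 : ¬ p ∣ c) (T : Type) [Group T]
    (h : FacC p T) (hab : ∃ a b : T, a * b ≠ b * a) (hno : NoCover p T) : TyA p c T := by
  have hfin : Finite T := by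
    rcases FacC.good p T h with h1 | h1
    · exact (Nat.card_pos_iff.1 (by rw [h1]; exact hp.out.pos)).2
    · exact h1.1
  refine ⟨hfin, perfect_of_simple (FacC.simple p T h) hab, Or.inr h, ?_⟩
  intro M _ _ f hs hc hk
  exact hno M f hs hc fun h' => hc0 (h'.trans hk)

section psl

open Matrix

variable (p : ℕ) [hp : Fact p.Prime] (F : Type) [Field F] [Finite F] [CharP F p]

/-- Central extensions of `PSL_2(F)`. -/
theorem psl_lift (M : Type) [Group M] [Finite M] (f : M →* PSL2 F)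
    (hs : Function.Surjective f) (hc : f.ker ≤ Subgroup.center M) (hk : ¬ p ∣ Nat.card f.ker) :
    ∃ φ : SpecialLinearGroup (Fin 2) F →* M, ∀ t, f (φ t) = QuotientGroup.mk t := by
  let R : Subgroup (M × SpecialLinearGroup (Fin 2) F) :=
    MonoidHom.eqLocus (f.comp (MonoidHom.fst _ _))
      ((QuotientGroup.mk' (Subgroup.center (SpecialLinearGroup (Fin 2) F))).comp
        (MonoidHom.snd _ _))
  have hR : ∀ x : R, f x.1.1 = QuotientGroup.mk x.1.2 := fun x => x.2
  let g : R →* SpecialLinearGroup (Fin 2) F := (MonoidHom.snd _ _).comp R.subtype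
  have hg : Function.Surjective g := by
    intro t
    obtain ⟨m, hm⟩ := hs (QuotientGroup.mk t)
    exact ⟨⟨(m, t), hm⟩, rfl⟩
  have hgk : ∀ x : R, x ∈ g.ker → x.1.1 ∈ f.ker ∧ x.1.2 = 1 := by
    intro x hx
    have h1 : x.1.2 = 1 := hx
    refine ⟨?_, h1⟩
    rw [MonoidHom.mem_ker, hR, h1]
    rfl
  have hgc : g.ker ≤ Subgroup.center R := by
    intro x hx
    obtain ⟨h1, h2⟩ := hgk x hx
    rw [Subgroup.mem_center_iff]
    intro y
    apply Subtype.ext
    apply Prod.ext
    · exact Subgroup.mem_center_iff.1 (hc h1) y.1.1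
    · change y.1.2 * x.1.2 = x.1.2 * y.1.2
      rw [h2, one_mul, mul_one]
  let τ : g.ker →* f.ker := (((MonoidHom.fst _ _).comp R.subtype).comp g.ker.subtype).codRestrict
    f.ker fun x => (hgk x x.2).1
  have hτ : Function.Injective τ := by
    intro x y hxy
    apply Subtype.ext
    apply Subtype.ext
    apply Prod.ext
    · exact congrArg (fun t : f.ker => (t : M)) hxy
    · rw [(hgk x x.2).2, (hgk y y.2).2]
  obtain ⟨s, hs'⟩ := S2.section_sl2 p F R g hg hgc
    (fun h => hk (h.trans (Subgroup.card_dvd_of_injective τ hτ)))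
  refine ⟨((MonoidHom.fst _ _).comp R.subtype).comp s, fun t => ?_⟩
  have h1 := hR (s t)
  have h2 : (s t).1.2 = t := hs' t
  rw [h2] at h1
  exact h1

theorem card_center_sl2 : ¬ p ∣ Nat.card (Subgroup.center (SpecialLinearGroup (Fin 2) F)) := by
  intro h
  obtain ⟨x, hx⟩ := exists_prime_orderOf_dvd_card' p h
  have h1 := Matrix.SpecialLinearGroup.mem_center_iff.1 x.2
  obtain ⟨r, hr, hrx⟩ := h1
  have h2 : x ^ p = 1 := by rw [← hx, pow_orderOf_eq_one]
  have h3 : r ^ p = 1 := by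
    have h4 : ((x : SpecialLinearGroup (Fin 2) F) : Matrix (Fin 2) (Fin 2) F) ^ p = 1 := by
      have h5 := congrArg (fun y : Subgroup.center (SpecialLinearGroup (Fin 2) F) =>
        ((y : SpecialLinearGroup (Fin 2) F) : Matrix (Fin 2) (Fin 2) F)) h2
      simpa using h5
    rw [← hrx, ← map_pow] at h4
    have h6 := congrFun (congrFun h4 0) 0
    simpa [Matrix.scalar_apply] using h6
  have h4 : r = 1 := by
    have h5 : (r - 1) ^ p = 0 := by
      rw [sub_pow_char_of_commute (p := p) (Commute.one_right r), h3, one_pow, sub_self]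
    have h6 := pow_eq_zero_iff hp.out.ne_zero |>.1 h5
    exact sub_eq_zero.1 h6
  have h5 : x = 1 := by
    apply Subtype.ext
    apply Subtype.ext
    rw [← hrx, h4, map_one]
    rfl
  rw [h5, orderOf_one] at hx
  exact hp.out.one_lt.ne hx

/-- `PSL_2(F)`. -/
theorem tyB_psl (c : ℕ) (hc0 : ¬ p ∣ c) (k : ℕ) (h4 : 4 ≤ Nat.card F) (hk : Nat.card F = p ^ k)
    (hpk : p = 2 ∨ Odd k) : TyB p c (PSL2 F) := by
  have hfin : Finite (SpecialLinearGroup (Fin 2) F) := inferInstance
  have hfin2 : Finite (PSL2 F) := Finite.of_surjective _ QuotientGroup.mk_surjective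
  have hs : IsSimpleGroup (PSL2 F) := Matrix.ProjectiveSpecialLinearGroup.rank_two_simple h4
  have hcen := Pool.Agent.Y60.DC.psl_center F h4
  refine ⟨hfin2, hcen, Pool.Agent.Y60.DC.indec_of_simple _ hcen, hs.toNontrivial,
    Pool.Agent.Y461.DC.compl_holds Pool.Agent.Y287.DC.aut_holds F p k hp.out h4 hk hpk,
    (fun d => ¬ p ∣ d), SpecialLinearGroup (Fin 2) F, inferInstance,
    QuotientGroup.mk' (Subgroup.center (SpecialLinearGroup (Fin 2) F)), hfin, ?_, ?_, hc0,
    Pool.Agent.Y60.DC.locS Pool.Agent.Y287.DC.aut_holds p F h4⟩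
  · obtain ⟨a, ha, ha2⟩ := Pool.Agent.Y60.DC.exists_sq F h4
    exact
      { surj := QuotientGroup.mk'_surjective _
        perf := Matrix.SL2.commutator_eq_top ha ha2
        cen := by rw [QuotientGroup.ker_mk']
        ker := by
          rw [QuotientGroup.ker_mk']
          exact card_center_sl2 p F
        lift := fun M _ _ f hs hc hC => psl_lift p F M f hs hc hC }
  · intro a b hab hb h
    exact hb (h.trans hab)

end psl

/-- `SL_n(F)`, `n ≥ 3`, has no central extensions of order prime to `p`. -/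
theorem noCover_sln (p : ℕ) [hp : Fact p.Prime] (F : Type) [Field F] [Finite F] [CharP F p]
    (n : ℕ) (hn : 3 ≤ n) : NoCover p (Matrix.SpecialLinearGroup (Fin n) F) := by
  obtain ⟨m, rfl⟩ : ∃ m, n = m + 2 := ⟨n - 2, by omega⟩
  intro M _ _ f hs hc hk
  exact TR.section_sln p F m M f hs hc hk

/-- `PSL_n(F)`, `n ≥ 3` prime to `|F| - 1`, has no central extensions of order prime to `p`. -/
theorem noCover_psln (p : ℕ) [hp : Fact p.Prime] (F : Type) [Field F] [Finite F] [CharP F p]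
    (n : ℕ) (hn : 3 ≤ n) (hc : Nat.Coprime n (Nat.card F - 1)) :
    NoCover p (Matrix.ProjectiveSpecialLinearGroup (Fin n) F) :=
  NoCover.iso (Pool.Agent.Y60.DC.psln_equiv hn hc) (noCover_sln p F n hn)

/-- `PSL_n(F)`, `n ≥ 3` prime to `|F| - 1`. -/
theorem tyA_psln (p : ℕ) [hp : Fact p.Prime] (c : ℕ) (hc0 : ¬ p ∣ c) (F : Type) [Field F]
    [Finite F] [CharP F p] (n : ℕ) (hn : 3 ≤ n) (hc : Nat.Coprime n (Nat.card F - 1)) :
    TyA p c (Matrix.ProjectiveSpecialLinearGroup (Fin n) F) := by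
  have hs0 : IsSimpleGroup (Pool.Agent.Y60.DC.PSLn n F) := Pool.Agent.Y60.DC.simpleN_all F n hn
  have hs : IsSimpleGroup (Matrix.SpecialLinearGroup (Fin n) F) :=
    (Pool.Agent.Y60.DC.psln_equiv hn hc).isSimpleGroup
  have hfac : FacC p (Matrix.ProjectiveSpecialLinearGroup (Fin n) F) :=
    Or.inl (Or.inl (Or.inr (Or.inr ⟨F, inferInstance, inferInstance, inferInstance, n, hn, hc,
      ⟨MulEquiv.refl _⟩⟩)))
  refine tyA_nocover p c hc0 _ hfac ?_ (noCover_psln p F n hn hc)
  by_contra hne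
  push Not at hne
  have hcen := Pool.Agent.Y60.DC.sln_center (F := F) hn hc
  have hcomm : ∀ a b : Matrix.SpecialLinearGroup (Fin n) F, a * b = b * a := by
    intro a b
    apply (Pool.Agent.Y60.DC.psln_equiv hn hc).injective
    rw [map_mul, map_mul]
    exact hne _ _
  have htop : Subgroup.center (Matrix.SpecialLinearGroup (Fin n) F) = ⊤ := by
    rw [eq_top_iff]
    intro x _
    rw [Subgroup.mem_center_iff]
    intro g
    exact hcomm g x
  rw [hcen] at htop
  have := hs.toNontrivial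
  exact bot_ne_top htop

end Pool.Agent.K7.H53.CE
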