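import Pool.Agent.K7.H53.CE.Carm
import Pool.Agent.K7.H53.DB.Grp

/-!
# The double cover of the alternating group is universal (up to the prime 3)
-/

set_option autoImplicit false
set_option linter.unusedSectionVars false
set_option linter.unusedVariables false

open Equiv

namespace Pool.Agent.K7.H53.CE

open Pool.Agent.K7.H53.DB

section card

theorem card_ker_range {A B : Type} [Group A] [Group B] (g : A →* B) :
    Nat.card A = Nat.card g.ker * Nat.card g.range := by
  rw [← Subgroup.card_mul_index g.ker, Subgroup.index_ker]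

variable {n : ℕ}

/-- the indices -/
def sab (a b : Fin n) : Finset (Fin n) := Finset.univ.filter fun i => i ≠ a ∧ i ≠ b

theorem mem_sab {a b i : Fin n} : i ∈ sab a b ↔ i ≠ a ∧ i ≠ b := by
  unfold sab
  simp

theorem card_sab {a b : Fin n} (hab : a ≠ b) : (sab a b).card + 2 = n := by
  have h1 : sab a b = (Finset.univ.erase a).erase b := by
    ext i
    rw [mem_sab]
    simp [and_comm]
  have h2 : b ∈ (Finset.univ.erase a : Finset (Fin n)) := by simp [hab.symm]
  have h3 := Finset.card_erase_of_mem h2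
  have h4 := Finset.card_erase_of_mem (Finset.mem_univ a)
  rw [Finset.card_univ, Fintype.card_fin] at h4
  have h5 := Finset.card_pos.2 ⟨b, h2⟩
  rw [h1, h3, h4]
  omega

/-- The bound for groups with a central element of order two. -/
theorem card_bound {H : Type} [Group H] [Finite H] {a b : Fin n} (hab : a ≠ b) (y : Fin n → H)
    (z : H) (hz : z * z = 1) (hzc : z ∈ Subgroup.center H) (h3 : ∀ i ∈ sab a b, y i ^ 3 = 1)
    (h2 : ∀ i ∈ sab a b, ∀ j ∈ sab a b, i ≠ j → (y i * y j) ^ 2 = z) :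
    Nat.card (Subgroup.closure (y '' (sab a b : Set (Fin n)))) ≤ n.factorial := by
  have hnorm : (Subgroup.zpowers z).Normal := by
    refine ⟨?_⟩
    rintro x ⟨k, rfl⟩ g
    have h4 : g * z ^ k * g⁻¹ = z ^ k := by
      have h5 := Subgroup.mem_center_iff.1 (Subgroup.zpow_mem _ hzc k) g
      rw [h5, mul_inv_cancel_right]
    change g * z ^ k * g⁻¹ ∈ _
    rw [h4]
    exact ⟨k, rfl⟩
  let q := QuotientGroup.mk' (Subgroup.zpowers z)
  let D := Subgroup.closure (y '' (sab a b : Set (Fin n)))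
  have hqz : q z = 1 := (QuotientGroup.eq_one_iff z).2 (Subgroup.mem_zpowers z)
  obtain ⟨-, h4⟩ := carm (fun i => q (y i)) (sab a b) (fun i hi => by
      rw [← map_pow, h3 i hi, map_one]) (fun i hi j hj hij => by
      rw [← map_mul, ← map_pow, h2 i hi j hj hij, hqz])
  rw [card_sab hab] at h4
  let g : D →* H ⧸ Subgroup.zpowers z := q.comp D.subtype
  have h5 : (g.range : Set (H ⧸ Subgroup.zpowers z)) =
      (Subgroup.closure ((fun i => q (y i)) '' (sab a b : Set (Fin n))) : Set _) := by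
    have h6 : g.range = D.map q := by
      rw [MonoidHom.range_comp, Subgroup.range_subtype]
    rw [h6, MonoidHom.map_closure, ← Set.image_comp]
    rfl
  have h7 : Nat.card g.range = (g.range : Set (H ⧸ Subgroup.zpowers z)).ncard := rfl
  rw [← h5, ← h7] at h4
  have h8 : Nat.card g.ker ≤ 2 := by
    have h9 : ∀ x : g.ker, ((x : D) : H) ∈ Subgroup.zpowers z := fun x =>
      (QuotientGroup.eq_one_iff _).1 x.2
    have h10 : Nat.card g.ker ≤ Nat.card (Subgroup.zpowers z) :=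
      Nat.card_le_card_of_injective (fun x : g.ker => (⟨_, h9 x⟩ : Subgroup.zpowers z))
        fun x x' h => Subtype.ext (Subtype.ext
          (congrArg (fun t : Subgroup.zpowers z => (t : H)) h))
    refine h10.trans ?_
    rw [Nat.card_zpowers]
    exact orderOf_le_of_pow_eq_one (by norm_num) (by rw [pow_two, hz])
  rw [card_ker_range g]
  exact (Nat.mul_le_mul_right _ h8).trans h4

end card

section lift

variable {n : ℕ} {M : Type} [Group M] [Finite M] (f : M →* alternatingGroup (Fin n))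
    (hs : Function.Surjective f) (hc : f.ker ≤ Subgroup.center M) (h3 : ¬ 3 ∣ Nat.card f.ker)

include hc h3 in
theorem cube_unique {y y' : M} (h : f y = f y') (hy : y ^ 3 = 1) (hy' : y' ^ 3 = 1) : y = y' := by
  have h1 : y⁻¹ * y' ∈ f.ker := by
    rw [MonoidHom.mem_ker, map_mul, map_inv, h, inv_mul_cancel]
  have h2 : Commute y (y⁻¹ * y') := (Subgroup.mem_center_iff.1 (hc h1) y)
  have h4 : (y⁻¹ * y') ^ 3 = 1 := by
    have h5 := h2.mul_pow 3
    rw [mul_inv_cancel_left, hy, hy', one_mul] at h5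
    exact h5.symm
  have h6 : (⟨y⁻¹ * y', h1⟩ : f.ker) = 1 := by
    have h7 : orderOf (⟨y⁻¹ * y', h1⟩ : f.ker) ∣ 3 := orderOf_dvd_of_pow_eq_one (Subtype.ext h4)
    have h8 : orderOf (⟨y⁻¹ * y', h1⟩ : f.ker) ∣ Nat.card f.ker := orderOf_dvd_natCard _
    rcases (Nat.dvd_prime Nat.prime_three).1 h7 with h9 | h9
    · exact orderOf_eq_one_iff.1 h9
    · rw [h9] at h8
      exact absurd h8 h3
  exact (inv_mul_eq_one.1 (congrArg Subtype.val h6))

include hs hc h3 in
theorem cube_lift (g : alternatingGroup (Fin n)) (hg : g ^ 3 = 1) :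
    ∃ y : M, f y = g ∧ y ^ 3 = 1 := by
  obtain ⟨m, rfl⟩ := hs g
  have h1 : m ^ 3 ∈ f.ker := by rw [MonoidHom.mem_ker, map_pow, hg]
  have hcop : (Nat.card f.ker).Coprime 3 :=
    ((Nat.Prime.coprime_iff_not_dvd Nat.prime_three).2 h3).symm
  obtain ⟨z, hz⟩ := (powCoprime hcop).surjective ⟨m ^ 3, h1⟩
  have hz' : (z : M) ^ 3 = m ^ 3 := congrArg Subtype.val hz
  have h0 : Commute m (z : M) := Subgroup.mem_center_iff.1 (hc z.2) m
  have h2 : Commute m ((z : M)⁻¹) := h0.inv_right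
  refine ⟨m * (z : M)⁻¹, ?_, ?_⟩
  · rw [map_mul, map_inv, z.2, inv_one, mul_one]
  · rw [h2.mul_pow, inv_pow, hz', mul_inv_cancel]

theorem sign_ss {i j k l : Fin n} (h : i ≠ j) (h' : k ≠ l) :
    swap i j * swap k l ∈ alternatingGroup (Fin n) := by
  rw [Perm.mem_alternatingGroup, Perm.sign_mul, Perm.sign_swap h, Perm.sign_swap h']
  rfl

include hs hc h3 in
/-- The relations. -/
theorem exists_rel {a b : Fin n} (hab : a ≠ b) {i0 j0 : Fin n} (hi0 : i0 ∈ sab a b)
    (hj0 : j0 ∈ sab a b) (hij0 : i0 ≠ j0) :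
    ∃ (y : Fin n → M) (z : M), z ∈ f.ker ∧ z * z = 1 ∧
      (∀ i ∈ sab a b, (f (y i) : Perm (Fin n)) = xs a b i ∧ y i ^ 3 = 1) ∧
      ∀ i ∈ sab a b, ∀ j ∈ sab a b, i ≠ j → (y i * y j) ^ 2 = z := by
  have hex : ∀ i : Fin n, ∃ y : M, i ∈ sab a b → (f y : Perm (Fin n)) = xs a b i ∧ y ^ 3 = 1 := by
    intro i
    by_cases hi : i ∈ sab a b
    · have hi' := mem_sab.1 hi
      obtain ⟨y, h1, h2⟩ := cube_lift f hs hc h3 ⟨xs a b i, sign_ss hab hi'.1.symm⟩
        (Subtype.ext (xs_cube hab hi'.1 hi'.2))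
      exact ⟨y, fun _ => ⟨by rw [h1], h2⟩⟩
    · exact ⟨1, fun h => absurd h hi⟩
  choose y hy using hex
  have hy1 : ∀ i ∈ sab a b, (f (y i) : Perm (Fin n)) = xs a b i := fun i hi => (hy i hi).1
  have hy3 : ∀ i ∈ sab a b, y i ^ 3 = 1 := fun i hi => (hy i hi).2
  let w : Fin n → Fin n → M := fun i j => (y i * y j) ^ 2
  have hw : ∀ i ∈ sab a b, ∀ j ∈ sab a b, i ≠ j → w i j ∈ f.ker := by
    intro i hi j hj hij
    rw [MonoidHom.mem_ker]
    apply Subtype.ext
    change ((f ((y i * y j) ^ 2) : alternatingGroup (Fin n)) : Perm (Fin n)) = 1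
    rw [map_pow, map_mul, Subgroup.coe_pow, Subgroup.coe_mul, hy1 i hi, hy1 j hj]
    exact xs_sq hab (mem_sab.1 hi).1 (mem_sab.1 hi).2 (mem_sab.1 hj).1 (mem_sab.1 hj).2 hij
  have hwc : ∀ i ∈ sab a b, ∀ j ∈ sab a b, i ≠ j → ∀ m, m * w i j * m⁻¹ = w i j := by
    intro i hi j hj hij m
    rw [Subgroup.mem_center_iff.1 (hc (hw i hi j hj hij)) m, mul_inv_cancel_right]
  have hconj : ∀ (m : M) (σ : Perm (Fin n)), (f m : Perm (Fin n)) = σ → ∀ i ∈ sab a b,
      ∀ u : M, (f u : Perm (Fin n)) = xs (σ a) (σ b) (σ i) → u ^ 3 = 1 → m * y i * m⁻¹ = u := by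
    intro m σ hm i hi u hu hu3
    refine cube_unique f hc h3 ?_ ?_ hu3
    · apply Subtype.ext
      rw [map_mul, map_mul, map_inv, Subgroup.coe_mul, Subgroup.coe_mul, Subgroup.coe_inv, hm,
        hy1 i hi, hu, xs_conj]
    · rw [conj_pow, hy3 i hi, mul_one, mul_inv_cancel]
  have hconjw : ∀ (m : M) (i j : Fin n), m * w i j * m⁻¹ =
      ((m * y i * m⁻¹) * (m * y j * m⁻¹)) ^ 2 := by
    intro m i j
    change m * (y i * y j) ^ 2 * m⁻¹ = _
    rw [← conj_pow]
    congr 1
    group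
  -- symmetry
  have hsymm : ∀ i ∈ sab a b, ∀ j ∈ sab a b, i ≠ j → w i j = w j i := by
    intro i hi j hj hij
    have h4 := hwc j hj i hi hij.symm (y i)
    rw [← h4]
    change (y i * y j) ^ 2 = y i * (y j * y i) ^ 2 * (y i)⁻¹
    rw [pow_two, pow_two]
    group
  -- the square
  have hsq : ∀ i ∈ sab a b, ∀ j ∈ sab a b, i ≠ j → w i j * w i j = 1 := by
    intro i hi j hj hij
    have hi' := mem_sab.1 hi
    have hj' := mem_sab.1 hj
    obtain ⟨m, hm⟩ := hs ⟨swap a b * swap i j, sign_ss hab hij⟩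
    have hm' : (f m : Perm (Fin n)) = swap a b * swap i j := by rw [hm]
    have ha : (swap a b * swap i j) a = b := by
      rw [Perm.mul_apply, swap_apply_of_ne_of_ne hi'.1.symm hj'.1.symm, swap_apply_left]
    have hb : (swap a b * swap i j) b = a := by
      rw [Perm.mul_apply, swap_apply_of_ne_of_ne hi'.2.symm hj'.2.symm, swap_apply_right]
    have hii : (swap a b * swap i j) i = j := by
      rw [Perm.mul_apply, swap_apply_left, swap_apply_of_ne_of_ne hj'.1 hj'.2]
    have hjj : (swap a b * swap i j) j = i := by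
      rw [Perm.mul_apply, swap_apply_right, swap_apply_of_ne_of_ne hi'.1 hi'.2]
    have h5 : m * y i * m⁻¹ = (y j)⁻¹ := by
      refine hconj m _ hm' i hi _ ?_ ?_
      · rw [map_inv, Subgroup.coe_inv, hy1 j hj, ha, hb, hii, xs_inv hj'.1 hj'.2]
      · rw [inv_pow, hy3 j hj, inv_one]
    have h6 : m * y j * m⁻¹ = (y i)⁻¹ := by
      refine hconj m _ hm' j hj _ ?_ ?_
      · rw [map_inv, Subgroup.coe_inv, hy1 i hi, ha, hb, hjj, xs_inv hi'.1 hi'.2]
      · rw [inv_pow, hy3 i hi, inv_one]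
    have h7 := hwc i hi j hj hij m
    rw [hconjw, h5, h6, ← mul_inv_rev, inv_pow] at h7
    change (w i j)⁻¹ = w i j at h7
    calc w i j * w i j = (w i j)⁻¹ * w i j := by rw [h7]
      _ = 1 := inv_mul_cancel _
  -- rotation
  have hrot : ∀ i ∈ sab a b, ∀ j ∈ sab a b, ∀ k ∈ sab a b, i ≠ j → j ≠ k → k ≠ i →
      w i j = w j k := by
    intro i hi j hj k hk hij hjk hki
    have hi' := mem_sab.1 hi
    have hj' := mem_sab.1 hj
    have hk' := mem_sab.1 hk
    obtain ⟨m, hm⟩ := hs ⟨swap i j * swap j k, sign_ss hij hjk⟩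
    have hm' : (f m : Perm (Fin n)) = swap i j * swap j k := by rw [hm]
    have ha : (swap i j * swap j k) a = a := by
      rw [Perm.mul_apply, swap_apply_of_ne_of_ne hj'.1.symm hk'.1.symm,
        swap_apply_of_ne_of_ne hi'.1.symm hj'.1.symm]
    have hb : (swap i j * swap j k) b = b := by
      rw [Perm.mul_apply, swap_apply_of_ne_of_ne hj'.2.symm hk'.2.symm,
        swap_apply_of_ne_of_ne hi'.2.symm hj'.2.symm]
    have hii : (swap i j * swap j k) i = j := by
      rw [Perm.mul_apply, swap_apply_of_ne_of_ne hij hki.symm, swap_apply_left]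
    have hjj : (swap i j * swap j k) j = k := by
      rw [Perm.mul_apply, swap_apply_left, swap_apply_of_ne_of_ne hki hjk.symm]
    have h5 : m * y i * m⁻¹ = y j := by
      refine hconj m _ hm' i hi _ ?_ (hy3 j hj)
      rw [hy1 j hj, ha, hb, hii]
    have h6 : m * y j * m⁻¹ = y k := by
      refine hconj m _ hm' j hj _ ?_ (hy3 k hk)
      rw [hy1 k hk, ha, hb, hjj]
    rw [← hwc i hi j hj hij m, hconjw, h5, h6]
  -- change of the second index
  have hch : ∀ i ∈ sab a b, ∀ j ∈ sab a b, ∀ k ∈ sab a b, i ≠ j → i ≠ k → w i j = w i k := by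
    intro i hi j hj k hk hij hik
    by_cases hjk : j = k
    · rw [hjk]
    · rw [hrot i hi j hj k hk hij hjk hik.symm, hrot j hj k hk i hi hjk hik.symm hij,
        hsymm k hk i hi hik.symm]
  refine ⟨y, w i0 j0, hw i0 hi0 j0 hj0 hij0, hsq i0 hi0 j0 hj0 hij0, hy, ?_⟩
  intro i hi j hj hij
  change w i j = w i0 j0
  by_cases h : i = i0
  · rw [h] at hij ⊢
    exact hch i0 hi0 j hj j0 hj0 hij hij0
  · rw [hch i hi j hj i0 hi0 hij h, hsymm i hi i0 hi0 h]
    exact hch i0 hi0 i hi j0 hj0 (Ne.symm h) hij0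

end lift

end Pool.Agent.K7.H53.CE
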